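import Pool.Agent.Work.MP_15bafc_al.CharVals

/-!
# Character values modulo a prime: sections are visible in the character table
-/

namespace HallTab

universe u v

/-- the ring of algebraic integers in `ℂ` -/
abbrev AlgInt : Type := integralClosure ℤ ℂ

theorem exists_red (q : ℕ) (hq : q.Prime) :
    ∃ (F : Type) (_ : Field F) (_ : CharP F q), Nonempty (AlgInt →+* F) := by
  have hnu : (q : AlgInt) ∈ nonunits AlgInt := by
    intro hu
    obtain ⟨a, ha⟩ := hu.exists_right_inv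
    have h1 : (q : ℂ) * (a : ℂ) = 1 := by
      have := congrArg (fun z : AlgInt => (z : ℂ)) ha
      simpa using this
    have hq0 : (q : ℂ) ≠ 0 := by exact_mod_cast hq.ne_zero
    have h2 : (a : ℂ) = algebraMap ℚ ℂ ((q : ℚ)⁻¹) := by
      rw [map_inv₀]
      have : (a : ℂ) = (q : ℂ)⁻¹ := by
        field_simp
        rw [mul_comm]; exact h1
      rw [this]; simp
    have h3 : IsIntegral ℤ ((q : ℚ)⁻¹) := by
      have h4 : IsIntegral ℤ (a : ℂ) := a.2
      rw [h2] at h4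
      exact (isIntegral_algebraMap_iff (algebraMap ℚ ℂ).injective).mp h4
    obtain ⟨z, hz⟩ := IsIntegrallyClosed.isIntegral_iff.mp h3
    have hq1 : (q : ℚ) ≠ 0 := by exact_mod_cast hq.ne_zero
    have h5 : (z : ℚ) * q = 1 := by
      have : (z : ℚ) = (q : ℚ)⁻¹ := by simpa using hz
      rw [this, inv_mul_cancel₀ hq1]
    have h6 : z * (q : ℤ) = 1 := by exact_mod_cast h5
    have h7 : (q : ℤ) ∣ 1 := ⟨z, by rw [mul_comm]; exact h6.symm⟩
    have h8 : q ∣ 1 := by exact_mod_cast h7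
    exact hq.one_lt.ne' (Nat.dvd_one.mp h8)
  obtain ⟨I, hI, hqI⟩ := exists_max_ideal_of_mem_nonunits hnu
  refine ⟨AlgInt ⧸ I, Ideal.Quotient.field I, ?_, ⟨Ideal.Quotient.mk I⟩⟩
  refine (CharP.charP_iff_prime_eq_zero hq).mpr ?_
  have := (Ideal.Quotient.eq_zero_iff_mem (I := I)).mpr hqI
  simpa using this

section Red

variable {F : Type} [Field F] (φ : AlgInt →+* F)

open Classical in
/-- reduction of an algebraic integer (zero on other complex numbers) -/
noncomputable def rd (z : ℂ) : F := if h : IsIntegral ℤ z then φ ⟨z, h⟩ else 0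

lemma rd_of {z : ℂ} (h : IsIntegral ℤ z) : rd φ z = φ ⟨z, h⟩ := by
  rw [rd, dif_pos h]

lemma rd_add {z w : ℂ} (hz : IsIntegral ℤ z) (hw : IsIntegral ℤ w) :
    rd φ (z + w) = rd φ z + rd φ w := by
  rw [rd_of φ hz, rd_of φ hw, rd_of φ (hz.add hw), ← map_add]; rfl

lemma rd_mul {z w : ℂ} (hz : IsIntegral ℤ z) (hw : IsIntegral ℤ w) :
    rd φ (z * w) = rd φ z * rd φ w := by
  rw [rd_of φ hz, rd_of φ hw, rd_of φ (hz.mul hw), ← map_mul]; rfl

lemma isIntegral_nat (m : ℕ) : IsIntegral ℤ (m : ℂ) := by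
  have := isIntegral_algebraMap (R := ℤ) (A := ℂ) (x := (m : ℤ))
  simpa using this

lemma rd_nat (m : ℕ) : rd φ (m : ℂ) = (m : F) := by
  rw [rd_of φ (isIntegral_nat m)]
  rw [← map_natCast φ m]; rfl

lemma rd_pow {z : ℂ} (hz : IsIntegral ℤ z) (k : ℕ) : rd φ (z ^ k) = rd φ z ^ k := by
  rw [rd_of φ hz, rd_of φ (hz.pow k), ← map_pow]; rfl

lemma rd_sum {ι : Type*} (s : Finset ι) (f : ι → ℂ) (hf : ∀ i ∈ s, IsIntegral ℤ (f i)) :
    rd φ (∑ i ∈ s, f i) = ∑ i ∈ s, rd φ (f i) := by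
  classical
  induction s using Finset.induction_on with
  | empty =>
    have := rd_nat φ 0
    simpa using this
  | insert a s ha ih =>
    rw [Finset.sum_insert ha, Finset.sum_insert ha, rd_add, ih]
    · exact fun i hi => hf i (Finset.mem_insert_of_mem hi)
    · exact hf a (Finset.mem_insert_self _ _)
    · exact IsIntegral.sum _ fun i hi => hf i (Finset.mem_insert_of_mem hi)

lemma natCast_pow_char (q : ℕ) [Fact q.Prime] [CharP F q] (m s : ℕ) :
    ((m : F)) ^ q ^ s = (m : F) := by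
  have : ExpChar F q := ExpChar.prime Fact.out
  rw [← iterateFrobenius_def, map_natCast]

/-- Frobenius -/
theorem rd_frob {G : Type u} [Group G] {χ : G → ℂ} (hχ : IsIrrChar χ) (q : ℕ) [Fact q.Prime]
    [CharP F q] {n : ℕ} (hn : 0 < n) {g : G} (hg : g ^ n = 1) (s : ℕ) :
    rd φ (χ (g ^ q ^ s)) = rd φ (χ g) ^ q ^ s := by
  have hζ := Complex.isPrimitiveRoot_exp n hn.ne'
  set ζ := Complex.exp (2 * Real.pi * Complex.I / n) with hζd
  have hζi : IsIntegral ℤ ζ := hζ.isIntegral hn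
  obtain ⟨m, hm⟩ := hχ.mult hn hζ hg
  have hr : ∀ t, rd φ (χ (g ^ t)) = ∑ a ∈ Finset.range n, (m a : F) * rd φ ζ ^ (a * t) := by
    intro t
    rw [hm, rd_sum]
    · refine Finset.sum_congr rfl fun a _ => ?_
      rw [rd_mul φ (isIntegral_nat _) (hζi.pow _), rd_nat, rd_pow φ hζi]
    · exact fun a _ => (isIntegral_nat _).mul (hζi.pow _)
  have : ExpChar F q := ExpChar.prime Fact.out
  have h1 := hr 1
  rw [pow_one] at h1
  rw [hr, h1, sum_pow_char_pow q s]
  refine Finset.sum_congr rfl fun a _ => ?_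
  rw [mul_pow, natCast_pow_char q, mul_one, ← pow_mul]

end Red

section TheoremB

variable {G : Type u} [Group G] [Finite G] {F : Type} [Field F] (φ : AlgInt →+* F)

/-- congruence of columns of the character table -/
def Cong (x y : G) : Prop := ∀ χ : G → ℂ, IsIrrChar χ → rd φ (χ x) = rd φ (χ y)

/-- `q'`-elements with congruent columns are conjugate -/
theorem conj_of_cong (q : ℕ) [hq : Fact q.Prime] [CharP F q] {m : ℕ} (hm : ¬ q ∣ m) {x y : G}
    (hx : x ^ m = 1) (hy : y ^ m = 1) (h : Cong φ x y) : ∃ w : G, w * x * w⁻¹ = y := by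
  classical
  by_contra hcon
  push Not at hcon
  have := Fintype.ofFinite G
  have := Fintype.ofFinite {χ : G → ℂ // IsIrrChar χ}
  have hm0 : 0 < m := Nat.pos_of_ne_zero (by rintro rfl; exact hm (dvd_zero q))
  let C : Subgroup G := Subgroup.centralizer {x}
  let P : Sylow q C := default
  let Q : Subgroup G := (P : Subgroup C).map C.subtype
  have hQC : ∀ u ∈ Q, u * x = x * u := by
    intro u hu
    obtain ⟨v, hv, rfl⟩ := Subgroup.mem_map.mp hu
    have := Subgroup.mem_centralizer_singleton_iff.mp v.2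
    simpa using this
  have hQp : ∀ u ∈ Q, ∃ k : ℕ, u ^ q ^ k = 1 := by
    intro u hu
    obtain ⟨v, hv, rfl⟩ := Subgroup.mem_map.mp hu
    obtain ⟨k, hk⟩ := P.2 ⟨v, hv⟩
    refine ⟨k, ?_⟩
    have h1 := congrArg (fun z : P => ((z : C) : G)) hk
    simpa using h1
  have hcardQ : Nat.card Q = Nat.card P := by
    exact (Nat.card_congr ((P : Subgroup C).equivMapOfInjective C.subtype
      C.subtype_injective).toEquiv).symm
  have hcc : Nat.card Q * (P : Subgroup C).index = Nat.card C := by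
    rw [hcardQ]; exact (P : Subgroup C).card_mul_index
  have hind : ¬ q ∣ (P : Subgroup C).index := P.not_dvd_index
  have hcQ : (Nat.card Q : ℂ) ≠ 0 := by exact_mod_cast Nat.card_pos.ne'
  let c : {χ : G → ℂ // IsIrrChar χ} → ℂ := fun χ =>
    (Nat.card Q : ℂ)⁻¹ * ∑ u : Q, (χ : G → ℂ) (x⁻¹ * u)
  have hxinv : x⁻¹ ^ m = 1 := by rw [inv_pow, hx, inv_one]
  have hci : ∀ χ, IsIntegral ℤ (c χ) := by
    intro χ
    have hζ := Complex.isPrimitiveRoot_exp m hm0.ne'
    obtain ⟨mm, hmm⟩ := χ.2.mult_avg hm0 hζ hxinv Q (by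
      intro u hu
      have := hQC u hu
      calc x⁻¹ * u = x⁻¹ * (u * x) * x⁻¹ := by group
        _ = u * x⁻¹ := by rw [this]; group)
    simp only [c]
    rw [hmm]
    have := isIntegral_sum hm0 hζ mm 1
    simpa using this
  let f : G → ℂ := fun g => ∑ χ, c χ * (χ : G → ℂ) g
  have hf : ∀ g, f g = (Nat.card Q : ℂ)⁻¹ *
      ∑ u : Q, (Nat.card {w : G // w * ((u : G)⁻¹ * x) * w⁻¹ = g} : ℂ) := by
    intro g
    simp only [f, c]
    have h1 : ∀ χ : {χ : G → ℂ // IsIrrChar χ},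
        (Nat.card Q : ℂ)⁻¹ * (∑ u : Q, (χ : G → ℂ) (x⁻¹ * u)) * (χ : G → ℂ) g =
        (Nat.card Q : ℂ)⁻¹ * ∑ u : Q, (χ : G → ℂ) g * (χ : G → ℂ) ((u : G)⁻¹ * x)⁻¹ := by
      intro χ
      rw [mul_assoc, Finset.sum_mul]
      congr 1
      refine Finset.sum_congr rfl fun u _ => ?_
      rw [mul_comm, mul_inv_rev, inv_inv]
    simp only [h1]
    rw [← Finset.mul_sum, Finset.sum_comm]
    congr 1
    refine Finset.sum_congr rfl fun u _ => ?_
    rw [orth2]
  have hord : ∀ u ∈ Q, ∀ w g : G, g ^ m = 1 → w * (u⁻¹ * x) * w⁻¹ = g → u = 1 := by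
    intro u hu w g hg hw
    have h1 : (w * (u⁻¹ * x) * w⁻¹) ^ m = 1 := by rw [hw, hg]
    rw [conj_pow] at h1
    have h2 : (u⁻¹ * x) ^ m = 1 := by
      have := congrArg (fun z => w⁻¹ * z * w) h1
      simpa [mul_assoc] using this
    have hcomm : Commute u⁻¹ x := (show Commute u x from hQC u hu).inv_left
    rw [hcomm.mul_pow, hx, mul_one, inv_pow, inv_eq_one] at h2
    obtain ⟨k, hk⟩ := hQp u hu
    have h3 : orderOf u ∣ m := orderOf_dvd_of_pow_eq_one h2
    have h4 : orderOf u ∣ q ^ k := orderOf_dvd_of_pow_eq_one hk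
    have h5 : Nat.Coprime (q ^ k) m := Nat.Coprime.pow_left k ((Nat.Prime.coprime_iff_not_dvd
      hq.out).mpr hm)
    have h6 : orderOf u ∣ 1 := by
      have := Nat.dvd_gcd h4 h3
      rwa [h5] at this
    exact orderOf_eq_one_iff.mp (Nat.dvd_one.mp h6)
  have hfy : f y = 0 := by
    rw [hf]
    have : ∀ u : Q, (Nat.card {w : G // w * ((u : G)⁻¹ * x) * w⁻¹ = y} : ℂ) = 0 := by
      intro u
      have : IsEmpty {w : G // w * ((u : G)⁻¹ * x) * w⁻¹ = y} := by
        refine ⟨fun ⟨w, hw⟩ => ?_⟩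
        have h1 := hord u u.2 w y hy hw
        rw [h1, inv_one, one_mul] at hw
        exact hcon w hw
      simp
    rw [Finset.sum_eq_zero (fun u _ => this u), mul_zero]
  have hfx : f x = ((P : Subgroup C).index : ℂ) := by
    rw [hf]
    have h1 : ∀ u : Q, (Nat.card {w : G // w * ((u : G)⁻¹ * x) * w⁻¹ = x} : ℂ) =
        if u = 1 then (Nat.card C : ℂ) else 0 := by
      intro u
      by_cases hu : u = 1
      · subst hu
        rw [if_pos rfl]
        congr 1
        refine Nat.card_congr (Equiv.subtypeEquivRight fun w => ?_)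
        rw [Subgroup.mem_centralizer_singleton_iff]
        simp only [OneMemClass.coe_one, inv_one, one_mul]
        rw [mul_inv_eq_iff_eq_mul]
      · rw [if_neg hu]
        have : IsEmpty {w : G // w * ((u : G)⁻¹ * x) * w⁻¹ = x} := by
          refine ⟨fun w => ?_⟩
          exact hu (Subtype.ext (hord u u.2 w.1 x hx w.2))
        simp
    simp only [h1]
    rw [Finset.sum_ite_eq' Finset.univ (1 : Q), if_pos (Finset.mem_univ _), ← hcc]
    push_cast
    rw [← mul_assoc, inv_mul_cancel₀ hcQ, one_mul]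
  have hrd : ∀ g : G, g ^ m = 1 → rd φ (f g) = ∑ χ, rd φ (c χ) * rd φ ((χ : G → ℂ) g) := by
    intro g hg
    simp only [f]
    rw [rd_sum]
    · exact Finset.sum_congr rfl fun χ _ => rd_mul φ (hci χ) (χ.2.isIntegral hm0 hg)
    · exact fun χ _ => (hci χ).mul (χ.2.isIntegral hm0 hg)
  have h1 : rd φ (f x) = rd φ (f y) := by
    rw [hrd x hx, hrd y hy]
    exact Finset.sum_congr rfl fun χ _ => by rw [h χ.1 χ.2]
  rw [hfx, hfy, rd_nat] at h1
  have h2 : rd φ (0 : ℂ) = 0 := by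
    have := rd_nat φ 0
    simpa using this
  rw [h2, CharP.cast_eq_zero_iff F q] at h1
  exact hind h1

end TheoremB

section Exponents

/-- an exponent `e` such that `g ^ e` is the `q'`-part of `g` whenever `g ^ n = 1` -/
def qexp (q n : ℕ) : ℕ := q ^ (n.factorization q * (ordCompl[q] n).totient)

lemma qexp_dvd {q n : ℕ} (hn : n ≠ 0) : ordProj[q] n ∣ qexp q n := by
  apply pow_dvd_pow
  apply Nat.le_mul_of_pos_right
  exact Nat.totient_pos.mpr (Nat.ordCompl_pos q hn)

lemma qexp_mod {q n : ℕ} (hq : q.Prime) (hn : n ≠ 0) : qexp q n ≡ 1 [MOD ordCompl[q] n] := by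
  have h1 : Nat.Coprime q (ordCompl[q] n) := Nat.coprime_ordCompl hq hn
  have h2 := Nat.ModEq.pow_totient h1
  have h3 := h2.pow (n.factorization q)
  rw [one_pow, ← pow_mul, mul_comm] at h3
  exact h3

lemma pow_qexp {G : Type u} [Group G] {q n : ℕ} (hn : n ≠ 0) {g : G} (hg : g ^ n = 1) :
    (g ^ qexp q n) ^ (ordCompl[q] n) = 1 := by
  obtain ⟨k, hk⟩ := qexp_dvd (q := q) hn
  rw [← pow_mul, hk, mul_comm (ordProj[q] n) k, mul_assoc, Nat.ordProj_mul_ordCompl_eq_self,
    mul_comm, pow_mul, hg, one_pow]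

lemma pow_qexp_self {G : Type u} [Group G] {q n : ℕ} (hq : q.Prime) (hn : n ≠ 0) {g : G}
    (hg : g ^ (ordCompl[q] n) = 1) : g ^ qexp q n = g := by
  have h1 : orderOf g ∣ ordCompl[q] n := orderOf_dvd_of_pow_eq_one hg
  have h2 : qexp q n ≡ 1 [MOD orderOf g] := (qexp_mod hq hn).of_dvd h1
  have h3 := pow_eq_pow_iff_modEq.mpr h2
  rwa [pow_one] at h3

end Exponents

section Sections

variable {G : Type u} [Group G] [Finite G] {F : Type} [Field F] (φ : AlgInt →+* F)

omit [Finite G] in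
lemma cong_symm {x y : G} (h : Cong φ x y) : Cong φ y x := fun χ hχ => (h χ hχ).symm

/-- congruent columns have conjugate `q'`-parts -/
theorem conj_qpart (q : ℕ) [hq : Fact q.Prime] [CharP F q] {n : ℕ} (hn : 0 < n)
    {x y : G} (hx : x ^ n = 1) (hy : y ^ n = 1) (h : Cong φ x y) :
    ∃ w : G, w * x ^ qexp q n * w⁻¹ = y ^ qexp q n := by
  have hm : ¬ q ∣ ordCompl[q] n := Nat.not_dvd_ordCompl hq.out hn.ne'
  refine conj_of_cong φ q hm (pow_qexp hn.ne' hx) (pow_qexp hn.ne' hy) ?_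
  intro χ hχ
  rw [qexp, rd_frob φ hχ q hn hx, rd_frob φ hχ q hn hy, h χ hχ]

omit [Finite G] in
/-- conversely -/
theorem cong_of_conj_qpart (q : ℕ) [hq : Fact q.Prime] [CharP F q] {n : ℕ} (hn : 0 < n)
    {x y : G} (hx : x ^ n = 1) (hy : y ^ n = 1)
    (h : ∃ w : G, w * x ^ qexp q n * w⁻¹ = y ^ qexp q n) : Cong φ x y := by
  obtain ⟨w, hw⟩ := h
  intro χ hχ
  have h1 : χ (x ^ qexp q n) = χ (y ^ qexp q n) := by
    rw [← hw, hχ.conj_inv]
  have h2 : rd φ (χ x) ^ qexp q n = rd φ (χ y) ^ qexp q n := by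
    rw [qexp, ← rd_frob φ hχ q hn hx, ← rd_frob φ hχ q hn hy]
    rw [qexp] at h1
    rw [h1]
  have : ExpChar F q := ExpChar.prime hq.out
  exact iterateFrobenius_inj F q _ h2

end Sections

end HallTab
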