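import Mathlib

/-!
# Traces of endomorphisms of finite order
-/

namespace HallTab

section Spectral

variable {V : Type*} [AddCommGroup V] [Module ℂ V]

theorem spectral {n : ℕ} (hn : 0 < n) {ζ : ℂ} (hζ : IsPrimitiveRoot ζ n)
    (T e : Module.End ℂ V) (he : e * e = e) (hc : T * e = e * T) (hT : T ^ n * e = e) :
    ∃ E : ℕ → Module.End ℂ V, (∀ a, E a * E a = E a) ∧
      ∀ t, T ^ t * e = ∑ a ∈ Finset.range n, ζ ^ (a * t) • E a := by
  have hn0 : (n : ℂ) ≠ 0 := by exact_mod_cast hn.ne'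
  have hζ0 : ζ ≠ 0 := hζ.ne_zero hn.ne'
  let E : ℕ → Module.End ℂ V := fun a =>
    (n : ℂ)⁻¹ • ∑ t ∈ Finset.range n, (ζ⁻¹) ^ (a * t) • (T ^ t * e)
  have h1 : ∀ a, T * E a = ζ ^ a • E a := by
    intro a
    have hTE : T * E a = (n : ℂ)⁻¹ • ∑ t ∈ Finset.range n,
        (ζ⁻¹) ^ (a * t) • (T * (T ^ t * e)) := by
      simp only [E, mul_smul_comm, Finset.mul_sum]
    rw [hTE]
    have hF : ∀ t, (ζ⁻¹) ^ (a * t) • (T * (T ^ t * e)) =
        ζ ^ a • ((ζ⁻¹) ^ (a * (t + 1)) • (T ^ (t + 1) * e)) := by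
      intro t
      rw [smul_smul, ← mul_assoc, ← pow_succ']
      congr 1
      rw [mul_add, mul_one, pow_add, mul_comm ((ζ⁻¹) ^ (a * t)), ← mul_assoc, ← mul_pow,
        mul_inv_cancel₀ hζ0, one_pow, one_mul]
    simp only [hF]
    rw [← Finset.smul_sum, smul_comm]
    congr 2
    have h2 := Finset.sum_range_succ (fun t => (ζ⁻¹) ^ (a * t) • (T ^ t * e)) n
    have h3 := Finset.sum_range_succ' (fun t => (ζ⁻¹) ^ (a * t) • (T ^ t * e)) n
    rw [h2] at h3
    have h4 : (ζ⁻¹) ^ (a * n) • (T ^ n * e) = (ζ⁻¹) ^ (a * 0) • (T ^ 0 * e) := by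
      rw [hT, mul_comm a n, pow_mul, inv_pow, hζ.pow_eq_one, inv_one, one_pow]
      simp
    rw [h4] at h3
    exact (add_right_cancel h3).symm
  have h2 : ∀ a t, T ^ t * E a = ζ ^ (a * t) • E a := by
    intro a t
    induction t with
    | zero => simp
    | succ t ih =>
      rw [pow_succ, mul_assoc, h1, mul_smul_comm, ih, smul_smul, mul_add, mul_one, pow_add, mul_comm]
  have hce : ∀ t, T ^ t * e = e * T ^ t := by
    intro t
    exact (Commute.pow_left (show Commute T e from hc) t)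
  have h3 : ∀ a, e * E a = E a := by
    intro a
    simp only [E, mul_smul_comm, Finset.mul_sum]
    congr 1
    refine Finset.sum_congr rfl fun t _ => ?_
    rw [hce, ← mul_assoc, he]
  have h4 : ∀ a, E a * E a = E a := by
    intro a
    conv_lhs => rw [show E a * E a = ((n : ℂ)⁻¹ • ∑ t ∈ Finset.range n,
      (ζ⁻¹) ^ (a * t) • (T ^ t * e)) * E a from rfl]
    simp only [smul_mul_assoc, Finset.sum_mul, mul_assoc, h3, h2, smul_smul]
    have : ∀ t, (ζ⁻¹) ^ (a * t) * ζ ^ (a * t) = 1 := by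
      intro t
      rw [← mul_pow, inv_mul_cancel₀ hζ0, one_pow]
    simp only [this, one_smul, Finset.sum_const, Finset.card_range]
    rw [← Nat.cast_smul_eq_nsmul ℂ, smul_smul, inv_mul_cancel₀ hn0, one_smul]
  have h5 : ∑ a ∈ Finset.range n, E a = e := by
    simp only [E, ← Finset.smul_sum]
    rw [Finset.sum_comm]
    have h6 : ∀ t ∈ Finset.range n, ∑ a ∈ Finset.range n, (ζ⁻¹) ^ (a * t) • (T ^ t * e) =
        if t = 0 then (n : ℂ) • e else 0 := by
      intro t ht
      rw [← Finset.sum_smul]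
      by_cases h : t = 0
      · subst h; simp
      · rw [if_neg h]
        have h7 : ∑ a ∈ Finset.range n, (ζ⁻¹) ^ (a * t) = 0 := by
          have h8 : ∀ a, (ζ⁻¹) ^ (a * t) = ((ζ⁻¹) ^ t) ^ a := by
            intro a; rw [← pow_mul, mul_comm]
          simp only [h8]
          have h9 : (ζ⁻¹) ^ t ≠ 1 := by
            have h10 := hζ.inv
            rw [Ne, h10.pow_eq_one_iff_dvd]
            intro hd
            have := Nat.le_of_dvd (Nat.pos_of_ne_zero h) hd
            have := Finset.mem_range.mp ht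
            omega
          have h11 := mul_neg_geom_sum ((ζ⁻¹) ^ t) n
          have h12 : ((ζ⁻¹) ^ t) ^ n = 1 := by
            rw [← pow_mul, mul_comm, pow_mul, hζ.inv.pow_eq_one, one_pow]
          rw [h12, sub_self] at h11
          rcases mul_eq_zero.mp h11 with h | h
          · exact absurd (sub_eq_zero.mp h).symm h9
          · exact h
        rw [h7, zero_smul]
    rw [Finset.sum_congr rfl h6, Finset.sum_ite_eq' (Finset.range n) 0,
      if_pos (Finset.mem_range.mpr hn), smul_smul, inv_mul_cancel₀ hn0, one_smul]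
  refine ⟨E, h4, fun t => ?_⟩
  conv_lhs => rw [← h5]
  rw [Finset.mul_sum]
  exact Finset.sum_congr rfl fun a _ => h2 a t

lemma trace_idem [FiniteDimensional ℂ V] (E : Module.End ℂ V) (h : E * E = E) :
    LinearMap.trace ℂ V E = (Module.finrank ℂ (LinearMap.range E) : ℂ) := by
  have h1 : LinearMap.IsProj (LinearMap.range E) E :=
    (LinearMap.isProj_range_iff_isIdempotentElem E).mpr h
  exact h1.trace

end Spectral

end HallTab
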