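import Pool.Agent.Work.MP_15bafc_al.Chars
import Pool.Agent.Work.MP_15bafc_al.Roots

/-!
# Values of irreducible characters
-/

open Representation Polynomial

namespace HallTab

universe u v

section

variable {G : Type u} [Group G]

/-- character values at the powers of an element of finite order -/
theorem IsIrrChar.mult {χ : G → ℂ} (hχ : IsIrrChar χ) {n : ℕ} (hn : 0 < n) {ζ : ℂ}
    (hζ : IsPrimitiveRoot ζ n) {g : G} (hg : g ^ n = 1) :
    ∃ m : ℕ → ℕ, ∀ t, χ (g ^ t) = ∑ a ∈ Finset.range n, (m a : ℂ) * ζ ^ (a * t) := by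
  obtain ⟨N, ρ, -, h2⟩ := hχ
  obtain ⟨E, hE, hs⟩ := spectral hn hζ (ρ g) 1 (one_mul 1) (by rw [mul_one, one_mul])
    (by rw [← map_pow, hg, map_one, one_mul])
  refine ⟨fun a => Module.finrank ℂ (LinearMap.range (E a)), fun t => ?_⟩
  have h3 := congrArg (LinearMap.trace ℂ (Fin N → ℂ)) (hs t)
  rw [mul_one, ← map_pow] at h3
  rw [h2, character, h3, map_sum]
  refine Finset.sum_congr rfl fun a _ => ?_
  rw [map_smul, trace_idem (E a) (hE a), smul_eq_mul, mul_comm]

/-- averages of character values over a coset of a subgroup centralised by the element -/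
theorem IsIrrChar.mult_avg {χ : G → ℂ} (hχ : IsIrrChar χ) {n : ℕ} (hn : 0 < n) {ζ : ℂ}
    (hζ : IsPrimitiveRoot ζ n) {x : G} (hx : x ^ n = 1) (Q : Subgroup G) [Fintype Q]
    (hQ : ∀ u ∈ Q, x * u = u * x) :
    ∃ m : ℕ → ℕ, (Nat.card Q : ℂ)⁻¹ * ∑ u : Q, χ (x * u) =
      ∑ a ∈ Finset.range n, (m a : ℂ) * ζ ^ a := by
  obtain ⟨N, ρ, -, h2⟩ := hχ
  have hc : (Nat.card Q : ℂ) ≠ 0 := by exact_mod_cast Nat.card_pos.ne'
  let e : Module.End ℂ (Fin N → ℂ) := (Nat.card Q : ℂ)⁻¹ • ∑ u : Q, ρ u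
  have hue : ∀ u : Q, ρ u * e = e := by
    intro u
    simp only [e, mul_smul_comm, Finset.mul_sum, ← map_mul]
    congr 1
    exact Equiv.sum_comp (Equiv.mulLeft u) (fun v : Q => ρ (v : G))
  have he : e * e = e := by
    conv_lhs => rw [show e * e = ((Nat.card Q : ℂ)⁻¹ • ∑ u : Q, ρ u) * e from rfl]
    simp only [smul_mul_assoc, Finset.sum_mul, hue, Finset.sum_const, Finset.card_univ]
    rw [← Nat.cast_smul_eq_nsmul ℂ, smul_smul, ← Nat.card_eq_fintype_card, inv_mul_cancel₀ hc,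
      one_smul]
  have hce : ρ x * e = e * ρ x := by
    simp only [e, mul_smul_comm, smul_mul_assoc, Finset.mul_sum, Finset.sum_mul, ← map_mul]
    congr 1
    exact Finset.sum_congr rfl fun u _ => by rw [hQ u u.2]
  obtain ⟨E, hE, hs⟩ := spectral hn hζ (ρ x) e he hce
    (by rw [← map_pow, hx, map_one, one_mul])
  refine ⟨fun a => Module.finrank ℂ (LinearMap.range (E a)), ?_⟩
  have h3 := congrArg (LinearMap.trace ℂ (Fin N → ℂ)) (hs 1)
  have h4 : (Nat.card Q : ℂ)⁻¹ * ∑ u : Q, χ (x * u) =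
      LinearMap.trace ℂ (Fin N → ℂ) (ρ x ^ 1 * e) := by
    simp only [e, pow_one, mul_smul_comm, Finset.mul_sum, map_smul, map_sum, smul_eq_mul, h2,
      character, map_mul]
  rw [h4, h3, map_sum]
  refine Finset.sum_congr rfl fun a _ => ?_
  rw [map_smul, trace_idem (E a) (hE a), smul_eq_mul, mul_comm, mul_one]

/-- an element on which the character takes its degree acts trivially -/
theorem ker_of_trace {N : ℕ} (ρ : Representation ℂ G (Fin N → ℂ)) {n : ℕ} (hn : 0 < n)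
    {g : G} (hg : g ^ n = 1) (h : ρ.character g = ρ.character 1) : ρ g = 1 := by
  have hζ := Complex.isPrimitiveRoot_exp n hn.ne'
  set ζ := Complex.exp (2 * Real.pi * Complex.I / n) with hζd
  obtain ⟨E, hE, hs⟩ := spectral hn hζ (ρ g) 1 (one_mul 1) (by rw [mul_one, one_mul])
    (by rw [← map_pow, hg, map_one, one_mul])
  have h0 := hs 0
  have h1 := hs 1
  simp only [mul_zero, pow_zero, one_smul, mul_one, pow_one] at h0 h1
  have t0 := congrArg (LinearMap.trace ℂ (Fin N → ℂ)) h0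
  have t1 := congrArg (LinearMap.trace ℂ (Fin N → ℂ)) h1
  rw [map_sum] at t0 t1
  simp only [map_smul, smul_eq_mul, trace_idem _ (hE _)] at t0 t1
  have t2 : ρ.character g = LinearMap.trace ℂ (Fin N → ℂ) (ρ g) := rfl
  have t3 : ρ.character 1 = LinearMap.trace ℂ (Fin N → ℂ) 1 := by
    rw [character, map_one]
  rw [← t2, h, t3, t0] at t1
  -- compare real parts
  have t4 := congrArg Complex.re t1
  simp only [Complex.re_sum] at t4
  have t5 : ∀ a ∈ Finset.range n, ((Module.finrank ℂ (LinearMap.range (E a)) : ℂ)).re -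
      (ζ ^ a * (Module.finrank ℂ (LinearMap.range (E a)) : ℂ)).re =
      (Module.finrank ℂ (LinearMap.range (E a)) : ℝ) * (1 - (ζ ^ a).re) := by
    intro a _
    simp [Complex.mul_re]
    ring
  have hnorm : ∀ a, ‖ζ ^ a‖ = 1 := by
    intro a
    rw [norm_pow, hζ.norm'_eq_one hn.ne', one_pow]
  have hre : ∀ a, (ζ ^ a).re ≤ 1 := fun a => (Complex.re_le_norm _).trans (hnorm a).le
  have t6 : ∑ a ∈ Finset.range n,
      (Module.finrank ℂ (LinearMap.range (E a)) : ℝ) * (1 - (ζ ^ a).re) = 0 := by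
    rw [← Finset.sum_congr rfl t5, Finset.sum_sub_distrib, t4, sub_self]
  have t7 := (Finset.sum_eq_zero_iff_of_nonneg (fun a _ =>
    mul_nonneg (Nat.cast_nonneg _) (sub_nonneg.mpr (hre a)))).mp t6
  have hEz : ∀ a ∈ Finset.range n, a ≠ 0 → E a = 0 := by
    intro a ha ha0
    have h8 := t7 a ha
    have h9 : (ζ ^ a).re ≠ 1 := by
      intro h9
      have h10 : ζ ^ a = 1 := by
        apply Complex.ext
        · rw [h9]; simp
        · have h11 := Complex.sq_norm (ζ ^ a)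
          rw [hnorm, Complex.normSq_apply, h9] at h11
          have : (ζ ^ a).im * (ζ ^ a).im = 0 := by linarith
          simpa using this
      rw [hζ.pow_eq_one_iff_dvd] at h10
      have := Nat.le_of_dvd (Nat.pos_of_ne_zero ha0) h10
      have := Finset.mem_range.mp ha
      omega
    rcases mul_eq_zero.mp h8 with h8 | h8
    · have h12 : LinearMap.trace ℂ (Fin N → ℂ) (E a) = 0 := by
        rw [trace_idem _ (hE a)]
        exact_mod_cast h8
      have h13 : IsIdempotentElem (E a) := hE a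
      exact (LinearMap.IsIdempotentElem.trace_eq_zero_iff h13).mp h12
    · exact absurd (sub_eq_zero.mp h8).symm h9
  have e0 : ∑ a ∈ Finset.range n, E a = E 0 := by
    refine Finset.sum_eq_single 0 (fun a ha h => hEz a ha h) (fun h => ?_)
    exact absurd (Finset.mem_range.mpr hn) h
  have e1 : ∑ a ∈ Finset.range n, ζ ^ a • E a = E 0 := by
    rw [Finset.sum_eq_single 0 (fun a ha h => by rw [hEz a ha h, smul_zero]) (fun h => ?_)]
    · simp
    · exact absurd (Finset.mem_range.mpr hn) h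
  rw [h1, e1, ← e0, ← h0]

theorem IsIrrChar.re_le {χ : G → ℂ} (hχ : IsIrrChar χ) {n : ℕ} (hn : 0 < n)
    {g : G} (hg : g ^ n = 1) : (χ g).re ≤ (χ 1).re := by
  have hζ := Complex.isPrimitiveRoot_exp n hn.ne'
  obtain ⟨m, hm⟩ := hχ.mult hn hζ hg
  have h1 := hm 1
  have h0 := hm 0
  simp only [pow_one, pow_zero, mul_one, mul_zero] at h0 h1
  rw [h0, h1, Complex.re_sum, Complex.re_sum]
  refine Finset.sum_le_sum fun a _ => ?_
  rw [← Complex.ofReal_natCast, Complex.re_ofReal_mul, Complex.ofReal_re]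
  have : (Complex.exp (2 * Real.pi * Complex.I / n) ^ a).re ≤ 1 := by
    refine (Complex.re_le_norm _).trans ?_
    rw [norm_pow, hζ.norm'_eq_one hn.ne', one_pow]
  nlinarith [Nat.cast_nonneg (α := ℝ) (m a)]

theorem IsIrrChar.deg {χ : G → ℂ} (hχ : IsIrrChar χ) : ∃ d : ℕ, χ 1 = d := by
  obtain ⟨N, ρ, -, h2⟩ := hχ
  exact ⟨_, by rw [h2, char_one]⟩

/-- Galois conjugation -/
theorem IsIrrChar.galois {K : Type v} [Group K] {χ : G → ℂ} (hχ : IsIrrChar χ) {ψ : K → ℂ}
    (hψ : IsIrrChar ψ) {n : ℕ} (hn : 0 < n) {g : G} (hg : g ^ n = 1) {k : K} (hk : k ^ n = 1)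
    (h : χ g = ψ k) {j : ℕ} (hj : j.Coprime n) : χ (g ^ j) = ψ (k ^ j) := by
  have hζ := Complex.isPrimitiveRoot_exp n hn.ne'
  set ζ := Complex.exp (2 * Real.pi * Complex.I / n) with hζd
  obtain ⟨m, hm⟩ := hχ.mult hn hζ hg
  obtain ⟨m', hm'⟩ := hψ.mult hn hζ hk
  let F : ℤ[X] := ∑ a ∈ Finset.range n, C ((m a : ℤ) - (m' a : ℤ)) * X ^ a
  have hF : ∀ t, aeval (ζ ^ t) F = χ (g ^ t) - ψ (k ^ t) := by
    intro t
    rw [hm, hm', ← Finset.sum_sub_distrib]
    simp only [F, map_sum, map_mul, aeval_C, map_pow, aeval_X]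
    refine Finset.sum_congr rfl fun a _ => ?_
    rw [← pow_mul, mul_comm t a]
    simp
    ring
  have h1 : aeval ζ F = 0 := by
    have := hF 1
    rw [pow_one, pow_one, pow_one, h, sub_self] at this
    exact this
  have h2 : minpoly ℤ ζ ∣ F := minpoly.isIntegrallyClosed_dvd (hζ.isIntegral hn) h1
  have h3 : aeval (ζ ^ j) F = 0 := by
    obtain ⟨q, hq⟩ := h2
    rw [hq, map_mul]
    have h4 := hζ.pow_isRoot_minpoly hj
    rw [IsRoot.def, eval_map] at h4
    have h5 : aeval (ζ ^ j) (minpoly ℤ ζ) = 0 := by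
      rw [aeval_def]; exact h4
    rw [h5, zero_mul]
  rw [hF j] at h3
  exact sub_eq_zero.mp h3

theorem isIntegral_sum {n : ℕ} (hn : 0 < n) {ζ : ℂ} (hζ : IsPrimitiveRoot ζ n) (m : ℕ → ℕ)
    (t : ℕ) : IsIntegral ℤ (∑ a ∈ Finset.range n, (m a : ℂ) * ζ ^ (a * t)) := by
  refine IsIntegral.sum _ fun a _ => ?_
  refine IsIntegral.mul ?_ ((hζ.isIntegral hn).pow _)
  have := isIntegral_algebraMap (R := ℤ) (A := ℂ) (x := (m a : ℤ))
  simpa using this

theorem IsIrrChar.isIntegral {χ : G → ℂ} (hχ : IsIrrChar χ) {n : ℕ} (hn : 0 < n)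
    {g : G} (hg : g ^ n = 1) : IsIntegral ℤ (χ g) := by
  have hζ := Complex.isPrimitiveRoot_exp n hn.ne'
  obtain ⟨m, hm⟩ := hχ.mult hn hζ hg
  have := hm 1
  rw [pow_one] at this
  rw [this]
  exact isIntegral_sum hn hζ m 1

end

end HallTab
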