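import Pool.Agent.Work.MP_15bafc_al.Defs

/-!
# Irreducible complex characters: completeness and the second orthogonality relation
-/

open Representation

namespace HallTab

universe u v

section Transport

variable {G : Type u} [Group G] {V : Type v} [AddCommGroup V] [Module ℂ V]
  {W : Type*} [AddCommGroup W] [Module ℂ W]

/-- transport of a representation along a linear equivalence -/
noncomputable def transportRep (ρ : Representation ℂ G V) (e : V ≃ₗ[ℂ] W) :
    Representation ℂ G W where
  toFun g := e.conj (ρ g)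
  map_one' := by ext w; simp
  map_mul' a b := by ext w; simp [LinearEquiv.conj_apply]

lemma transportRep_apply (ρ : Representation ℂ G V) (e : V ≃ₗ[ℂ] W) (g : G) (w : W) :
    transportRep ρ e g w = e (ρ g (e.symm w)) := rfl

/-- order isomorphism of lattices of subrepresentations -/
noncomputable def transportIso (ρ : Representation ℂ G V) (e : V ≃ₗ[ℂ] W) :
    Subrepresentation ρ ≃o Subrepresentation (transportRep ρ e) where
  toFun S := ⟨S.toSubmodule.comap e.symm.toLinearMap, by
    intro g w hw
    simp only [Submodule.mem_comap] at hw ⊢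
    rw [transportRep_apply]
    simpa using S.apply_mem_toSubmodule g hw⟩
  invFun S := ⟨S.toSubmodule.comap e.toLinearMap, by
    intro g w hw
    simp only [Submodule.mem_comap] at hw ⊢
    have := S.apply_mem_toSubmodule g hw
    rw [transportRep_apply] at this
    simpa using this⟩
  left_inv S := by
    apply Subrepresentation.toSubmodule_injective
    ext x; simp
  right_inv S := by
    apply Subrepresentation.toSubmodule_injective
    ext x; simp
  map_rel_iff' := by
    intro S T
    constructor
    · intro h x hx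
      have h1 : e.symm (e x) ∈ S.toSubmodule := by
        rw [LinearEquiv.symm_apply_apply]; exact hx
      have h2 : e.symm (e x) ∈ T.toSubmodule := h (x := e x) h1
      rw [LinearEquiv.symm_apply_apply] at h2
      exact h2
    · intro h x hx
      exact h hx

lemma isIrrChar_of_irreducible [FiniteDimensional ℂ V]
    (ρ : Representation ℂ G V) (h : ρ.IsIrreducible) : IsIrrChar ρ.character := by
  let e := (Module.finBasis ℂ V).equivFun
  refine ⟨_, transportRep ρ e, (transportIso ρ e).isSimpleOrder_iff.mp h, fun g => ?_⟩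
  exact (LinearMap.trace_conj' (ρ g) e).symm

end Transport

section Schur

variable {G : Type u} [Group G] {V : Type v} [AddCommGroup V] [Module ℂ V]

lemma nontrivial_of_irreducible (ρ : Representation ℂ G V) (h : ρ.IsIrreducible) :
    Nontrivial V := by
  by_contra hn
  rw [not_nontrivial_iff_subsingleton] at hn
  obtain ⟨⟨a, b, hab⟩⟩ := h.toNontrivial
  apply hab
  apply Subrepresentation.toSubmodule_injective
  exact Subsingleton.elim _ _

/-- Schur: an endomorphism commuting with an irreducible representation and of trace zero is zero -/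
lemma schur_zero [FiniteDimensional ℂ V] (ρ : Representation ℂ G V) (h : ρ.IsIrreducible)
    (T : V →ₗ[ℂ] V) (hT : ∀ g v, T (ρ g v) = ρ g (T v)) (h0 : LinearMap.trace ℂ V T = 0) :
    T = 0 := by
  have hV := nontrivial_of_irreducible ρ h
  let f : IntertwiningMap ρ ρ := T.intertwiningMap_of_isIntertwiningMap ρ ρ hT
  obtain ⟨c, hc⟩ := (IsIrreducible.algebraMap_intertwiningMap_bijective_of_isAlgClosed
    (ρ := ρ) (k := ℂ)).2 f
  have hc' : T = c • (LinearMap.id : V →ₗ[ℂ] V) := by
    have := congrArg IntertwiningMap.toLinearMap hc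
    ext v
    have h2 := congrArg (fun L : V →ₗ[ℂ] V => L v) this
    exact h2.symm
  rw [hc', map_smul, LinearMap.trace_id, smul_eq_mul, mul_eq_zero] at h0
  rcases h0 with h0 | h0
  · rw [hc', h0, zero_smul]
  · exfalso
    have : 0 < Module.finrank ℂ V := Module.finrank_pos
    have h3 : (Module.finrank ℂ V : ℂ) ≠ 0 := by exact_mod_cast this.ne'
    exact h3 h0

end Schur

section Complete

variable {G : Type u} [Group G] [Fintype G]

/-- a class function orthogonal to all irreducible characters acts as zero on every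
finite-dimensional representation -/
lemma act_zero (f : G → ℂ) (hf : ∀ g h, f (h * g * h⁻¹) = f g)
    (h0 : ∀ χ : G → ℂ, IsIrrChar χ → ∑ g, f g * χ g = 0) :
    ∀ (n : ℕ) (V : Type v) [AddCommGroup V] [Module ℂ V] [FiniteDimensional ℂ V]
      (ρ : Representation ℂ G V), Module.finrank ℂ V = n → ∀ v, ∑ g, f g • ρ g v = 0 := by
  intro n
  induction n using Nat.strong_induction_on with
  | _ n ih =>
    intro V _ _ _ ρ hn v
    by_cases hV : Nontrivial V
    swap
    · rw [not_nontrivial_iff_subsingleton] at hV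
      exact Subsingleton.elim _ _
    by_cases hirr : ρ.IsIrreducible
    · -- Schur
      let T : V →ₗ[ℂ] V := ∑ g, f g • ρ g
      have hT : ∀ g v, T (ρ g v) = ρ g (T v) := by
        intro g v
        simp only [T, LinearMap.sum_apply, LinearMap.smul_apply, map_sum, map_smul]
        rw [← Equiv.sum_comp (MulAut.conj g).toEquiv]
        refine Finset.sum_congr rfl fun x _ => ?_
        have h1 : (MulAut.conj g).toEquiv x = g * x * g⁻¹ := rfl
        rw [h1, hf]
        congr 1
        rw [← Module.End.mul_apply, ← Module.End.mul_apply, ← map_mul, ← map_mul]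
        congr 2
        group
      have htr : LinearMap.trace ℂ V T = 0 := by
        simp only [T, map_sum, map_smul, smul_eq_mul]
        exact h0 _ (isIrrChar_of_irreducible ρ hirr)
      have := schur_zero ρ hirr T hT htr
      have h2 := congrArg (fun L : V →ₗ[ℂ] V => L v) this
      simpa [T] using h2
    · -- a proper subrepresentation
      have hex : ∃ S : Subrepresentation ρ, S ≠ ⊥ ∧ S ≠ ⊤ := by
        by_contra hcon
        push Not at hcon
        apply hirr
        have hnt : Nontrivial (Subrepresentation ρ) := by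
          refine ⟨⟨⊥, ⊤, ?_⟩⟩
          intro h
          have := congrArg Subrepresentation.toSubmodule h
          exact bot_ne_top this
        refine ⟨fun S => ?_⟩
        by_cases hS : S = ⊥
        · exact Or.inl hS
        · exact Or.inr (hcon S hS)
      obtain ⟨S, hS0, hS1⟩ := hex
      obtain ⟨S', hc⟩ := exists_isCompl S
      have hc' : IsCompl S.toSubmodule S'.toSubmodule := by
        constructor
        · rw [disjoint_iff]
          have := hc.disjoint.eq_bot
          exact congrArg Subrepresentation.toSubmodule this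
        · rw [codisjoint_iff]
          have := hc.codisjoint.eq_top
          exact congrArg Subrepresentation.toSubmodule this
      have hS0' : S.toSubmodule ≠ ⊥ := fun h => hS0 (Subrepresentation.toSubmodule_injective h)
      have hS1' : S.toSubmodule ≠ ⊤ := fun h => hS1 (Subrepresentation.toSubmodule_injective h)
      have hS'1 : S'.toSubmodule ≠ ⊤ := by
        intro h
        rw [h] at hc'
        exact hS0' (by simpa using hc'.disjoint.eq_bot)
      have l1 : Module.finrank ℂ S.toSubmodule < n := by
        rw [← hn]; exact Submodule.finrank_lt (lt_top_iff_ne_top.mpr hS1').ne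
      have l2 : Module.finrank ℂ S'.toSubmodule < n := by
        rw [← hn]; exact Submodule.finrank_lt (lt_top_iff_ne_top.mpr hS'1).ne
      have key : ∀ (U : Subrepresentation ρ), Module.finrank ℂ U.toSubmodule < n →
          ∀ w ∈ U.toSubmodule, ∑ g, f g • ρ g w = 0 := by
        intro U hU w hw
        have := ih _ hU U.toSubmodule U.toRepresentation rfl ⟨w, hw⟩
        have h2 := congrArg Subtype.val this
        simpa [Subrepresentation.toRepresentation] using h2
      have hv : v ∈ S.toSubmodule ⊔ S'.toSubmodule := by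
        rw [hc'.sup_eq_top]; trivial
      obtain ⟨a, ha, b, hb, rfl⟩ := Submodule.mem_sup.mp hv
      simp only [map_add, smul_add, Finset.sum_add_distrib]
      rw [key S l1 a ha, key S' l2 b hb, add_zero]

/-- completeness: a class function orthogonal to all irreducible characters vanishes -/
theorem class_fun_zero (f : G → ℂ) (hf : ∀ g h, f (h * g * h⁻¹) = f g)
    (h0 : ∀ χ : G → ℂ, IsIrrChar χ → ∑ g, f g * χ g = 0) : ∀ g, f g = 0 := by
  classical
  intro g
  -- the regular representation on functions `G → ℂ`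
  let ρ : Representation ℂ G (G → ℂ) :=
    { toFun := fun g =>
        { toFun := fun φ x => φ (g⁻¹ * x)
          map_add' := fun _ _ => rfl
          map_smul' := fun _ _ => rfl }
      map_one' := LinearMap.ext fun φ => funext fun x => by
        change φ (1⁻¹ * x) = φ x
        simp
      map_mul' := fun a b => LinearMap.ext fun φ => funext fun x => by
        change φ ((a * b)⁻¹ * x) = φ (b⁻¹ * (a⁻¹ * x))
        simp [mul_assoc] }
  have h := act_zero f hf h0 _ (G → ℂ) ρ rfl (fun x => if x = 1 then 1 else 0)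
  have h2 := congrFun h g
  simp only [Finset.sum_apply, Pi.smul_apply, smul_eq_mul, Pi.zero_apply] at h2
  have h3 : ∀ x, (ρ x) (fun x => if x = 1 then (1:ℂ) else 0) g = if x = g then 1 else 0 := by
    intro x
    change (if x⁻¹ * g = 1 then (1:ℂ) else 0) = _
    simp only [inv_mul_eq_one]
  simp only [h3] at h2
  simpa using h2

end Complete

section Orth

variable {G : Type u} [Group G]

lemma IsIrrChar.conj_inv {χ : G → ℂ} (hχ : IsIrrChar χ) (g h : G) : χ (h * g * h⁻¹) = χ g := by
  obtain ⟨n, ρ, -, h2⟩ := hχ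
  rw [h2, h2, char_conj]

/-- the dual of an irreducible representation gives the character `g ↦ χ g⁻¹` -/
lemma orth [Fintype G] {χ ψ : G → ℂ} (hχ : IsIrrChar χ) (hψ : IsIrrChar ψ) [Decidable (χ = ψ)] :
    ∑ g, χ g * ψ g⁻¹ = if χ = ψ then (Nat.card G : ℂ) else 0 := by
  classical
  obtain ⟨n, ρ, h1, h2⟩ := hχ
  obtain ⟨m, σ, h3, h4⟩ := hψ
  have hc : (Nat.card G : ℂ) ≠ 0 := by exact_mod_cast Nat.card_pos.ne'
  let _ : Invertible (Nat.card G : ℂ) := invertibleOfNonzero hc
  have e1 : χ = ρ.character := funext h2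
  have e2 : ψ = σ.character := funext h4
  have key := char_orthonormal ρ σ
  have hρρ := char_orthonormal ρ ρ
  rw [if_pos ⟨Representation.Equiv.refl ρ⟩] at hρρ
  subst e1 e2
  by_cases h : ρ.character = σ.character
  · rw [if_pos h, ← h]
    rw [inv_mul_eq_iff_eq_mul₀ hc] at hρρ
    rw [hρρ]; simp
  · rw [if_neg h]
    rw [if_neg, inv_mul_eq_iff_eq_mul₀ hc, mul_zero] at key
    · exact key
    · rintro ⟨φ⟩
      exact h (char_iso φ).symm

/-- linear independence of the irreducible characters -/
lemma irr_linearIndependent [Finite G] :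
    LinearIndependent ℂ (fun χ : {χ : G → ℂ // IsIrrChar χ} => (χ : G → ℂ)) := by
  classical
  have := Fintype.ofFinite G
  rw [linearIndependent_iff']
  intro s c hc χ hχ
  have h1 : ∑ g, (∑ ψ ∈ s, c ψ • (ψ : G → ℂ)) g * (χ : G → ℂ) g⁻¹ = 0 := by
    rw [hc]; simp
  simp only [Finset.sum_apply, Pi.smul_apply, smul_eq_mul, Finset.sum_mul] at h1
  rw [Finset.sum_comm] at h1
  have h2 : ∀ ψ ∈ s, ∑ g, c ψ * (ψ : G → ℂ) g * (χ : G → ℂ) g⁻¹ =
      if ψ = χ then c χ * (Nat.card G : ℂ) else 0 := by
    intro ψ _
    simp only [mul_assoc]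
    rw [← Finset.mul_sum, orth ψ.2 χ.2]
    by_cases h : ψ = χ
    · subst h; simp
    · rw [if_neg h, if_neg (fun h' => h (Subtype.ext h')), mul_zero]
  rw [Finset.sum_congr rfl h2, Finset.sum_ite_eq' s χ, if_pos hχ] at h1
  have hc : (Nat.card G : ℂ) ≠ 0 := by exact_mod_cast Nat.card_pos.ne'
  exact (mul_eq_zero.mp h1).resolve_right hc

instance irr_finite [Finite G] : Finite {χ : G → ℂ // IsIrrChar χ} :=
  irr_linearIndependent.finite

/-- second orthogonality relation -/
theorem orth2 [Fintype G] [Fintype {χ : G → ℂ // IsIrrChar χ}] (g h : G) :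
    ∑ χ : {χ : G → ℂ // IsIrrChar χ}, (χ : G → ℂ) g * (χ : G → ℂ) h⁻¹ =
      (Nat.card {u : G // u * h * u⁻¹ = g} : ℂ) := by
  classical
  let F : G → ℂ := fun g => (Nat.card {u : G // u * h * u⁻¹ = g} : ℂ) -
    ∑ χ : {χ : G → ℂ // IsIrrChar χ}, (χ : G → ℂ) g * (χ : G → ℂ) h⁻¹
  have hcard : ∀ g, (Nat.card {u : G // u * h * u⁻¹ = g} : ℂ) =
      ∑ u : G, if u * h * u⁻¹ = g then (1 : ℂ) else 0 := by
    intro g
    rw [Nat.card_eq_fintype_card, Fintype.card_subtype, Finset.sum_boole]
  have hF : ∀ g, F g⁻¹ = 0 := by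
    apply class_fun_zero (fun g => F g⁻¹)
    · intro g w
      simp only [F, mul_inv_rev, inv_inv, ← mul_assoc]
      congr 1
      · norm_cast
        refine Nat.card_congr ⟨fun u => ⟨w⁻¹ * u.1, ?_⟩, fun u => ⟨w * u.1, ?_⟩, ?_, ?_⟩
        · have := u.2
          calc w⁻¹ * u.1 * h * (w⁻¹ * u.1)⁻¹ = w⁻¹ * (u.1 * h * (u.1)⁻¹) * w := by group
            _ = g⁻¹ := by rw [this]; group
        · have := u.2
          calc w * u.1 * h * (w * u.1)⁻¹ = w * (u.1 * h * (u.1)⁻¹) * w⁻¹ := by group
            _ = w * g⁻¹ * w⁻¹ := by rw [this]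
        · intro u; ext; simp
        · intro u; ext; simp
      · refine Finset.sum_congr rfl fun χ _ => ?_
        rw [χ.2.conj_inv]
    · intro ψ hψ
      have h1 : ∑ g, F g⁻¹ * ψ g = ∑ g, F g * ψ g⁻¹ := by
        rw [← Equiv.sum_comp (Equiv.inv G)]
        simp
      rw [h1]
      simp only [F, sub_mul, Finset.sum_sub_distrib, hcard, Finset.sum_mul]
      rw [Finset.sum_comm, Finset.sum_comm (s := Finset.univ (α := G))
        (t := Finset.univ (α := {χ : G → ℂ // IsIrrChar χ}))]
      have h2 : ∀ u : G, ∑ x : G, (if u * h * u⁻¹ = x then (1:ℂ) else 0) * ψ x⁻¹ = ψ h⁻¹ := by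
        intro u
        simp only [ite_mul, one_mul, zero_mul, Finset.sum_ite_eq, Finset.mem_univ, if_true]
        have : (u * h * u⁻¹)⁻¹ = u * h⁻¹ * u⁻¹ := by group
        rw [this, hψ.conj_inv]
      have h3 : ∀ χ : {χ : G → ℂ // IsIrrChar χ}, ∑ x : G, (χ : G → ℂ) x * (χ : G → ℂ) h⁻¹ * ψ x⁻¹ =
          if χ = ⟨ψ, hψ⟩ then (Nat.card G : ℂ) * ψ h⁻¹ else 0 := by
        intro χ
        have h4 : ∀ x : G, (χ : G → ℂ) x * (χ : G → ℂ) h⁻¹ * ψ x⁻¹ =
          (χ : G → ℂ) h⁻¹ * ((χ : G → ℂ) x * ψ x⁻¹) := fun x => by ring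
        simp only [h4]
        rw [← Finset.mul_sum, orth χ.2 hψ]
        by_cases h : χ = ⟨ψ, hψ⟩
        · subst h; simp; ring
        · rw [if_neg h, if_neg (fun h' => h (Subtype.ext h')), mul_zero]
      simp only [h2, h3]
      simp
  have := hF g⁻¹
  simp only [F, inv_inv] at this
  exact (sub_eq_zero.mp this).symm

/-- irreducible characters separate conjugacy classes -/
theorem conj_of_char_eq [Finite G] {g h : G} (H : ∀ χ : G → ℂ, IsIrrChar χ → χ g = χ h) :
    ∃ u, u * h * u⁻¹ = g := by
  classical
  have := Fintype.ofFinite G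
  have := Fintype.ofFinite {χ : G → ℂ // IsIrrChar χ}
  have h1 := orth2 g h
  have h2 := orth2 h h
  have h3 : (Nat.card {u : G // u * h * u⁻¹ = g} : ℂ) = (Nat.card {u : G // u * h * u⁻¹ = h} : ℂ) := by
    rw [← h1, ← h2]
    exact Finset.sum_congr rfl fun χ _ => by rw [H χ.1 χ.2]
  have h4 : Nat.card {u : G // u * h * u⁻¹ = g} = Nat.card {u : G // u * h * u⁻¹ = h} := by
    exact_mod_cast h3
  have h5 : 0 < Nat.card {u : G // u * h * u⁻¹ = h} := by
    have : Nonempty {u : G // u * h * u⁻¹ = h} := ⟨⟨1, by simp⟩⟩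
    exact Nat.card_pos
  rw [← h4] at h5
  obtain ⟨⟨u, hu⟩⟩ := (Nat.card_pos_iff.mp h5).1
  exact ⟨u, hu⟩

end Orth

end HallTab
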