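import Pool.Agent.Work.MP_15bafc_al.Lift

/-!
# The class `𝒵` and Z-groups
-/

set_option linter.unusedSectionVars false

namespace HallTab

open Subgroup
open scoped Pointwise

universe u v

section Corr

variable {G : Type u} [Group G] [Finite G]

lemma isHall_top_iff {π : Set ℕ} {H : Subgroup G} : IsHall π H ⊤ ↔ IsHallSubgroup π H := by
  rw [IsHall, IsHallSubgroup, relIndex_top_right]
  constructor
  · rintro ⟨-, h1, h2⟩
    exact ⟨h1, fun p hp hd hpπ => h2 p hpπ hp hd⟩
  · rintro ⟨h1, h2⟩
    exact ⟨le_top, h1, fun p hpπ hp hd => h2 p hp hd hpπ⟩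

lemma rhall_bot_iff {π : Set ℕ} {H : Subgroup G} : RHall π ⊥ H ⊤ ↔ IsHallSubgroup π H := by
  rw [RHall, IsHallSubgroup, relIndex_top_right, relIndex_bot_left]
  constructor
  · rintro ⟨-, -, h1, h2⟩
    exact ⟨h1, h2⟩
  · rintro ⟨h1, h2⟩
    exact ⟨bot_le, le_top, h1, h2⟩

variable (N : Subgroup G) [N.Normal]

lemma relIndex_comap_mk (Hb : Subgroup (G ⧸ N)) :
    N.relIndex (Hb.comap (QuotientGroup.mk' N)) = Nat.card Hb := by
  set f := QuotientGroup.mk' N
  have hfs : Function.Surjective f := QuotientGroup.mk'_surjective N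
  have h1 : N ≤ Hb.comap f := by
    have := MonoidHom.ker_le_comap f Hb
    rwa [QuotientGroup.ker_mk'] at this
  have h2 := relIndex_mul_index h1
  have h3 : (Hb.comap f).index = Hb.index := index_comap_of_surjective Hb hfs
  have h4 : Nat.card Hb * Hb.index = N.index := Hb.card_mul_index
  rw [h3, ← h4] at h2
  exact Nat.eq_of_mul_eq_mul_right (Nat.pos_of_dvd_of_pos Hb.index_dvd_card Nat.card_pos) h2

lemma rhall_comap {π : Set ℕ} {Hb : Subgroup (G ⧸ N)} (h : IsHallSubgroup π Hb) :
    RHall π N (Hb.comap (QuotientGroup.mk' N)) ⊤ := by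
  refine ⟨?_, le_top, ?_, ?_⟩
  · have := MonoidHom.ker_le_comap (QuotientGroup.mk' N) Hb
    rwa [QuotientGroup.ker_mk'] at this
  · rw [relIndex_comap_mk]; exact h.1
  · rw [relIndex_top_right, index_comap_of_surjective Hb (QuotientGroup.mk'_surjective N)]
    exact h.2

lemma isHall_map {π : Set ℕ} {H : Subgroup G} (h : RHall π N H ⊤) :
    IsHallSubgroup π (H.map (QuotientGroup.mk' N)) := by
  have h1 : (H.map (QuotientGroup.mk' N)).comap (QuotientGroup.mk' N) = H := by
    rw [QuotientGroup.comap_map_mk', sup_eq_right.mpr h.1]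
  constructor
  · have := relIndex_comap_mk N (H.map (QuotientGroup.mk' N))
    rw [h1] at this
    rw [← this]; exact h.2.2.1
  · have := index_comap_of_surjective (H.map (QuotientGroup.mk' N))
      (QuotientGroup.mk'_surjective N)
    rw [h1] at this
    rw [← this, ← relIndex_top_right]; exact h.2.2.2

lemma HasHall.quot {π : Set ℕ} (h : HasHall π G) : HasHall π (G ⧸ N) := by
  obtain ⟨H, h1, h2⟩ := h
  refine ⟨H.map (QuotientGroup.mk' N), ?_, ?_⟩
  · intro p hp hd
    exact h1 p hp (hd.trans (Subgroup.card_map_dvd _ _))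
  · intro p hp hd
    exact h2 p hp (hd.trans (index_map_dvd H (QuotientGroup.mk'_surjective N)))

end Corr

section Conv

variable {G : Type u} [Group G] [Finite G]

lemma isEl_of_pow {p k : ℕ} (hp : p.Prime) {h : G} (hk : h ^ p ^ k = 1) : IsEl {p} h := by
  intro r hr hrd
  have h1 := hrd.trans (orderOf_dvd_of_pow_eq_one hk)
  exact (Nat.prime_dvd_prime_iff_eq hr hp).mp (hr.dvd_of_dvd_pow h1)

lemma exists_pow_of_isEl {p : ℕ} (hp : p.Prime) {h : G} (hh : IsEl {p} h) :
    ∃ k, h ^ p ^ k = 1 := by
  have := Fact.mk hp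
  have h1 : IsPGroup p (zpowers h) := by
    apply isPGroup_of_card
    intro r hr hrd
    rw [Nat.card_zpowers] at hrd
    exact hh r hr hrd
  obtain ⟨k, hk⟩ := IsPGroup.iff_card.mp h1
  rw [Nat.card_zpowers] at hk
  exact ⟨k, by rw [← hk, pow_orderOf_eq_one]⟩

/-- from the class to the elementwise structure -/
lemma classZ_iff (H : Subgroup G) : ClassZ H ↔ ∃ (q : ℕ) (z : G), ZType q z H := by
  constructor
  · rintro ⟨Z, hZn, hZc, ⟨q, k, hq, hqk⟩, hcent⟩
    obtain ⟨⟨z0, hz0⟩, hgen⟩ := hZc.exists_generator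
    have hZ : Z = zpowers z0 := by
      ext w
      constructor
      · intro hw
        obtain ⟨n, hn⟩ := mem_zpowers_iff.mp (hgen ⟨w, hw⟩)
        rw [mem_zpowers_iff]
        exact ⟨n, congrArg Subtype.val hn⟩
      · intro hw
        obtain ⟨n, rfl⟩ := mem_zpowers_iff.mp hw
        exact Z.zpow_mem hz0 n
    have hzp : (zpowers z0).map H.subtype = zpowers (z0 : G) := by
      rw [MonoidHom.map_zpowers]; rfl
    refine ⟨q, (z0 : G), hq, z0.2, ?_, ?_, ?_⟩
    · intro h hh
      have h1 : (⟨h, hh⟩ : H) * z0 * (⟨h, hh⟩ : H)⁻¹ ∈ Z := hZn.conj_mem z0 hz0 ⟨h, hh⟩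
      rw [hZ] at h1
      rw [← hzp]
      exact ⟨_, h1, rfl⟩
    · intro r hr hrq hrd
      have h1 : (centralizer (Z : Set H)).map H.subtype = H ⊓ centralizer {(z0 : G)} := by
        ext w
        constructor
        · rintro ⟨v, hv, rfl⟩
          refine ⟨v.2, ?_⟩
          have h2 : z0 * v = v * z0 := mem_centralizer_iff.mp hv z0 hz0
          apply mem_centralizer_singleton_iff.mpr
          exact (congrArg Subtype.val h2).symm
        · rintro ⟨hw, hw2⟩
          refine ⟨⟨w, hw⟩, ?_, rfl⟩
          rw [SetLike.mem_coe, mem_centralizer_iff]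
          intro y hy
          rw [SetLike.mem_coe, hZ] at hy
          obtain ⟨n, rfl⟩ := mem_zpowers_iff.mp hy
          have h3 : Commute w (z0 : G) := mem_centralizer_singleton_iff.mp hw2
          apply Subtype.ext
          have h4 := (h3.zpow_right n).eq
          simpa using h4.symm
      have h2 : (zpowers (z0 : G)).relIndex (H ⊓ centralizer {(z0 : G)}) =
          Z.relIndex (centralizer (Z : Set H)) := by
        rw [← h1, ← hzp, relIndex_map_map_of_injective _ _ H.subtype_injective, hZ]
      rw [h2, hqk] at hrd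
      exact hrq ((Nat.prime_dvd_prime_iff_eq hr hq).mp (hr.dvd_of_dvd_pow hrd))
    · intro p hp h hh hel hw
      obtain ⟨k, hk⟩ := exists_pow_of_isEl hp hel
      have h1 := hcent p hp ⟨h, hh⟩ ⟨k, Subtype.ext hk⟩ (by
        intro w hwZ hpw
        have h2 : (w : G) ∈ zpowers (z0 : G) := by
          rw [← hzp]; rw [hZ] at hwZ; exact ⟨w, hwZ, rfl⟩
        have h3 := hw (w : G) h2 (by rwa [Subgroup.orderOf_coe])
        exact Subtype.ext h3) z0 hz0
      exact congrArg Subtype.val h1
  · rintro ⟨q, z, hZ⟩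
    set z0 : H := ⟨z, hZ.mem⟩ with hz0
    have hzp : (zpowers z0).map H.subtype = zpowers z := by
      rw [MonoidHom.map_zpowers]; rfl
    refine ⟨zpowers z0, ?_, inferInstance, ?_, ?_⟩
    · refine ⟨fun w hw h => ?_⟩
      have h1 := le_normalizer_iff.mp (norm_zpowers_iff.mpr hZ.norm) h h.2 w
        (by rw [← hzp]; exact ⟨w, hw, rfl⟩)
      rw [← hzp] at h1
      obtain ⟨v, hv, hve⟩ := h1
      have : v = h * w * h⁻¹ := Subtype.ext hve
      rw [← this]; exact hv
    · have h1 : (centralizer (zpowers z0 : Set H)).map H.subtype = H ⊓ centralizer {z} := by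
        ext w
        constructor
        · rintro ⟨v, hv, rfl⟩
          refine ⟨v.2, ?_⟩
          have h2 : z0 * v = v * z0 := mem_centralizer_iff.mp hv z0 (mem_zpowers z0)
          apply mem_centralizer_singleton_iff.mpr
          exact (congrArg Subtype.val h2).symm
        · rintro ⟨hw, hw2⟩
          refine ⟨⟨w, hw⟩, ?_, rfl⟩
          rw [SetLike.mem_coe, mem_centralizer_iff]
          intro y hy
          obtain ⟨n, rfl⟩ := mem_zpowers_iff.mp hy
          have h3 : Commute w z := mem_centralizer_singleton_iff.mp hw2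
          apply Subtype.ext
          have h4 := (h3.zpow_right n).eq
          simpa [hz0] using h4.symm
      have h2 : (zpowers z).relIndex (H ⊓ centralizer {z}) =
          (zpowers z0).relIndex (centralizer (zpowers z0 : Set H)) := by
        rw [← h1, ← hzp, relIndex_map_map_of_injective _ _ H.subtype_injective]
      have h3 := Nat.eq_prime_pow_of_unique_prime_dvd (p := q)
        (relIndex_pos' (zpowers z) (H ⊓ centralizer {z})).ne' fun {r} hr hd => by
          by_contra hne
          exact hZ.quot r hr hne hd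
      rw [h2] at h3
      exact ⟨q, _, hZ.hq, h3⟩
    · rintro p hp h ⟨k, hk⟩ hw w hwz
      have h1 : Commute (h : G) z := by
        apply hZ.cent p hp h h.2 (isEl_of_pow hp (k := k) (by
          have := congrArg Subtype.val hk
          simpa using this))
        intro y hy hpy
        rw [← hzp] at hy
        obtain ⟨v, hv, rfl⟩ := hy
        have h2 := hw v hv (by
          rw [← Subgroup.orderOf_coe]; exact hpy)
        exact congrArg Subtype.val h2
      obtain ⟨n, rfl⟩ := mem_zpowers_iff.mp hwz
      apply Subtype.ext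
      have h4 := (h1.zpow_right n).eq
      simpa [hz0] using h4

end Conv

end HallTab
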