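import Mathlib

/-!
# Character tables and Hall subgroups: the definitions used in the statements
-/

namespace HallTab

universe u v

/-- `χ` is an irreducible complex character of `G`: the trace function of an irreducible
representation of `G` on `ℂⁿ` for some `n`. -/
def IsIrrChar {G : Type u} [Group G] (χ : G → ℂ) : Prop :=
  ∃ (n : ℕ) (ρ : Representation ℂ G (Fin n → ℂ)), ρ.IsIrreducible ∧ ∀ g, χ g = ρ.character g

/-- the irreducible complex characters of `G` -/
abbrev Irr (G : Type u) [Group G] := {χ : G → ℂ // IsIrrChar χ}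

/-- `G` and `K` have the same character table: there are bijections `χ ↦ χ'` of the irreducible
characters and `C ↦ C'` of the conjugacy classes with `χ'(C') = χ(C)` for all `χ` and `C` -/
def SameTable (G : Type u) (K : Type v) [Group G] [Group K] : Prop :=
  ∃ (Φ : Irr G ≃ Irr K) (Ψ : ConjClasses G ≃ ConjClasses K),
    ∀ (χ : Irr G) (g : G) (k : K), Ψ (ConjClasses.mk g) = ConjClasses.mk k → (Φ χ).1 k = χ.1 g

/-- `n` is a `π`-number -/
def PiNum (π : Set ℕ) (n : ℕ) : Prop := ∀ p, p.Prime → p ∣ n → p ∈ π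

/-- `n` is a `π'`-number -/
def PiNum' (π : Set ℕ) (n : ℕ) : Prop := ∀ p, p.Prime → p ∣ n → p ∉ π

/-- `H` is a Hall `π`-subgroup of `G`: `|H|` is a `π`-number and `|G : H|` is a `π'`-number -/
def IsHallSubgroup {G : Type u} [Group G] (π : Set ℕ) (H : Subgroup G) : Prop :=
  PiNum π (Nat.card H) ∧ PiNum' π H.index

/-- `G` has a Hall `π`-subgroup -/
def HasHall (π : Set ℕ) (G : Type u) [Group G] : Prop := ∃ H : Subgroup G, IsHallSubgroup π H

/-- the class `𝒵`: groups `H` with a normal cyclic subgroup `Z` such that `|C_H(Z) : Z|` is a prime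
power and, for every prime `p`, every `p`-element of `H` which commutes with all `p'`-elements of
`Z` commutes with all elements of `Z` -/
def ClassZ (H : Type u) [Group H] : Prop :=
  ∃ Z : Subgroup H, Z.Normal ∧ IsCyclic Z ∧
    (∃ q k : ℕ, q.Prime ∧ Z.relIndex (Subgroup.centralizer (Z : Set H)) = q ^ k) ∧
    ∀ p : ℕ, p.Prime → ∀ h : H, (∃ k : ℕ, h ^ p ^ k = 1) →
      (∀ z ∈ Z, ¬ p ∣ orderOf z → h * z = z * h) → ∀ z ∈ Z, h * z = z * h

/-- a normal subgroup with a series of normal subgroups of `G` each of whose factors is a `π`-group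
or has order divisible by at most one prime of `π`; all normal `π`-separable subgroups are of this
kind -/
inductive PiLayered {G : Type u} [Group G] (π : Set ℕ) : Subgroup G → Prop
  | bot : PiLayered π ⊥
  | step (M N : Subgroup G) : PiLayered π M → N.Normal → M ≤ N →
      (PiNum π (M.relIndex N) ∨ ∃ q : ℕ, ∀ p, p.Prime → p ∣ M.relIndex N → p ∈ π → p = q) →
      PiLayered π N

/-- modulo some normal subgroup as in `PiLayered`, `G` has a Hall `π`-subgroup in the class `𝒵` -/
def HasHallZ (π : Set ℕ) (G : Type u) [Group G] : Prop :=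
  ∃ (N : Subgroup G) (_ : N.Normal), PiLayered π N ∧
    ∃ H : Subgroup (G ⧸ N), IsHallSubgroup π H ∧ ClassZ H

/-- the Sylow `p`-subgroups of `G / N` are cyclic for all primes `p ∈ π` -/
def CyclicAbove (π : Set ℕ) {G : Type u} [Group G] (N : Subgroup G) [N.Normal] : Prop :=
  ∀ p, p.Prime → p ∈ π → ∀ P : Sylow p (G ⧸ N), IsCyclic P

end HallTab
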