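import Pool.Agent.Work.MP_15bafc_al.XType

/-!
# Transfer of Hall subgroups along class data on `π`-elements
-/

set_option linter.unusedSectionVars false

namespace HallTab

open Subgroup
open scoped Pointwise

universe u v

/-- `g` is a `π`-element -/
def IsEl {G : Type u} [Group G] (π : Set ℕ) (g : G) : Prop := ∀ p, p.Prime → p ∣ orderOf g → p ∈ π

/-- `g ^ e` is a generator of a Hall part of `⟨g⟩` whenever `g ^ n = 1` -/
def HallExp (n e : ℕ) : Prop := ∀ q, q.Prime → q ∣ n → q ∣ e → ordProj[q] n ∣ e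

/-- class data on `π`-elements shared by the groups `M` and `M'` -/
structure HData {G : Type u} {K : Type v} [Group G] [Group K] (π : Set ℕ) (n : ℕ)
    (M : Subgroup G) (M' : Subgroup K) (R : G → K → Prop) : Prop where
  npos : 0 < n
  expG : ∀ g ∈ M, g ^ n = 1
  expK : ∀ k ∈ M', k ^ n = 1
  memG : ∀ {g k}, R g k → g ∈ M
  memK : ∀ {g k}, R g k → k ∈ M'
  elG : ∀ {g k}, R g k → IsEl π g
  elK : ∀ {g k}, R g k → IsEl π k
  totG : ∀ g ∈ M, IsEl π g → ∃ k, R g k
  totK : ∀ k ∈ M', IsEl π k → ∃ g, R g k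
  one : R 1 1
  conj : ∀ {g k g' k'}, R g k → R g' k' →
    ((∃ m ∈ M, m * g * m⁻¹ = g') ↔ (∃ m ∈ M', m * k * m⁻¹ = k'))
  cjG : ∀ {g k m}, R g k → m ∈ M → R (m * g * m⁻¹) k
  cjK : ∀ {g k m}, R g k → m ∈ M' → R g (m * k * m⁻¹)
  cent : ∀ {g k}, R g k → ∀ p ∈ π, p.Prime →
    (Nat.card ↥(M ⊓ centralizer {g})).factorization p =
      (Nat.card ↥(M' ⊓ centralizer {k})).factorization p
  pow : ∀ {g k e}, R g k → HallExp n e → R (g ^ e) (k ^ e)

/-! ### exponents -/

lemma exists_exp {p n : ℕ} (hp : p.Prime) (hn : 0 < n) (a b : ℕ) :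
    ∃ e, e ≡ a [MOD ordProj[p] n] ∧ e ≡ b [MOD ordCompl[p] n] := by
  have h : Nat.Coprime (ordProj[p] n) (ordCompl[p] n) :=
    Nat.Coprime.pow_left _ (Nat.coprime_ordCompl hp hn.ne')
  obtain ⟨e, he⟩ := Nat.chineseRemainder h a b
  exact ⟨e, he⟩

lemma hallExp_of {p n e a b : ℕ} (hp : p.Prime) (hn : 0 < n) (ha : e ≡ a [MOD ordProj[p] n])
    (hb : e ≡ b [MOD ordCompl[p] n]) (ha' : a = 0 ∨ ¬ p ∣ a)
    (hb' : HallExp n b) : HallExp n e := by
  intro q hq hqn hqe
  by_cases hqp : q = p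
  · subst hqp
    rcases ha' with rfl | ha'
    · exact (Nat.modEq_zero_iff_dvd).mp ha
    · exfalso
      apply ha'
      have h1 : q ∣ ordProj[q] n := by
        apply dvd_pow_self
        exact (hq.factorization_pos_of_dvd hn.ne' hqn).ne'
      exact (ha.dvd_iff h1).mp hqe
  · have h1 : ordProj[q] n ∣ ordCompl[p] n := by
      have h2 : ordProj[q] n ∣ ordProj[p] n * ordCompl[p] n := by
        rw [Nat.ordProj_mul_ordCompl_eq_self]; exact Nat.ordProj_dvd n q
      refine Nat.Coprime.dvd_of_dvd_mul_left ?_ h2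
      exact Nat.Coprime.pow _ _ ((Nat.coprime_primes hq hp).mpr hqp)
    have h3 : q ∣ ordProj[q] n := by
      apply dvd_pow_self
      exact (hq.factorization_pos_of_dvd hn.ne' hqn).ne'
    have h4 : q ∣ b := (hb.dvd_iff (h3.trans h1)).mp hqe
    exact (hb.dvd_iff h1).mpr (hb' q hq hqn h4)

lemma hallExp_zero (n : ℕ) : HallExp n 0 := fun _ _ _ _ => dvd_zero _

lemma hallExp_one (n : ℕ) : HallExp n 1 := fun _ hq _ h =>
  absurd (Nat.dvd_one.mp h) hq.one_lt.ne'

section Elem

variable {G : Type u} [Group G]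

lemma pow_of_modEq {g : G} {m a b : ℕ} (hg : g ^ m = 1) (h : a ≡ b [MOD m]) : g ^ a = g ^ b :=
  pow_eq_pow_iff_modEq.mpr (h.of_dvd (orderOf_dvd_of_pow_eq_one hg))

lemma IsEl.one (π : Set ℕ) : IsEl π (1 : G) := by
  intro p hp hd
  rw [orderOf_one] at hd
  exact absurd (Nat.dvd_one.mp hd) hp.one_lt.ne'

lemma IsEl.of_dvd {π : Set ℕ} {H : Type*} [Group H] {g : G} {h : H} (hg : IsEl π g)
    (hd : orderOf h ∣ orderOf g) : IsEl π h := fun p hp hpd => hg p hp (hpd.trans hd)

/-- an element whose order is prime to `p` is killed by the `p'`-part of the exponent -/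
lemma pow_ordCompl {p n : ℕ} (hp : p.Prime) {g : G} (hg : g ^ n = 1)
    (hpg : ¬ p ∣ orderOf g) : g ^ (ordCompl[p] n) = 1 := by
  apply orderOf_dvd_iff_pow_eq_one.mp
  have h1 : orderOf g ∣ n := orderOf_dvd_of_pow_eq_one hg
  rw [← Nat.ordProj_mul_ordCompl_eq_self n p] at h1
  refine Nat.Coprime.dvd_of_dvd_mul_left ?_ h1
  exact (Nat.Coprime.pow_left _ ((Nat.Prime.coprime_iff_not_dvd hp).mpr hpg)).symm

/-- a `p`-element is killed by the `p`-part of the exponent -/
lemma pow_ordProj {p n : ℕ} (hn : 0 < n) {g : G} (hg : g ^ n = 1)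
    (hpg : IsEl {p} g) : g ^ (ordProj[p] n) = 1 := by
  apply orderOf_dvd_iff_pow_eq_one.mp
  have h1 : orderOf g ∣ n := orderOf_dvd_of_pow_eq_one hg
  rw [← Nat.ordProj_mul_ordCompl_eq_self n p] at h1
  refine Nat.Coprime.dvd_of_dvd_mul_right ?_ h1
  apply Nat.Coprime.symm
  rw [Nat.coprime_iff_gcd_eq_one]
  by_contra hne
  obtain ⟨r, hr, hrd⟩ := Nat.exists_prime_and_dvd hne
  have h2 := hpg r hr (hrd.trans (Nat.gcd_dvd_right _ _))
  rw [Set.mem_singleton_iff] at h2
  subst h2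
  exact Nat.not_dvd_ordCompl hr hn.ne' (hrd.trans (Nat.gcd_dvd_left _ _))

end Elem


section Index

variable {G : Type u} [Group G] [Finite G]

/-- the number of conjugates of `x` in `⟨x⟩` is the index of the centraliser in the normaliser -/
lemma relIndex_cent_norm {M : Subgroup G} {x : G} :
    (M ⊓ centralizer ({x} : Set G)).relIndex (M ⊓ normalizer (zpowers x : Set G)) =
      Set.ncard {j : ℕ | j < orderOf x ∧ ∃ m ∈ M, m * x * m⁻¹ = x ^ j} := by
  set N := M ⊓ normalizer (zpowers x : Set G) with hN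
  set C := M ⊓ centralizer ({x} : Set G) with hC
  let _ : MulAction N G := MulAction.compHom G ((MulAut.conj : G →* MulAut G).comp N.subtype)
  have hact : ∀ (m : N) (y : G), m • y = (m : G) * y * (m : G)⁻¹ := fun m y => rfl
  have h1 := MulAction.index_stabilizer N x
  have h2 : MulAction.stabilizer N x = C.subgroupOf N := by
    ext m
    rw [MulAction.mem_stabilizer_iff, mem_subgroupOf, hact, hC, mem_inf,
      mem_centralizer_singleton_iff, mul_inv_eq_iff_eq_mul]
    exact ⟨fun h => ⟨m.2.1, h⟩, fun h => h.2⟩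
  rw [relIndex, ← h2, h1]
  symm
  apply Set.ncard_congr (fun j _ => x ^ j)
  · rintro j ⟨hj, m, hm, hmx⟩
    have hmN : m ∈ N := by
      refine ⟨hm, ?_⟩
      -- powers of `m` also normalise
      have h3 : zpowers m ≤ normalizer (zpowers x : Set G) := by
        rw [norm_zpowers_iff]
        intro t ht
        obtain ⟨n, hn⟩ := (isOfFinOrder_of_finite m).mem_powers_iff_mem_zpowers.mpr ht
        simp only at hn
        rw [← hn]
        clear hn
        induction n with
        | zero => simp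
        | succ n ih =>
          obtain ⟨s, hs⟩ := mem_zpowers_iff.mp ih
          have e : m ^ (n + 1) * x * (m ^ (n + 1))⁻¹ = m * (m ^ n * x * (m ^ n)⁻¹) * m⁻¹ := by
            rw [pow_succ']; simp only [mul_assoc, mul_inv_rev]
          rw [e, ← hs, ← conj_zpow, hmx]
          exact zpow_mem (npow_mem_zpowers x j) s
      exact h3 (mem_zpowers m)
    exact ⟨⟨m, hmN⟩, hmx⟩
  · intro i j hi hj hij
    exact pow_injOn_Iio_orderOf hi.1 hj.1 hij
  · rintro y ⟨m, rfl⟩
    simp only [hact]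
    have h3 : (m : G) * x * (m : G)⁻¹ ∈ zpowers x :=
      ((mem_normalizer_iff.mp m.2.2) x).mp (mem_zpowers x)
    obtain ⟨j, hj⟩ := (isOfFinOrder_of_finite x).mem_powers_iff_mem_zpowers.mpr h3
    simp only at hj
    refine ⟨j % orderOf x, ⟨Nat.mod_lt _ (orderOf_pos x), m, m.2.1, ?_⟩, ?_⟩
    · rw [pow_mod_orderOf, hj]
    · rw [pow_mod_orderOf, hj]

/-- an element of `M` acting on a cyclic Sylow `p`-subgroup as `x ↦ x ^ (1 + p ^ b)` with
`b ≥ 1` centralises it -/
lemma no_wild {M : Subgroup G} {x : G} {p b : ℕ} (hp : p.Prime) (hP : IsHall {p} (zpowers x) M)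
    {m : G} (hm : m ∈ M) (hb : 1 ≤ b) (h : m * x * m⁻¹ = x ^ (1 + p ^ b)) :
    orderOf x ∣ p ^ b := by
  have hpow : ∀ t : ℕ, m ^ t * x * (m ^ t)⁻¹ = x ^ ((1 + p ^ b) ^ t) := by
    intro t
    induction t with
    | zero => simp
    | succ t ih =>
      have e : m ^ (t + 1) * x * (m ^ (t + 1))⁻¹ = m ^ t * (m * x * m⁻¹) * (m ^ t)⁻¹ := by
        rw [pow_succ]; simp only [mul_assoc, mul_inv_rev]
      rw [e, h, ← conj_pow, ih, ← pow_mul, ← pow_succ]
  set t := ordCompl[p] (orderOf m) with ht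
  have hm0 : orderOf m ≠ 0 := (orderOf_pos m).ne'
  have hmt : (m ^ t) ^ (ordProj[p] (orderOf m)) = 1 := by
    rw [← pow_mul, mul_comm, ht, Nat.ordProj_mul_ordCompl_eq_self, pow_orderOf_eq_one]
  have hptj : ¬ p ∣ t := Nat.not_dvd_ordCompl hp hm0
  -- `m ^ t` lies in `⟨x⟩`
  have hfact := Fact.mk hp
  have hzp : IsPGroup p (zpowers x) := isPGroup_of_card hP.2.1
  have hmp : IsPGroup p (zpowers (m ^ t)) := by
    apply IsPGroup.of_card_dvd_pow (n := (orderOf m).factorization p)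
    rw [Nat.card_zpowers]
    exact orderOf_dvd_of_pow_eq_one hmt
  have hnorm : zpowers (m ^ t) ≤ normalizer (zpowers x : Set G) := by
    rw [norm_zpowers_iff]
    intro y hy
    obtain ⟨n, hn⟩ := (isOfFinOrder_of_finite (m ^ t)).mem_powers_iff_mem_zpowers.mpr hy
    simp only at hn
    rw [← hn, ← pow_mul, hpow]
    exact npow_mem_zpowers x _
  have hsup : IsPGroup p ↥(zpowers (m ^ t) ⊔ zpowers x) :=
    hmp.to_sup_of_normal_right' hzp hnorm
  have hle : zpowers (m ^ t) ⊔ zpowers x ≤ M := by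
    refine sup_le ?_ hP.1
    rw [zpowers_le]; exact M.pow_mem hm t
  have heq := hP.eq_of_le (le_sup_right : zpowers x ≤ zpowers (m ^ t) ⊔ zpowers x) hle
    (card_of_isPGroup hp hsup)
  have hmem : m ^ t ∈ zpowers x := by
    rw [heq]; exact (le_sup_left : zpowers (m ^ t) ≤ _) (mem_zpowers _)
  have hcomm : m ^ t * x * (m ^ t)⁻¹ = x := by
    obtain ⟨k, hk⟩ := mem_zpowers_iff.mp hmem
    rw [← hk]
    have : Commute (x ^ k) x := (Commute.refl x).zpow_left k
    rw [this.eq, mul_inv_cancel_right]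
  rw [hpow] at hcomm
  -- arithmetic
  obtain ⟨a, ha⟩ : ∃ a, orderOf x = p ^ a := by
    obtain ⟨a, ha⟩ := IsPGroup.iff_card.mp hzp
    rw [Nat.card_zpowers] at ha
    exact ⟨a, ha⟩
  rw [ha]
  apply pow_dvd_pow
  by_contra hlt
  push Not at hlt
  have h1 : (1 + p ^ b) ^ t ≡ 1 [MOD p ^ a] := by
    rw [← ha]
    apply pow_eq_pow_iff_modEq.mp
    rw [hcomm, pow_one]
  have h2 : (1 + p ^ b) ^ t ≡ 1 [MOD p ^ (b + 1)] := h1.of_dvd (pow_dvd_pow p hlt)
  have h3 : ∀ s : ℕ, (1 + p ^ b) ^ s ≡ 1 + s * p ^ b [MOD p ^ (b + 1)] := by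
    intro s
    induction s with
    | zero => simp [Nat.ModEq]
    | succ s ih =>
      have h4 : p ^ b * p ^ b ≡ 0 [MOD p ^ (b + 1)] := by
        rw [Nat.modEq_zero_iff_dvd, ← pow_add]
        exact pow_dvd_pow p (by omega)
      calc (1 + p ^ b) ^ (s + 1) = (1 + p ^ b) ^ s * (1 + p ^ b) := pow_succ _ _
        _ ≡ (1 + s * p ^ b) * (1 + p ^ b) [MOD p ^ (b + 1)] := ih.mul_right _
        _ = 1 + (s + 1) * p ^ b + s * (p ^ b * p ^ b) := by ring
        _ ≡ 1 + (s + 1) * p ^ b + s * 0 [MOD p ^ (b + 1)] := (h4.mul_left s).add_left _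
        _ = 1 + (s + 1) * p ^ b := by ring
  have h5 : 1 + t * p ^ b ≡ 1 + 0 [MOD p ^ (b + 1)] := (h3 t).symm.trans h2
  have h6 : t * p ^ b ≡ 0 [MOD p ^ (b + 1)] := Nat.ModEq.add_left_cancel' 1 h5
  rw [Nat.modEq_zero_iff_dvd, pow_succ, mul_comm (p ^ b) p] at h6
  have h7 : p ∣ t := Nat.dvd_of_mul_dvd_mul_right (pow_pos hp.pos b) h6
  exact hptj h7

end Index


section Main

variable {G : Type u} {K : Type v} [Group G] [Group K] [Finite G] [Finite K]

namespace HData

variable {π : Set ℕ} {n : ℕ} {M : Subgroup G} {M' : Subgroup K} {R : G → K → Prop}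

/-- the reversed data -/
lemma symm (D : HData π n M M' R) : HData π n M' M (fun k g => R g k) where
  npos := D.npos
  expG := D.expK
  expK := D.expG
  memG h := D.memK h
  memK h := D.memG h
  elG h := D.elK h
  elK h := D.elG h
  totG := D.totK
  totK := D.totG
  one := D.one
  conj h h' := (D.conj h h').symm
  cjG h hm := D.cjK h hm
  cjK h hm := D.cjG h hm
  cent h p hp hpp := (D.cent h p hp hpp).symm
  pow h he := D.pow h he

lemma card_fact (D : HData π n M M' R) {p : ℕ} (hp : p.Prime) (hpπ : p ∈ π) :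
    (Nat.card M).factorization p = (Nat.card M').factorization p := by
  have h := D.cent D.one p hpπ hp
  have h1 : M ⊓ centralizer ({1} : Set G) = M := by
    rw [inf_eq_left]
    intro m _
    exact mem_centralizer_singleton_iff.mpr (by simp)
  have h2 : M' ⊓ centralizer ({1} : Set K) = M' := by
    rw [inf_eq_left]
    intro m _
    exact mem_centralizer_singleton_iff.mpr (by simp)
  rwa [h1, h2] at h

/-- the `p`-part of the second element is conjugate to it if the first one is a `p`-element -/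
lemma isEl_right (D : HData π n M M' R) {p : ℕ} (hp : p.Prime) {x : G} {x' : K}
    (h : R x x') (hx : IsEl {p} x) : IsEl {p} x' := by
  obtain ⟨e, he1, he2⟩ := exists_exp hp D.npos 1 0
  have hE : HallExp n e := hallExp_of hp D.npos he1 he2 (Or.inr (fun hd => hp.one_lt.ne' (Nat.dvd_one.mp hd))) (hallExp_zero n)
  have h1 := D.pow h hE
  have hxe : x ^ e = x := by
    have := pow_of_modEq (pow_ordProj D.npos (D.expG x (D.memG h)) hx) he1
    rwa [pow_one] at this
  rw [hxe] at h1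
  obtain ⟨m, -, hme⟩ := (D.conj h h1).mp ⟨1, M.one_mem, by simp⟩
  have h2 : orderOf x' = orderOf (x' ^ e) := by
    rw [← hme]; exact ((MulAut.conj m).orderOf_eq x').symm
  have h3 : (x' ^ e) ^ (ordProj[p] n) = 1 := by
    have h4 : ordCompl[p] n ∣ e := (Nat.modEq_zero_iff_dvd).mp he2
    obtain ⟨s, hs⟩ := h4
    rw [← pow_mul, hs, mul_assoc, mul_comm s, ← mul_assoc, mul_comm (ordCompl[p] n),
      Nat.ordProj_mul_ordCompl_eq_self, pow_mul, D.expK x' (D.memK h), one_pow]
  have h5 : orderOf x' ∣ ordProj[p] n := by rw [h2]; exact orderOf_dvd_of_pow_eq_one h3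
  intro r hr hrd
  exact (Nat.prime_dvd_prime_iff_eq hr hp).mp (hr.dvd_of_dvd_pow (hrd.trans h5))

lemma ne_one_right (D : HData π n M M' R) {x : G} {x' : K} (h : R x x') (hx : x ≠ 1) : x' ≠ 1 := by
  rintro rfl
  obtain ⟨m, -, hme⟩ := (D.conj D.one h).mpr ⟨1, M'.one_mem, by simp⟩
  apply hx
  rw [← hme]; simp

/-- coprime powers of corresponding `p`-elements correspond -/
lemma pow_pel (D : HData π n M M' R) {p : ℕ} (hp : p.Prime) {x : G} {x' : K}
    (h : R x x') (hx : IsEl {p} x) {j : ℕ} (hj : ¬ p ∣ j) : R (x ^ j) (x' ^ j) := by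
  obtain ⟨e, he1, he2⟩ := exists_exp hp D.npos j 1
  have hE : HallExp n e := hallExp_of hp D.npos he1 he2 (Or.inr hj) (hallExp_one n)
  have h1 := D.pow h hE
  rwa [pow_of_modEq (pow_ordProj D.npos (D.expG x (D.memG h)) hx) he1,
    pow_of_modEq (pow_ordProj D.npos (D.expK x' (D.memK h)) (D.isEl_right hp h hx)) he1] at h1

lemma isEl_of_hall {p : ℕ} {x : G} (hP : IsHall {p} (zpowers x) M) : IsEl {p} x := by
  intro r hr hrd
  rw [← Nat.card_zpowers] at hrd
  exact hP.2.1 r hr hrd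

lemma orderOf_eq_of_hall {p : ℕ} (hp : p.Prime) {x : G} (hP : IsHall {p} (zpowers x) M) :
    orderOf x = p ^ (Nat.card M).factorization p := by
  have h1 := hP.fact_card hp rfl
  rw [Nat.card_zpowers] at h1
  have hzp : IsPGroup p (zpowers x) := isPGroup_of_card hP.2.1
  have := Fact.mk hp
  obtain ⟨a, ha⟩ := IsPGroup.iff_card.mp hzp
  rw [Nat.card_zpowers] at ha
  rw [← h1, ha, hp.factorization_pow, Finsupp.single_eq_same]

/-- generators of cyclic Sylow subgroups correspond -/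
lemma sylow_right (D : HData π n M M' R) {p : ℕ} (hp : p.Prime) (hpπ : p ∈ π) {x : G} {x' : K}
    (h : R x x') (hx : x ≠ 1) (hP : IsHall {p} (zpowers x) M) :
    IsHall {p} (zpowers x') M' ∧ orderOf x' = orderOf x := by
  have hxe := isEl_of_hall hP
  have hx'e := D.isEl_right hp h hxe
  have hx'1 := D.ne_one_right h hx
  have hox := orderOf_eq_of_hall hp hP
  set a := (Nat.card M).factorization p with ha
  have hcard := D.card_fact hp hpπ
  have hfact := Fact.mk hp
  obtain ⟨b, hb⟩ : ∃ b, orderOf x' = p ^ b := by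
    have : IsPGroup p (zpowers x') := by
      apply isPGroup_of_card
      intro r hr hrd
      rw [Nat.card_zpowers] at hrd
      exact hx'e r hr hrd
    obtain ⟨b, hb⟩ := IsPGroup.iff_card.mp this
    rw [Nat.card_zpowers] at hb
    exact ⟨b, hb⟩
  have hb1 : 1 ≤ b := by
    rcases Nat.eq_zero_or_pos b with h0 | h0
    · rw [h0, pow_zero, orderOf_eq_one_iff] at hb
      exact absurd hb hx'1
    · exact h0
  have hx'M : x' ∈ M' := D.memK h
  have hba : b ≤ a := by
    have h1 : p ^ b ∣ Nat.card M' := by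
      rw [← hb]
      have h2 := Subgroup.card_dvd_of_le ((zpowers_le (H := M')).mpr hx'M)
      rwa [Nat.card_zpowers] at h2
    rw [ha, hcard]
    exact (hp.pow_dvd_iff_le_factorization Nat.card_pos.ne').mp h1
  have hab : a ≤ b := by
    have h1 : ¬ p ∣ 1 + p ^ b := by
      intro hd
      have h2 : p ∣ p ^ b := dvd_pow_self p (by omega)
      exact hp.one_lt.ne' (Nat.dvd_one.mp ((Nat.dvd_add_left h2).mp hd))
    have h3 := D.pow_pel hp h hxe h1
    have h4 : x' ^ (1 + p ^ b) = x' := by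
      rw [pow_add, pow_one, ← hb, pow_orderOf_eq_one, mul_one]
    rw [h4] at h3
    obtain ⟨m, hm, hme⟩ := (D.conj h h3).mpr ⟨1, M'.one_mem, by simp⟩
    have h5 := no_wild hp hP hm hb1 hme
    rw [hox] at h5
    exact (Nat.pow_dvd_pow_iff_le_right hp.one_lt).mp h5
  have hab' : b = a := le_antisymm hba hab
  refine ⟨?_, by rw [hb, hox, hab']⟩
  apply isHall_iff_fact
  · rw [zpowers_le]; exact hx'M
  · intro r hr hrd
    rw [Nat.card_zpowers] at hrd
    exact hx'e r hr hrd
  · intro r hr hrp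
    rw [Set.mem_singleton_iff] at hr
    subst hr
    rw [Nat.card_zpowers, hb, hp.factorization_pow, Finsupp.single_eq_same, hab', ha, hcard]

/-- the indices `|N(P) : C(P)|` agree -/
lemma relIndex_right (D : HData π n M M' R) {p : ℕ} (hp : p.Prime) (hpπ : p ∈ π) {x : G} {x' : K}
    (h : R x x') (hx : x ≠ 1) (hP : IsHall {p} (zpowers x) M) :
    (M ⊓ centralizer ({x} : Set G)).relIndex (M ⊓ normalizer (zpowers x : Set G)) =
    (M' ⊓ centralizer ({x'} : Set K)).relIndex (M' ⊓ normalizer (zpowers x' : Set K)) := by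
  obtain ⟨hP', ho⟩ := D.sylow_right hp hpπ h hx hP
  have hxe := isEl_of_hall hP
  have hx'1 := D.ne_one_right h hx
  rw [relIndex_cent_norm, relIndex_cent_norm]
  congr 1
  ext j
  simp only [Set.mem_ofPred_eq, ho]
  refine and_congr_right fun hj => ?_
  by_cases hpj : p ∣ j
  · -- neither side holds
    have hpo : p ∣ orderOf x := by
      rw [orderOf_eq_of_hall hp hP]
      apply dvd_pow_self
      intro h0
      have := orderOf_eq_of_hall hp hP
      rw [h0, pow_zero, orderOf_eq_one_iff] at this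
      exact hx this
    constructor
    · rintro ⟨m, -, hm⟩
      exfalso
      have h1 : orderOf x = orderOf (x ^ j) := by
        rw [← hm]; exact ((MulAut.conj m).orderOf_eq x).symm
      rw [orderOf_pow] at h1
      have h2 : p ∣ Nat.gcd (orderOf x) j := Nat.dvd_gcd hpo hpj
      have h3 : orderOf x / Nat.gcd (orderOf x) j < orderOf x :=
        Nat.div_lt_self (orderOf_pos x) (lt_of_lt_of_le hp.one_lt
          (Nat.le_of_dvd (Nat.gcd_pos_of_pos_left _ (orderOf_pos x)) h2))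
      omega
    · rintro ⟨m, -, hm⟩
      exfalso
      have h1 : orderOf x' = orderOf (x' ^ j) := by
        rw [← hm]; exact ((MulAut.conj m).orderOf_eq x').symm
      rw [orderOf_pow, ho] at h1
      have h2 : p ∣ Nat.gcd (orderOf x) j := Nat.dvd_gcd hpo hpj
      have h3 : orderOf x / Nat.gcd (orderOf x) j < orderOf x :=
        Nat.div_lt_self (orderOf_pos x) (lt_of_lt_of_le hp.one_lt
          (Nat.le_of_dvd (Nat.gcd_pos_of_pos_left _ (orderOf_pos x)) h2))
      omega
  · exact D.conj h (D.pow_pel hp h hxe hpj)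

end HData

section Parts

variable {H : Type u} [Group H]

lemma comm_parts {n p : ℕ} (hp : p.Prime) (hn : 0 < n) {x y : H} (hxn : x ^ n = 1)
    (hyn : y ^ n = 1) (hc : Commute x y) (hx : IsEl {p} x) (hy : ¬ p ∣ orderOf y) {e a b : ℕ}
    (he1 : e ≡ a [MOD ordProj[p] n]) (he2 : e ≡ b [MOD ordCompl[p] n]) :
    (x * y) ^ e = x ^ a * y ^ b := by
  rw [hc.mul_pow, pow_of_modEq (pow_ordProj hn hxn hx) he1,
    pow_of_modEq (pow_ordCompl hp hyn hy) he2]

lemma isEl_mul {π : Set ℕ} {x y : H} (hc : Commute x y) (hx : IsEl π x) (hy : IsEl π y) :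
    IsEl π (x * y) := by
  intro r hr hrd
  have h1 : orderOf (x * y) ∣ orderOf x * orderOf y := hc.orderOf_mul_dvd_mul_orderOf
  rcases hr.dvd_mul.mp (hrd.trans h1) with h | h
  · exact hx r hr h
  · exact hy r hr h

lemma IsEl.pow {π : Set ℕ} {x : H} (hx : IsEl π x) (e : ℕ) : IsEl π (x ^ e) :=
  hx.of_dvd (orderOf_pow_dvd e)

lemma IsEl.mono {π ρ : Set ℕ} (h : π ⊆ ρ) {x : H} (hx : IsEl π x) : IsEl ρ x :=
  fun p hp hd => h (hx p hp hd)

lemma IsEl.conj {π : Set ℕ} {x : H} (hx : IsEl π x) (g : H) : IsEl π (g * x * g⁻¹) := by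
  intro p hp hd
  have h1 : orderOf (g * x * g⁻¹) = orderOf x := (MulAut.conj g).orderOf_eq x
  rw [h1] at hd
  exact hx p hp hd

lemma mem_cent_comm {M : Subgroup H} {x y : H} (h : y ∈ M ⊓ centralizer ({x} : Set H)) :
    Commute x y := (mem_centralizer_singleton_iff.mp h.2).symm

/-- elements commuting with `x * y` commute with both parts -/
lemma cent_mul {M : Subgroup H} {x y : H} {e f : ℕ} (h1 : (x * y) ^ e = x) (h2 : (x * y) ^ f = y) :
    M ⊓ centralizer ({x} : Set H) ⊓ centralizer {y} = M ⊓ centralizer {x * y} := by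
  ext g
  simp only [mem_inf, mem_centralizer_singleton_iff]
  constructor
  · rintro ⟨⟨hM, hx⟩, hy⟩
    refine ⟨hM, ?_⟩
    have : Commute g (x * y) := Commute.mul_right hx hy
    exact this
  · rintro ⟨hM, hxy⟩
    have h3 : Commute g (x * y) := hxy
    refine ⟨⟨hM, ?_⟩, ?_⟩
    · have := h3.pow_right e
      rw [h1] at this; exact this
    · have := h3.pow_right f
      rw [h2] at this; exact this

end Parts

namespace HData

variable {π : Set ℕ} {n : ℕ} {M : Subgroup G} {M' : Subgroup K} {R : G → K → Prop}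

/-- one half of the totality statement for centralisers -/
lemma cent_tot (D : HData π n M M' R) {p : ℕ} (hp : p.Prime) (hpπ : p ∈ π) {x : G} {x' : K}
    (h : R x x') (hx : IsEl {p} x) {y : G} (hy : y ∈ M ⊓ Subgroup.centralizer {x})
    (hyπ : IsEl (π \ {p}) y) :
    ∃ y', y' ∈ M' ⊓ Subgroup.centralizer {x'} ∧ IsEl (π \ {p}) y' ∧ R (x * y) (x' * y') := by
  have hxM := D.memG h
  obtain ⟨e, he1, he2⟩ := exists_exp hp D.npos 1 0
  obtain ⟨f, hf1, hf2⟩ := exists_exp hp D.npos 0 1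
  have hnp : ¬ p ∣ 1 := fun hd => hp.one_lt.ne' (Nat.dvd_one.mp hd)
  have hE : HallExp n e := hallExp_of hp D.npos he1 he2 (Or.inr hnp) (hallExp_zero n)
  have hc := mem_cent_comm hy
  have hyp : ¬ p ∣ orderOf y := fun hd => (hyπ p hp hd).2 rfl
  have hxπ : IsEl π x := hx.mono (Set.singleton_subset_iff.mpr hpπ)
  have hxy : IsEl π (x * y) := isEl_mul hc hxπ (hyπ.mono Set.sdiff_subset)
  obtain ⟨k, hk⟩ := D.totG (x * y) (M.mul_mem hxM hy.1) hxy
  have h1 := D.pow hk hE
  rw [comm_parts hp D.npos (D.expG x hxM) (D.expG y hy.1) hc hx hyp he1 he2, pow_one, pow_zero,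
    mul_one] at h1
  obtain ⟨m, hm, hme⟩ := (D.conj h1 h).mp ⟨1, M.one_mem, by simp⟩
  have hk2 := D.cjK hk hm
  set k2 := m * k * m⁻¹ with hk2d
  have hk2e : k2 ^ e = x' := by rw [hk2d, conj_pow, hme]
  have hk2M := D.memK hk2
  have hk2n := D.expK k2 hk2M
  have hefn : e + f ≡ 1 [MOD n] := by
    have a1 : e + f ≡ 1 [MOD ordProj[p] n] := by simpa using he1.add hf1
    have a2 : e + f ≡ 1 [MOD ordCompl[p] n] := by simpa using he2.add hf2
    have a3 := (Nat.modEq_and_modEq_iff_modEq_mul (Nat.Coprime.pow_left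
      (n.factorization p) (Nat.coprime_ordCompl hp D.npos.ne'))).mp ⟨a1, a2⟩
    rwa [Nat.ordProj_mul_ordCompl_eq_self] at a3
  have hsum : x' * k2 ^ f = k2 := by
    rw [← hk2e, ← pow_add]
    have := pow_of_modEq hk2n hefn
    rwa [pow_one] at this
  have hcomm : k2 ^ f * x' = x' * k2 ^ f := by
    rw [← hk2e, ← pow_add, ← pow_add, add_comm]
  refine ⟨k2 ^ f, ⟨M'.pow_mem hk2M f, mem_centralizer_singleton_iff.mpr hcomm⟩, ?_,
    by rw [hsum]; exact hk2⟩
  · intro r hr hrd
    have h3 := (D.elK hk2).pow f r hr hrd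
    refine ⟨h3, ?_⟩
    intro hrp
    rw [Set.mem_singleton_iff] at hrp
    subst hrp
    have h4 : (k2 ^ f) ^ (ordCompl[r] n) = 1 := by
      obtain ⟨s, hs⟩ := (Nat.modEq_zero_iff_dvd).mp hf1
      rw [← pow_mul, hs, mul_comm (ordProj[r] n) s, mul_assoc, Nat.ordProj_mul_ordCompl_eq_self,
        mul_comm, pow_mul, hk2n, one_pow]
    exact Nat.not_dvd_ordCompl hr D.npos.ne' (hrd.trans (orderOf_dvd_of_pow_eq_one h4))

/-- the data induced on the centralisers of corresponding generators of Sylow subgroups -/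
lemma centralizer (D : HData π n M M' R) {p : ℕ} (hp : p.Prime) (hpπ : p ∈ π) {x : G} {x' : K}
    (h : R x x') (hx : IsEl {p} x) :
    HData (π \ {p}) n (M ⊓ Subgroup.centralizer {x}) (M' ⊓ Subgroup.centralizer {x'})
      (fun y y' => y ∈ M ⊓ Subgroup.centralizer {x} ∧ y' ∈ M' ⊓ Subgroup.centralizer {x'} ∧
        IsEl (π \ {p}) y ∧ IsEl (π \ {p}) y' ∧ R (x * y) (x' * y')) := by
  have hx' := D.isEl_right hp h hx
  have hxM := D.memG h
  have hx'M := D.memK h
  obtain ⟨e, he1, he2⟩ := exists_exp hp D.npos 1 0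
  obtain ⟨f, hf1, hf2⟩ := exists_exp hp D.npos 0 1
  have hnp : ¬ p ∣ 1 := fun hd => hp.one_lt.ne' (Nat.dvd_one.mp hd)
  have hE : HallExp n e := hallExp_of hp D.npos he1 he2 (Or.inr hnp) (hallExp_zero n)
  have hF : HallExp n f := hallExp_of hp D.npos hf1 hf2 (Or.inl rfl) (hallExp_one n)
  have hπn : ∀ {H : Type u} [Group H] {y : H}, IsEl (π \ {p}) y → ¬ p ∣ orderOf y :=
    fun hy hd => (hy p hp hd).2 rfl
  have hπn' : ∀ {H : Type v} [Group H] {y : H}, IsEl (π \ {p}) y → ¬ p ∣ orderOf y :=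
    fun hy hd => (hy p hp hd).2 rfl
  -- parts
  have pG : ∀ y ∈ M ⊓ Subgroup.centralizer {x}, IsEl (π \ {p}) y → ∀ {E a b : ℕ},
      E ≡ a [MOD ordProj[p] n] → E ≡ b [MOD ordCompl[p] n] → (x * y) ^ E = x ^ a * y ^ b := by
    intro y hy hyπ E a b h1 h2
    exact comm_parts hp D.npos (D.expG x hxM) (D.expG y hy.1) (mem_cent_comm hy) hx (hπn hyπ) h1 h2
  have pK : ∀ y ∈ M' ⊓ Subgroup.centralizer {x'}, IsEl (π \ {p}) y → ∀ {E a b : ℕ},
      E ≡ a [MOD ordProj[p] n] → E ≡ b [MOD ordCompl[p] n] → (x' * y) ^ E = x' ^ a * y ^ b := by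
    intro y hy hyπ E a b h1 h2
    exact comm_parts hp D.npos (D.expK x' hx'M) (D.expK y hy.1) (mem_cent_comm hy) hx'
      (hπn' hyπ) h1 h2
  have pGe : ∀ y ∈ M ⊓ Subgroup.centralizer {x}, IsEl (π \ {p}) y → (x * y) ^ e = x := by
    intro y hy hyπ; rw [pG y hy hyπ he1 he2]; simp
  have pGf : ∀ y ∈ M ⊓ Subgroup.centralizer {x}, IsEl (π \ {p}) y → (x * y) ^ f = y := by
    intro y hy hyπ; rw [pG y hy hyπ hf1 hf2]; simp
  have pKe : ∀ y ∈ M' ⊓ Subgroup.centralizer {x'}, IsEl (π \ {p}) y → (x' * y) ^ e = x' := by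
    intro y hy hyπ; rw [pK y hy hyπ he1 he2]; simp
  have pKf : ∀ y ∈ M' ⊓ Subgroup.centralizer {x'}, IsEl (π \ {p}) y → (x' * y) ^ f = y := by
    intro y hy hyπ; rw [pK y hy hyπ hf1 hf2]; simp
  refine ⟨D.npos, fun g hg => D.expG g hg.1, fun k hk => D.expK k hk.1, fun h => h.1,
    fun h => h.2.1, fun h => h.2.2.1, fun h => h.2.2.2.1, ?_, ?_, ?_, ?_, ?_, ?_, ?_, ?_⟩
  · intro y hy hyπ
    obtain ⟨y', h1, h2, h3⟩ := D.cent_tot hp hpπ h hx hy hyπ
    exact ⟨y', hy, h1, hyπ, h2, h3⟩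
  · intro y' hy' hyπ'
    obtain ⟨y, h1, h2, h3⟩ := D.symm.cent_tot hp hpπ h hx' hy' hyπ'
    exact ⟨y, h1, hy', h2, hyπ', h3⟩
  · refine ⟨Subgroup.one_mem _, Subgroup.one_mem _, IsEl.one _, IsEl.one _, ?_⟩
    rw [mul_one, mul_one]; exact h
  · rintro y y' z z' ⟨hy, hy', hyπ, hyπ', hR⟩ ⟨hz, hz', hzπ, hzπ', hR'⟩
    constructor
    · rintro ⟨c, hc, hcz⟩
      have h1 : c * (x * y) * c⁻¹ = x * z := by
        have hcx : c * x = x * c := mem_centralizer_singleton_iff.mp hc.2
        calc c * (x * y) * c⁻¹ = c * x * y * c⁻¹ := by group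
          _ = x * (c * y * c⁻¹) := by rw [hcx]; group
          _ = x * z := by rw [hcz]
      obtain ⟨m, hm, hmz⟩ := (D.conj hR hR').mp ⟨c, hc.1, h1⟩
      have h2 : m * x' * m⁻¹ = x' := by
        have := congrArg (fun w => w ^ e) hmz
        simp only [conj_pow] at this
        rwa [pKe y' hy' hyπ', pKe z' hz' hzπ'] at this
      have h3 : m * y' * m⁻¹ = z' := by
        have := congrArg (fun w => w ^ f) hmz
        simp only [conj_pow] at this
        rwa [pKf y' hy' hyπ', pKf z' hz' hzπ'] at this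
      exact ⟨m, ⟨hm, mem_centralizer_singleton_iff.mpr (mul_inv_eq_iff_eq_mul.mp h2)⟩, h3⟩
    · rintro ⟨c, hc, hcz⟩
      have h1 : c * (x' * y') * c⁻¹ = x' * z' := by
        have hcx : c * x' = x' * c := mem_centralizer_singleton_iff.mp hc.2
        calc c * (x' * y') * c⁻¹ = c * x' * y' * c⁻¹ := by group
          _ = x' * (c * y' * c⁻¹) := by rw [hcx]; group
          _ = x' * z' := by rw [hcz]
      obtain ⟨m, hm, hmz⟩ := (D.conj hR hR').mpr ⟨c, hc.1, h1⟩
      have h2 : m * x * m⁻¹ = x := by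
        have := congrArg (fun w => w ^ e) hmz
        simp only [conj_pow] at this
        rwa [pGe y hy hyπ, pGe z hz hzπ] at this
      have h3 : m * y * m⁻¹ = z := by
        have := congrArg (fun w => w ^ f) hmz
        simp only [conj_pow] at this
        rwa [pGf y hy hyπ, pGf z hz hzπ] at this
      exact ⟨m, ⟨hm, mem_centralizer_singleton_iff.mpr (mul_inv_eq_iff_eq_mul.mp h2)⟩, h3⟩
  · rintro y y' m ⟨hy, hy', hyπ, hyπ', hR⟩ hm
    refine ⟨?_, hy', hyπ.conj m, hyπ', ?_⟩
    · exact Subgroup.mul_mem _ (Subgroup.mul_mem _ hm hy) (Subgroup.inv_mem _ hm)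
    · have hmx : m * x = x * m := mem_centralizer_singleton_iff.mp hm.2
      have : x * (m * y * m⁻¹) = m * (x * y) * m⁻¹ := by
        calc x * (m * y * m⁻¹) = x * m * y * m⁻¹ := by group
          _ = m * (x * y) * m⁻¹ := by rw [← hmx]; group
      rw [this]
      exact D.cjG hR hm.1
  · rintro y y' m ⟨hy, hy', hyπ, hyπ', hR⟩ hm
    refine ⟨hy, ?_, hyπ, hyπ'.conj m, ?_⟩
    · exact Subgroup.mul_mem _ (Subgroup.mul_mem _ hm hy') (Subgroup.inv_mem _ hm)
    · have hmx : m * x' = x' * m := mem_centralizer_singleton_iff.mp hm.2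
      have : x' * (m * y' * m⁻¹) = m * (x' * y') * m⁻¹ := by
        calc x' * (m * y' * m⁻¹) = x' * m * y' * m⁻¹ := by group
          _ = m * (x' * y') * m⁻¹ := by rw [← hmx]; group
      rw [this]
      exact D.cjK hR hm.1
  · rintro y y' ⟨hy, hy', hyπ, hyπ', hR⟩ r hr hrp
    rw [cent_mul (pGe y hy hyπ) (pGf y hy hyπ), cent_mul (pKe y' hy' hyπ') (pKf y' hy' hyπ')]
    exact D.cent hR r hr.1 hrp
  · rintro y y' E ⟨hy, hy', hyπ, hyπ', hR⟩ hEE
    obtain ⟨E', hE1, hE2⟩ := exists_exp hp D.npos 1 E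
    have hE' : HallExp n E' := hallExp_of hp D.npos hE1 hE2 (Or.inr hnp) hEE
    have h1 := D.pow hR hE'
    rw [pG y hy hyπ hE1 hE2, pK y' hy' hyπ' hE1 hE2, pow_one, pow_one] at h1
    exact ⟨Subgroup.pow_mem _ hy E, Subgroup.pow_mem _ hy' E, hyπ.pow E, hyπ'.pow E, h1⟩

/-- transfer of Hall subgroups of a given type -/
theorem transfer {q : ℕ} : ∀ (l : List ℕ) {π : Set ℕ} {M : Subgroup G} {M' : Subgroup K}
    {R : G → K → Prop}, HData π n M M' R → (∃ H, IsHall π H M ∧ XType l q H) →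
    ∃ H', IsHall π H' M' ∧ XType l q H' := by
  intro l
  induction l with
  | nil =>
    rintro π M M' R D ⟨H, hH, hq, hl⟩
    have hcl := card_of_isPGroup hq hl
    by_cases hqπ : q ∈ π
    · obtain ⟨Q, -, hQ⟩ := exists_sylow hq (bot_le : (⊥ : Subgroup K) ≤ M') IsPGroup.of_bot
      have hQp : IsPGroup q Q := isPGroup_of_card hQ.2.1
      refine ⟨Q, ?_, hq, hQp⟩
      apply isHall_iff_fact hQ.1
      · intro r hr hrd
        rw [Set.mem_singleton_iff.mp (hQ.2.1 r hr hrd)]; exact hqπ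
      · intro r hrπ hr
        by_cases hrq : r = q
        · subst hrq
          rw [hQ.fact_card hr rfl]
        · rw [← D.card_fact hr hrπ, ← hH.fact_card hr hrπ]
          have : (Nat.card H).factorization r = 0 := by
            apply Nat.factorization_eq_zero_of_not_dvd
            intro hd
            exact hrq (Set.mem_singleton_iff.mp (hcl r hr hd))
          rw [this]; exact Nat.zero_le _
    · have hHbot : ∀ r, r.Prime → ¬ r ∣ Nat.card H := by
        intro r hr hd
        have h1 := Set.mem_singleton_iff.mp (hcl r hr hd)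
        subst h1
        exact hqπ (hH.2.1 r hr hd)
      refine ⟨⊥, ?_, hq, IsPGroup.of_bot⟩
      apply isHall_iff_fact bot_le
      · intro r hr hrd
        rw [Subgroup.card_bot] at hrd
        exact absurd (Nat.dvd_one.mp hrd) hr.one_lt.ne'
      · intro r hrπ hr
        rw [← D.card_fact hr hrπ, ← hH.fact_card hr hrπ,
          Nat.factorization_eq_zero_of_not_dvd (hHbot r hr)]
        exact Nat.zero_le _
  | cons p l ih =>
    rintro π M M' R D ⟨H, hH, hl⟩
    obtain ⟨hp, hpπ, x, B, hx1, hxH, hP, hHN, hBH, hB, hlB, hP', hB'⟩ := hl.data hH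
    have hxe := isEl_of_hall hP
    obtain ⟨x', hxx'⟩ := D.totG x (hH.1 hxH) (hxe.mono (Set.singleton_subset_iff.mpr hpπ))
    obtain ⟨hPx', ho⟩ := D.sylow_right hp hpπ hxx' hx1 hP
    have hx'1 := D.ne_one_right hxx' hx1
    have Dc := D.centralizer hp hpπ hxx' hxe
    obtain ⟨B', hBB', hlB'⟩ := ih Dc ⟨B, hB, hlB⟩
    refine exists_of_centralizer hp hpπ hx'1 hPx' hBB' hlB' ?_
    -- the index of the normaliser is a `π'`-number
    intro r hrπ hr hrd
    have hNM : ∀ s ∈ π, s.Prime → ¬ s ∣ (M ⊓ normalizer (zpowers x : Set G)).relIndex M := by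
      intro s hsπ hs hsd
      apply hH.2.2 s hsπ hs
      rw [← relIndex_mul_relIndex H _ M hHN inf_le_left]
      exact hsd.mul_left _
    have h1 := D.relIndex_right hp hpπ hxx' hx1 hP
    have hcent := D.cent hxx' r hrπ hr
    have hcard := D.card_fact hr hrπ
    set N := M ⊓ normalizer (zpowers x : Set G) with hNd
    set C := M ⊓ Subgroup.centralizer ({x} : Set G) with hCd
    set N' := M' ⊓ normalizer (zpowers x' : Set K) with hN'd
    set C' := M' ⊓ Subgroup.centralizer ({x'} : Set K) with hC'd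
    have e1 := card_mul_relIndex (cent_le_norm : C ≤ N)
    have e2 := card_mul_relIndex (cent_le_norm : C' ≤ N')
    have e3 := card_mul_relIndex (inf_le_left : N ≤ M)
    have e4 := card_mul_relIndex (inf_le_left : N' ≤ M')
    have f1 : (Nat.card N).factorization r = (Nat.card N').factorization r := by
      rw [← e1, ← e2, h1, Nat.factorization_mul Nat.card_pos.ne' (relIndex_pos' C' N').ne',
        Nat.factorization_mul Nat.card_pos.ne' (relIndex_pos' C' N').ne', Finsupp.add_apply,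
        Finsupp.add_apply, hcent]
    have f2 : (Nat.card N).factorization r = (Nat.card M).factorization r := by
      rw [← e3, Nat.factorization_mul Nat.card_pos.ne' (relIndex_pos' N M).ne', Finsupp.add_apply,
        Nat.factorization_eq_zero_of_not_dvd (hNM r hrπ hr), add_zero]
    have f3 : (Nat.card M').factorization r =
        (Nat.card N').factorization r + (N'.relIndex M').factorization r := by
      rw [← e4, Nat.factorization_mul Nat.card_pos.ne' (relIndex_pos' N' M').ne', Finsupp.add_apply]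
    have f4 := hr.factorization_pos_of_dvd (relIndex_pos' N' M').ne' hrd
    omega

end HData

end Main

end HallTab
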