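import Pool.Agent.Work.MP_15bafc_al.Link
import Pool.Agent.Work.MP_15bafc_al.Transfer

/-!
# Class data from the character table
-/

set_option linter.unusedSectionVars false

namespace HallTab

open Subgroup

universe u v

namespace Link

variable {G : Type u} {K : Type v} [Group G] [Group K] [Finite G] [Finite K] (L : Link G K)

lemma R_hallExp : ∀ (s e : ℕ), HallExp (Nat.card G) e →
    ((Nat.card G).primeFactors.filter (· ∣ e)).card = s → ∀ {g : G} {k : K}, L.R g k →
    L.R (g ^ e) (k ^ e) := by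
  intro s
  have hG : 0 < Nat.card G := Nat.card_pos
  induction s with
  | zero =>
    intro e he hs g k h
    apply L.R_pow h hG pow_card_eq_one' (L.pow_cardK k)
    rw [Nat.coprime_iff_gcd_eq_one]
    by_contra hne
    obtain ⟨r, hr, hrd⟩ := Nat.exists_prime_and_dvd hne
    rw [Finset.card_eq_zero, Finset.filter_eq_empty_iff] at hs
    exact hs (Nat.mem_primeFactors.mpr ⟨hr, hrd.trans (Nat.gcd_dvd_right _ _), hG.ne'⟩)
      (hrd.trans (Nat.gcd_dvd_left _ _))
  | succ s ih =>
    intro e he hs g k h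
    have hne : ((Nat.card G).primeFactors.filter (· ∣ e)).Nonempty := by
      rw [← Finset.card_pos, hs]; omega
    obtain ⟨q, hq⟩ := hne
    rw [Finset.mem_filter] at hq
    obtain ⟨hqn, hqe⟩ := hq
    have hqp := Nat.prime_of_mem_primeFactors hqn
    have hqd := Nat.dvd_of_mem_primeFactors hqn
    set m := ordCompl[q] (Nat.card G) with hm
    have hqm : ¬ q ∣ m := Nat.not_dvd_ordCompl hqp hG.ne'
    have hproj : ∀ r, r.Prime → r ∣ Nat.card G → r ≠ q → ordProj[r] (Nat.card G) ∣ m := by
      intro r hr _ hrq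
      have h2 : ordProj[r] (Nat.card G) ∣ ordProj[q] (Nat.card G) * ordCompl[q] (Nat.card G) := by
        rw [Nat.ordProj_mul_ordCompl_eq_self]; exact Nat.ordProj_dvd _ r
      refine Nat.Coprime.dvd_of_dvd_mul_left ?_ h2
      exact Nat.Coprime.pow _ _ ((Nat.coprime_primes hr hqp).mpr hrq)
    have hself : ∀ r, r.Prime → r ∣ Nat.card G → r ∣ ordProj[r] (Nat.card G) := by
      intro r hr hrd
      apply dvd_pow_self
      exact (hr.factorization_pos_of_dvd hG.ne' hrd).ne'
    have hq' : ¬ q ∣ e + m := fun hd => hqm ((Nat.dvd_add_right hqe).mp hd)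
    have hrm : ∀ r, r.Prime → r ∣ Nat.card G → r ≠ q → (r ∣ e + m ↔ r ∣ e) := by
      intro r hr hrd hrq
      exact Nat.dvd_add_left ((hself r hr hrd).trans (hproj r hr hrd hrq))
    have hE : HallExp (Nat.card G) (e + m) := by
      intro r hr hrd hre
      by_cases hrq : r = q
      · subst hrq; exact absurd hre hq'
      · exact dvd_add (he r hr hrd ((hrm r hr hrd hrq).mp hre)) (hproj r hr hrd hrq)
    have hfil : (Nat.card G).primeFactors.filter (· ∣ e + m) =
        ((Nat.card G).primeFactors.filter (· ∣ e)).erase q := by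
      ext r
      simp only [Finset.mem_filter, Finset.mem_erase]
      constructor
      · rintro ⟨hr, hre⟩
        have hrq : r ≠ q := by rintro rfl; exact hq' hre
        exact ⟨hrq, hr, (hrm r (Nat.prime_of_mem_primeFactors hr)
          (Nat.dvd_of_mem_primeFactors hr) hrq).mp hre⟩
      · rintro ⟨hrq, hr, hre⟩
        exact ⟨hr, (hrm r (Nat.prime_of_mem_primeFactors hr)
          (Nat.dvd_of_mem_primeFactors hr) hrq).mpr hre⟩
    have hcard : ((Nat.card G).primeFactors.filter (· ∣ e + m)).card = s := by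
      rw [hfil, Finset.card_erase_of_mem (Finset.mem_filter.mpr ⟨hqn, hqe⟩), hs]; rfl
    have h1 := L.R_qpart hqp (ih (e + m) hE hcard h)
    have hmod : (e + m) * qexp q (Nat.card G) ≡ e [MOD Nat.card G] := by
      have a1 : (e + m) * qexp q (Nat.card G) ≡ e [MOD ordProj[q] (Nat.card G)] := by
        have b1 : qexp q (Nat.card G) ≡ 0 [MOD ordProj[q] (Nat.card G)] :=
          (Nat.modEq_zero_iff_dvd).mpr (qexp_dvd hG.ne')
        have b2 : e ≡ 0 [MOD ordProj[q] (Nat.card G)] :=
          (Nat.modEq_zero_iff_dvd).mpr (he q hqp hqd hqe)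
        calc (e + m) * qexp q (Nat.card G) ≡ (e + m) * 0 [MOD ordProj[q] (Nat.card G)] :=
              b1.mul_left _
          _ = 0 := mul_zero _
          _ ≡ e [MOD ordProj[q] (Nat.card G)] := b2.symm
      have a2 : (e + m) * qexp q (Nat.card G) ≡ e [MOD ordCompl[q] (Nat.card G)] := by
        have b1 := qexp_mod hqp hG.ne'
        have b2 : m ≡ 0 [MOD ordCompl[q] (Nat.card G)] := (Nat.modEq_zero_iff_dvd).mpr dvd_rfl
        calc (e + m) * qexp q (Nat.card G) ≡ (e + m) * 1 [MOD ordCompl[q] (Nat.card G)] :=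
              b1.mul_left _
          _ = e + m := mul_one _
          _ ≡ e + 0 [MOD ordCompl[q] (Nat.card G)] := b2.add_left _
          _ = e := add_zero _
      have a3 := (Nat.modEq_and_modEq_iff_modEq_mul (Nat.Coprime.pow_left
        ((Nat.card G).factorization q) (Nat.coprime_ordCompl hqp hG.ne'))).mp ⟨a1, a2⟩
      rwa [Nat.ordProj_mul_ordCompl_eq_self] at a3
    rw [← pow_mul, ← pow_mul, pow_of_modEq pow_card_eq_one' hmod,
      pow_of_modEq (L.pow_cardK k) hmod] at h1
    exact h1

/-- the class data on `π`-elements coming from the character table -/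
theorem hdata (π : Set ℕ) : HData π (Nat.card G) (⊤ : Subgroup G) (⊤ : Subgroup K)
    (fun g k => IsEl π g ∧ IsEl π k ∧ L.R g k) where
  npos := Nat.card_pos
  expG _ _ := pow_card_eq_one'
  expK k _ := L.pow_cardK k
  memG _ := trivial
  memK _ := trivial
  elG h := h.1
  elK h := h.2.1
  totG g _ hg := by
    obtain ⟨k, hk⟩ := L.tot g
    refine ⟨k, hg, ?_, hk⟩
    intro p hp hpd
    exact hg p hp ((L.prime_dvd_iff hp hk).mpr hpd)
  totK k _ hk := by
    obtain ⟨g, hg⟩ := L.tot' k
    refine ⟨g, ?_, hk, hg⟩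
    intro p hp hpd
    exact hk p hp ((L.prime_dvd_iff hp hg).mp hpd)
  one := ⟨IsEl.one _, IsEl.one _, L.R_one⟩
  conj h h' := by
    have := L.conj_iff h.2.2 h'.2.2
    simpa using this
  cjG h _ := ⟨h.1.conj _, h.2.1, L.R_conj_left h.2.2 _⟩
  cjK h _ := ⟨h.1, h.2.1.conj _, L.R_conj_right h.2.2 _⟩
  cent h p _ _ := by
    rw [top_inf_eq, top_inf_eq, L.card_cent h.2.2]
  pow h he := ⟨h.1.pow _, h.2.1.pow _, L.R_hallExp _ _ he rfl h.2.2⟩

end Link

end HallTab
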