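import Pool.Agent.Work.MP_15bafc_al.Defs

/-!
# Hall subgroups relative to a subgroup
-/

set_option linter.unusedSectionVars false

namespace HallTab

open Subgroup
open scoped Pointwise

universe u

variable {G : Type u} [Group G]

/-- the conjugate `g H g⁻¹` -/
def cj (g : G) (H : Subgroup G) : Subgroup G := H.map (MulAut.conj g).toMonoidHom

lemma mem_cj {g x : G} {H : Subgroup G} : x ∈ cj g H ↔ g⁻¹ * x * g ∈ H := by
  constructor
  · rintro ⟨h, hh, rfl⟩
    have : g⁻¹ * (g * h * g⁻¹) * g = h := by group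
    show g⁻¹ * (g * h * g⁻¹) * g ∈ H
    rw [this]; exact hh
  · intro h
    refine ⟨_, h, ?_⟩
    show g * (g⁻¹ * x * g) * g⁻¹ = x
    group

lemma conj_mem_cj {g x : G} {H : Subgroup G} (hx : x ∈ H) : g * x * g⁻¹ ∈ cj g H :=
  ⟨x, hx, rfl⟩

lemma cj_cj (a b : G) (H : Subgroup G) : cj a (cj b H) = cj (a * b) H := by
  ext x
  rw [mem_cj, mem_cj, mem_cj]
  have : b⁻¹ * (a⁻¹ * x * a) * b = (a * b)⁻¹ * x * (a * b) := by group
  rw [this]

lemma cj_one (H : Subgroup G) : cj 1 H = H := by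
  ext x; rw [mem_cj]; simp

lemma cj_inv_cj (a : G) (H : Subgroup G) : cj a⁻¹ (cj a H) = H := by
  rw [cj_cj, inv_mul_cancel, cj_one]

lemma cj_mono {g : G} {H K : Subgroup G} (h : H ≤ K) : cj g H ≤ cj g K := by
  intro x hx
  rw [mem_cj] at *
  exact h hx

lemma cj_of_mem {g : G} {M : Subgroup G} (h : g ∈ M) : cj g M = M := by
  ext x
  rw [mem_cj]
  constructor
  · intro hx
    have := M.mul_mem (M.mul_mem h hx) (M.inv_mem h)
    have e : g * (g⁻¹ * x * g) * g⁻¹ = x := by group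
    rwa [e] at this
  · intro hx
    exact M.mul_mem (M.mul_mem (M.inv_mem h) hx) h

lemma cj_le {g : G} {H M : Subgroup G} (hg : g ∈ M) (h : H ≤ M) : cj g H ≤ M := by
  have := cj_mono (g := g) h
  rwa [cj_of_mem hg] at this

lemma cj_sup (g : G) (H K : Subgroup G) : cj g (H ⊔ K) = cj g H ⊔ cj g K :=
  Subgroup.map_sup _ _ _

lemma card_cj (g : G) (H : Subgroup G) : Nat.card (cj g H) = Nat.card H :=
  (Nat.card_congr (H.equivMapOfInjective _ (MulAut.conj g).injective).toEquiv).symm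

lemma relIndex_cj (g : G) (H K : Subgroup G) : (cj g H).relIndex (cj g K) = H.relIndex K :=
  relIndex_map_map_of_injective H K (MulAut.conj g).injective

lemma cj_eq_iff_mem_normalizer {g : G} {H : Subgroup G} :
    cj g H = H ↔ g ∈ normalizer (H : Set G) := by
  rw [mem_normalizer_iff]
  constructor
  · intro h x
    constructor
    · intro hx
      have := conj_mem_cj (g := g) hx
      rwa [h] at this
    · intro hx
      change g * x * g⁻¹ ∈ H at hx
      rw [← h, mem_cj] at hx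
      have e : g⁻¹ * (g * x * g⁻¹) * g = x := by group
      rwa [e] at hx
  · intro h
    ext x
    rw [mem_cj]
    have := h (g⁻¹ * x * g)
    have e : g * (g⁻¹ * x * g) * g⁻¹ = x := by group
    rw [e] at this
    exact this

/-- `H` is a Hall `π`-subgroup of `M` -/
def IsHall (π : Set ℕ) (H M : Subgroup G) : Prop :=
  H ≤ M ∧ (∀ p, p.Prime → p ∣ Nat.card H → p ∈ π) ∧ (∀ p ∈ π, p.Prime → ¬ p ∣ H.relIndex M)

lemma card_mul_relIndex {H M : Subgroup G} (h : H ≤ M) :
    Nat.card H * H.relIndex M = Nat.card M := by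
  rw [relIndex, ← card_mul_index (H.subgroupOf M)]
  congr 1
  exact (Nat.card_congr (subgroupOfEquivOfLe h).toEquiv).symm

lemma IsHall.cj {π : Set ℕ} {H M : Subgroup G} (h : IsHall π H M) (g : G) :
    IsHall π (cj g H) (HallTab.cj g M) := by
  refine ⟨cj_mono h.1, ?_, ?_⟩
  · intro p hp hd
    rw [card_cj] at hd
    exact h.2.1 p hp hd
  · intro p hpπ hp
    rw [relIndex_cj]
    exact h.2.2 p hpπ hp

lemma IsHall.cj_mem {π : Set ℕ} {H M : Subgroup G} (h : IsHall π H M) {g : G} (hg : g ∈ M) :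
    IsHall π (HallTab.cj g H) M := by
  have := h.cj g
  rwa [cj_of_mem hg] at this

section Fin

variable [Finite G]

lemma relIndex_pos' (H M : Subgroup G) : 0 < H.relIndex M :=
  Nat.pos_of_dvd_of_pos (relIndex_dvd_card H M) Nat.card_pos

lemma IsHall.fact_card {π : Set ℕ} {H M : Subgroup G} (h : IsHall π H M) {p : ℕ} (hp : p.Prime)
    (hpπ : p ∈ π) : (Nat.card H).factorization p = (Nat.card M).factorization p := by
  rw [← card_mul_relIndex h.1, Nat.factorization_mul Nat.card_pos.ne' (relIndex_pos' H M).ne',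
    Finsupp.add_apply, Nat.factorization_eq_zero_of_not_dvd (h.2.2 p hpπ hp), add_zero]

lemma IsHall.fact_card_not {π : Set ℕ} {H M : Subgroup G} (h : IsHall π H M) {p : ℕ}
    (hpπ : p ∉ π) : (Nat.card H).factorization p = 0 := by
  by_cases hp : p.Prime
  · exact Nat.factorization_eq_zero_of_not_dvd fun hd => hpπ (h.2.1 p hp hd)
  · exact Nat.factorization_eq_zero_of_not_prime _ hp

lemma isHall_iff_fact {π : Set ℕ} {H M : Subgroup G} (hle : H ≤ M)
    (h1 : ∀ p, p.Prime → p ∣ Nat.card H → p ∈ π)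
    (h2 : ∀ p ∈ π, p.Prime → (Nat.card M).factorization p ≤ (Nat.card H).factorization p) :
    IsHall π H M := by
  refine ⟨hle, h1, fun p hpπ hp hd => ?_⟩
  have h3 := h2 p hpπ hp
  rw [← card_mul_relIndex hle, Nat.factorization_mul Nat.card_pos.ne' (relIndex_pos' H M).ne',
    Finsupp.add_apply] at h3
  have := hp.factorization_pos_of_dvd (relIndex_pos' H M).ne' hd
  omega

lemma IsHall.card_eq_of_fact {π : Set ℕ} {H₁ M₁ H₂ M₂ : Subgroup G} (h₁ : IsHall π H₁ M₁)
    (h₂ : IsHall π H₂ M₂)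
    (h : ∀ p ∈ π, p.Prime → (Nat.card M₁).factorization p = (Nat.card M₂).factorization p) :
    Nat.card H₁ = Nat.card H₂ := by
  apply Nat.eq_of_factorization_eq Nat.card_pos.ne' Nat.card_pos.ne'
  intro p
  by_cases hpπ : p ∈ π
  · by_cases hp : p.Prime
    · rw [h₁.fact_card hp hpπ, h₂.fact_card hp hpπ, h p hpπ hp]
    · rw [Nat.factorization_eq_zero_of_not_prime _ hp, Nat.factorization_eq_zero_of_not_prime _ hp]
  · rw [h₁.fact_card_not hpπ, h₂.fact_card_not hpπ]

lemma IsHall.card_eq {π : Set ℕ} {H₁ H₂ M : Subgroup G} (h₁ : IsHall π H₁ M)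
    (h₂ : IsHall π H₂ M) : Nat.card H₁ = Nat.card H₂ :=
  h₁.card_eq_of_fact h₂ fun _ _ _ => rfl

/-- Hall subgroups of intermediate subgroups -/
lemma IsHall.mid {π : Set ℕ} {H N M : Subgroup G} (h : IsHall π H M) (h1 : H ≤ N) (h2 : N ≤ M) :
    IsHall π H N := by
  refine ⟨h1, h.2.1, fun p hpπ hp hd => h.2.2 p hpπ hp ?_⟩
  rw [← relIndex_mul_relIndex H N M h1 h2]
  exact hd.mul_right _

lemma IsHall.trans' {π : Set ℕ} {H N M : Subgroup G} (h : IsHall π H N) (h2 : N ≤ M)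
    (h3 : ∀ p ∈ π, p.Prime → ¬ p ∣ N.relIndex M) : IsHall π H M := by
  refine ⟨h.1.trans h2, h.2.1, fun p hpπ hp hd => ?_⟩
  rw [← relIndex_mul_relIndex H N M h.1 h2] at hd
  rcases hp.dvd_mul.mp hd with hd | hd
  · exact h.2.2 p hpπ hp hd
  · exact h3 p hpπ hp hd

/-- a Hall `ρ`-subgroup of a Hall `π`-subgroup with `ρ ⊆ π` -/
lemma IsHall.trans_subset {π ρ : Set ℕ} {H N M : Subgroup G} (h : IsHall ρ H N) (hN : IsHall π N M)
    (hρ : ρ ⊆ π) : IsHall ρ H M :=
  h.trans' hN.1 fun p hp hpp => hN.2.2 p (hρ hp) hpp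

lemma IsHall.eq_of_le {π : Set ℕ} {H U M : Subgroup G} (h : IsHall π H M) (hHU : H ≤ U)
    (hUM : U ≤ M) (hU : ∀ p, p.Prime → p ∣ Nat.card U → p ∈ π) : H = U := by
  have h1 : IsHall π U M := by
    refine ⟨hUM, hU, fun p hpπ hp hd => h.2.2 p hpπ hp ?_⟩
    exact hd.trans (relIndex_dvd_of_le_left M hHU)
  have h2 := h.card_eq h1
  exact Subgroup.eq_of_le_of_card_ge hHU h2.ge

/-- cover lemma -/
lemma relIndex_eq_of_cover {A B M : Subgroup G} (hAM : A ≤ M)
    (hc : ∀ m ∈ M, ∃ a ∈ A, a⁻¹ * m ∈ B) : B.relIndex M = B.relIndex A := by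
  have key : ∀ X : Subgroup G, B.relIndex X =
      (Set.ncard {y : G ⧸ B | ∃ m ∈ X, (m : G ⧸ B) = y}) := by
    intro X
    have h1 := MulAction.index_stabilizer X ((1 : G) : G ⧸ B)
    have h2 : MulAction.stabilizer X ((1 : G) : G ⧸ B) = B.subgroupOf X := by
      ext x
      rw [MulAction.mem_stabilizer_iff, mem_subgroupOf]
      change ((x : G) • ((1 : G) : G ⧸ B)) = _ ↔ _
      rw [MulAction.Quotient.smul_coe, smul_eq_mul, mul_one, eq_comm, QuotientGroup.eq]
      simp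
    rw [relIndex, ← h2, h1]
    congr 1
    ext y
    constructor
    · rintro ⟨x, rfl⟩
      refine ⟨x, x.2, ?_⟩
      change _ = ((x : G) • ((1 : G) : G ⧸ B))
      rw [MulAction.Quotient.smul_coe, smul_eq_mul, mul_one]
    · rintro ⟨m, hm, rfl⟩
      refine ⟨⟨m, hm⟩, ?_⟩
      change (m • ((1 : G) : G ⧸ B)) = _
      rw [MulAction.Quotient.smul_coe, smul_eq_mul, mul_one]
  rw [key, key]
  congr 1
  ext y
  constructor
  · rintro ⟨m, hm, rfl⟩
    obtain ⟨a, ha, hab⟩ := hc m hm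
    exact ⟨a, ha, by rw [QuotientGroup.eq]; exact hab⟩
  · rintro ⟨a, ha, rfl⟩
    exact ⟨a, hAM ha, rfl⟩

lemma mem_sup_normalizer {A B : Subgroup G} (h : A ≤ normalizer (B : Set G)) {x : G} :
    x ∈ A ⊔ B ↔ ∃ a ∈ A, ∃ b ∈ B, a * b = x := by
  rw [← SetLike.mem_coe, coe_mul_of_left_le_normalizer_right A B h]
  exact Set.mem_mul

/-- index of a normalised subgroup in the product -/
lemma relIndex_sup_normalizer {A B : Subgroup G} (h : A ≤ normalizer (B : Set G)) :
    B.relIndex (A ⊔ B) = B.relIndex A := by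
  apply relIndex_eq_of_cover le_sup_left
  intro m hm
  obtain ⟨a, ha, b, hb, rfl⟩ := (mem_sup_normalizer h).mp hm
  exact ⟨a, ha, by simpa using hb⟩

/-- for `C ≤ N` normalised by `N`, the index of `H ⊓ C` in `C` divides that of `H` in `N` -/
lemma relIndex_dvd_of_normalized {H C N : Subgroup G} (hC : C ≤ N) (hH : H ≤ N)
    (hn : N ≤ normalizer (C : Set G)) : H.relIndex C ∣ H.relIndex N := by
  have h1 : C.relIndex (H ⊔ C) = C.relIndex H := relIndex_sup_normalizer (hH.trans hn)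
  have h2 := card_mul_relIndex (le_sup_left : H ≤ H ⊔ C)
  have h3 := card_mul_relIndex (le_sup_right : C ≤ H ⊔ C)
  have h4 := card_mul_relIndex (inf_le_left : H ⊓ C ≤ H)
  have h5 := card_mul_relIndex (inf_le_right : H ⊓ C ≤ C)
  rw [inf_relIndex_left] at h4
  rw [inf_relIndex_right] at h5
  have h6 : H.relIndex (H ⊔ C) = H.relIndex C := by
    have h7 : Nat.card H * H.relIndex (H ⊔ C) = Nat.card H * H.relIndex C := by
      rw [h2, ← h3, h1, ← h5, ← h4]
      ring
    exact Nat.eq_of_mul_eq_mul_left Nat.card_pos h7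
  rw [← h6]
  have h8 := relIndex_mul_relIndex H (H ⊔ C) N le_sup_left (sup_le hH hC)
  exact Dvd.intro _ h8

lemma IsHall.inf_normal {π : Set ℕ} {H C N : Subgroup G} (h : IsHall π H N) (hC : C ≤ N)
    (hn : N ≤ normalizer (C : Set G)) : IsHall π (H ⊓ C) C := by
  refine ⟨inf_le_right, ?_, ?_⟩
  · intro p hp hd
    exact h.2.1 p hp (hd.trans (card_dvd_of_le inf_le_left))
  · intro p hpπ hp hd
    rw [inf_relIndex_right] at hd
    exact h.2.2 p hpπ hp (hd.trans (relIndex_dvd_of_normalized hC h.1 hn))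

/-! ### Sylow theory in relative form -/

lemma isPGroup_of_card {p : ℕ} {H : Subgroup G}
    (h : ∀ r, r.Prime → r ∣ Nat.card H → r ∈ ({p} : Set ℕ)) : IsPGroup p H := by
  apply IsPGroup.of_card (n := (Nat.card H).primeFactorsList.length)
  exact Nat.eq_prime_pow_of_unique_prime_dvd Nat.card_pos.ne' fun {r} hr hd => h r hr hd

lemma card_of_isPGroup {p : ℕ} (hp : p.Prime) {H : Subgroup G} (h : IsPGroup p H) :
    ∀ r, r.Prime → r ∣ Nat.card H → r ∈ ({p} : Set ℕ) := by
  intro r hr hd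
  have := Fact.mk hp
  obtain ⟨n, hn⟩ := IsPGroup.iff_card.mp h
  rw [hn] at hd
  exact (Nat.prime_dvd_prime_iff_eq hr hp).mp (hr.dvd_of_dvd_pow hd)

lemma exists_sylow {p : ℕ} (hp : p.Prime) {U M : Subgroup G} (hUM : U ≤ M)
    (hU : IsPGroup p U) : ∃ P, U ≤ P ∧ IsHall {p} P M := by
  have := Fact.mk hp
  have h1 : IsPGroup p (U.subgroupOf M) := by
    exact hU.of_equiv (subgroupOfEquivOfLe hUM).symm
  obtain ⟨P, hP⟩ := h1.exists_le_sylow
  refine ⟨(P : Subgroup M).map M.subtype, ?_, ?_, ?_, ?_⟩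
  · intro u hu
    exact ⟨⟨u, hUM hu⟩, hP hu, rfl⟩
  · exact map_subtype_le _
  · apply card_of_isPGroup hp
    exact P.2.map _
  · intro r hr _
    rw [Set.mem_singleton_iff] at hr
    subst hr
    have h2 : ((P : Subgroup M).map M.subtype).relIndex M = (P : Subgroup M).index := by
      rw [relIndex]
      congr 1
      exact comap_map_eq_self_of_injective M.subtype_injective _
    rw [h2]
    exact P.not_dvd_index

lemma sylow_conj {p : ℕ} (hp : p.Prime) {P Q M : Subgroup G} (hP : IsHall {p} P M)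
    (hQ : IsHall {p} Q M) : ∃ m ∈ M, cj m P = Q := by
  have := Fact.mk hp
  have hPp := isPGroup_of_card hP.2.1
  have hQp := isPGroup_of_card hQ.2.1
  have mk : ∀ R : Subgroup G, IsHall {p} R M → IsPGroup p R → ∃ S : Sylow p M,
      (S : Subgroup M) = R.subgroupOf M := by
    intro R hR hRp
    have h1 : IsPGroup p (R.subgroupOf M) := hRp.of_equiv (subgroupOfEquivOfLe hR.1).symm
    refine ⟨h1.toSylow ?_, rfl⟩
    exact hR.2.2 p rfl hp
  obtain ⟨S, hS⟩ := mk P hP hPp
  obtain ⟨T, hT⟩ := mk Q hQ hQp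
  obtain ⟨m, hm⟩ := MulAction.exists_smul_eq M S T
  refine ⟨m, m.2, ?_⟩
  have h2 : ((m • S : Sylow p M) : Subgroup M) = Q.subgroupOf M := by rw [hm, hT]
  rw [Sylow.coe_subgroup_smul, hS] at h2
  ext x
  rw [mem_cj]
  constructor
  · intro hx
    have hxM : x ∈ M := by
      have := M.mul_mem (M.mul_mem m.2 (hP.1 hx)) (M.inv_mem m.2)
      have e : (m : G) * ((m : G)⁻¹ * x * m) * (m : G)⁻¹ = x := by group
      rwa [e] at this
    have h3 : (⟨x, hxM⟩ : M) ∈ MulAut.conj m • P.subgroupOf M := by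
      rw [Subgroup.mem_pointwise_smul_iff_inv_smul_mem]
      rw [← MulAut.conj.map_inv]
      change (m : G)⁻¹ * x * ((m : G)⁻¹)⁻¹ ∈ P
      rw [inv_inv]; exact hx
    rw [h2] at h3
    exact h3
  · intro hx
    have h3 : (⟨x, hQ.1 hx⟩ : M) ∈ Q.subgroupOf M := hx
    rw [← h2, Subgroup.mem_pointwise_smul_iff_inv_smul_mem, ← MulAut.conj.map_inv] at h3
    change (m : G)⁻¹ * x * ((m : G)⁻¹)⁻¹ ∈ P at h3
    rwa [inv_inv] at h3

end Fin

end HallTab
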