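import Pool.Agent.Work.MP_15bafc_al.ZTransfer

/-!
# Lifting Hall subgroups over `π`-separable normal subgroups
-/

set_option linter.unusedSectionVars false

namespace HallTab

open Subgroup
open scoped Pointwise

universe u v

lemma PiNum.of_dvd {π : Set ℕ} {a b : ℕ} (h : PiNum π b) (hd : a ∣ b) : PiNum π a :=
  fun p hp hpa => h p hp (hpa.trans hd)

lemma PiNum'.of_dvd {π : Set ℕ} {a b : ℕ} (h : PiNum' π b) (hd : a ∣ b) : PiNum' π a :=
  fun p hp hpa => h p hp (hpa.trans hd)

lemma PiNum.mul {π : Set ℕ} {a b : ℕ} (ha : PiNum π a) (hb : PiNum π b) : PiNum π (a * b) := by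
  intro p hp hd
  rcases hp.dvd_mul.mp hd with h | h
  · exact ha p hp h
  · exact hb p hp h

lemma PiNum'.mul {π : Set ℕ} {a b : ℕ} (ha : PiNum' π a) (hb : PiNum' π b) :
    PiNum' π (a * b) := by
  intro p hp hd
  rcases hp.dvd_mul.mp hd with h | h
  · exact ha p hp h
  · exact hb p hp h

lemma eq_one_of_piNum {π : Set ℕ} {a : ℕ} (h : PiNum π a) (h' : PiNum' π a) : a = 1 := by
  by_contra hne
  obtain ⟨p, hp, hd⟩ := Nat.exists_prime_and_dvd hne
  exact h' p hp hd (h p hp hd)

lemma coprime_of_piNum {π : Set ℕ} {a b : ℕ} (h : PiNum π a) (h' : PiNum' π b) :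
    Nat.Coprime a b := by
  rw [Nat.coprime_iff_gcd_eq_one]
  exact eq_one_of_piNum (h.of_dvd (Nat.gcd_dvd_left _ _)) (h'.of_dvd (Nat.gcd_dvd_right _ _))

variable {G : Type u} [Group G]

/-- `H / L` is a Hall `π`-subgroup of `M / L` -/
def RHall (π : Set ℕ) (L H M : Subgroup G) : Prop :=
  L ≤ H ∧ H ≤ M ∧ PiNum π (L.relIndex H) ∧ PiNum' π (H.relIndex M)

section

variable [Finite G]

/-- the Schur–Zassenhaus step -/
lemma lift_core {π : Set ℕ} {M N H : Subgroup G} (hMN : M ≤ N) (hNH : N ≤ H)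
    (hM : H ≤ normalizer (M : Set G)) (hN : H ≤ normalizer (N : Set G))
    (hπ : PiNum' π (M.relIndex N)) (h1 : PiNum π (N.relIndex H)) :
    ∃ H₁, M ≤ H₁ ∧ H₁ ≤ H ∧ M.relIndex H₁ = N.relIndex H ∧ H₁.relIndex H = M.relIndex N := by
  have hMH : M ≤ H := hMN.trans hNH
  set M' := M.subgroupOf H with hM'
  set N' := N.subgroupOf H with hN'
  have nM : M'.Normal := by
    refine ⟨fun m hm g => ?_⟩
    exact (le_normalizer_iff.mp hM) g g.2 m hm
  have nN : N'.Normal := by
    refine ⟨fun m hm g => ?_⟩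
    exact (le_normalizer_iff.mp hN) g g.2 m hm
  have hMN' : M' ≤ N' := fun x hx => hMN hx
  set f := QuotientGroup.mk' M' with hf
  have hfs : Function.Surjective f := QuotientGroup.mk'_surjective M'
  have hker : f.ker = M' := QuotientGroup.ker_mk' M'
  set Nb := N'.map f with hNb
  have nNb : Nb.Normal := nN.map f hfs
  have hidx : Nb.index = N'.index := index_map_eq N' hfs (by rw [hker]; exact hMN')
  have hidxN : N'.index = N.relIndex H := rfl
  have hMidx : M'.relIndex N' = M.relIndex N := relIndex_subgroupOf hNH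
  have hcardNb : Nat.card Nb = M.relIndex N := by
    rw [← hMidx]
    have e1 : Nat.card Nb * Nb.index = Nat.card (H ⧸ M') := Nb.card_mul_index
    have e2 : Nat.card (H ⧸ M') = M'.index := rfl
    have e3 := relIndex_mul_index hMN'
    rw [e2, ← e3, hidx] at e1
    exact Nat.eq_of_mul_eq_mul_right (Nat.pos_of_ne_zero (by
      rw [← Nat.pos_iff_ne_zero]
      exact Nat.pos_of_dvd_of_pos N'.index_dvd_card Nat.card_pos)) e1
  have hcop : Nat.Coprime (Nat.card Nb) Nb.index := by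
    rw [hcardNb, hidx, hidxN]
    exact (coprime_of_piNum h1 hπ).symm
  obtain ⟨Kb, hKb⟩ := exists_right_complement'_of_coprime hcop
  set H₁' := Kb.comap f with hH₁'
  have hM'H₁ : M' ≤ H₁' := by
    rw [← hker]; exact MonoidHom.ker_le_comap f Kb
  have hidx1 : H₁'.index = Kb.index := index_comap_of_surjective Kb hfs
  have hidx2 : Kb.index = Nat.card Nb := hKb.index_eq_card
  have hrel : M'.relIndex H₁' = N'.index := by
    have e3 := relIndex_mul_index hMN'
    have e4 := relIndex_mul_index hM'H₁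
    rw [← e3, hidx1, hidx2, hcardNb, hMidx, mul_comm (M.relIndex N)] at e4
    exact Nat.eq_of_mul_eq_mul_right (relIndex_pos' M N) e4
  refine ⟨H₁'.map H.subtype, ?_, map_subtype_le _, ?_, ?_⟩
  · intro x hx
    exact ⟨⟨x, hMH hx⟩, hM'H₁ hx, rfl⟩
  · have e5 : M.relIndex (H₁'.map H.subtype) = M'.relIndex H₁' := by
      rw [hM', subgroupOf, relIndex_comap]
    rw [e5, hrel, hidxN]
  · have e6 : (H₁'.map H.subtype).relIndex H = H₁'.index := by
      rw [relIndex, subgroupOf, comap_map_eq_self_of_injective H.subtype_injective]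
    rw [e6, hidx1, hidx2, hcardNb]

/-- the Schur–Zassenhaus step, relative form -/
lemma lift_rel {π : Set ℕ} {M N H : Subgroup G} (hMN : M ≤ N) (hNH : N ≤ H)
    (hM : H ≤ normalizer (M : Set G)) (hN : H ≤ normalizer (N : Set G))
    (hπ : PiNum' π (M.relIndex N)) (h1 : PiNum π (N.relIndex H)) :
    ∃ H₁, RHall π M H₁ H := by
  obtain ⟨H₁, a1, a2, a3, a4⟩ := lift_core hMN hNH hM hN hπ h1
  exact ⟨H₁, a1, a2, by rw [a3]; exact h1, by rw [a4]; exact hπ⟩

lemma lift_step {π : Set ℕ} {M N H : Subgroup G} (hMN : M ≤ N) (hM : H ≤ normalizer (M : Set G))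
    (hN : H ≤ normalizer (N : Set G)) (hπ : PiNum' π (M.relIndex N))
    (hH : RHall π N H ⊤) : ∃ H₁, H₁ ≤ H ∧ RHall π M H₁ ⊤ := by
  obtain ⟨hNH, -, h1, h2⟩ := hH
  obtain ⟨H₁, a1, a2, a3, a4⟩ := lift_core hMN hNH hM hN hπ h1
  refine ⟨H₁, a2, a1, le_top, by rw [a3]; exact h1, ?_⟩
  rw [← relIndex_mul_relIndex H₁ H ⊤ a2 le_top, a4]
  exact hπ.mul h2

end

lemma PiLayered.normal {π : Set ℕ} {N : Subgroup G} (h : PiLayered π N) : N.Normal := by
  cases h with
  | bot => infer_instance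
  | step M N _ hN _ _ => exact hN

variable [Finite G]

/-- lifting over a normal section divisible by at most one prime of `π` -/
lemma lift_layer {π : Set ℕ} {M N H : Subgroup G} [hMn : M.Normal] [hNn : N.Normal] (hMN : M ≤ N)
    {q : ℕ} (hq : ∀ p, p.Prime → p ∣ M.relIndex N → p ∈ π → p = q) (hH : RHall π N H ⊤) :
    ∃ H₁, H₁ ≤ H ∧ RHall π M H₁ ⊤ := by
  by_cases hqp : q.Prime ∧ q ∈ π
  · obtain ⟨hqp, hqπ⟩ := hqp
    obtain ⟨hNH, -, h1, h2⟩ := hH
    obtain ⟨Q, -, hQ⟩ := exists_sylow hqp (bot_le : (⊥ : Subgroup G) ≤ N) IsPGroup.of_bot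
    set Q0 := Q ⊔ M with hQ0
    have hQ0N : Q0 ≤ N := sup_le hQ.1 hMN
    have hMQ0 : M ≤ Q0 := le_sup_right
    have hMQ : PiNum π (M.relIndex Q0) := by
      intro p hp hd
      rw [hQ0, relIndex_sup_normalizer le_normalizer_of_normal] at hd
      have := hQ.2.1 p hp (hd.trans (relIndex_dvd_card _ _))
      rw [Set.mem_singleton_iff] at this
      rw [this]; exact hqπ
    have hQN : PiNum' π (Q0.relIndex N) := by
      intro p hp hd hpπ
      have h3 : p ∣ M.relIndex N := by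
        rw [← relIndex_mul_relIndex M Q0 N hMQ0 hQ0N]; exact hd.mul_left _
      have h4 := hq p hp h3 hpπ
      subst h4
      exact hQ.2.2 p rfl hp (hd.trans (relIndex_dvd_of_le_left N le_sup_left))
    have hcN : ∀ x : G, cj x N = N := fun x =>
      cj_eq_iff_mem_normalizer.mpr (le_normalizer_of_normal (mem_top x : x ∈ (⊤ : Subgroup G)))
    have hcM : ∀ x : G, cj x M = M := fun x =>
      cj_eq_iff_mem_normalizer.mpr (le_normalizer_of_normal (mem_top x : x ∈ (⊤ : Subgroup G)))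
    -- Frattini
    have hfr : ∀ h : G, ∃ n ∈ N, cj n Q0 = cj h Q0 := by
      intro h
      have h3 : IsHall {q} (cj h Q) N := by
        have := hQ.cj h
        rwa [hcN] at this
      obtain ⟨n, hn, he⟩ := sylow_conj hqp hQ h3
      exact ⟨n, hn, by rw [hQ0, cj_sup, cj_sup, he, hcM, hcM]⟩
    set R := H ⊓ normalizer (Q0 : Set G) with hR
    set N1 := N ⊓ normalizer (Q0 : Set G) with hN1
    have hN1R : N1 ≤ R := inf_le_inf_right _ hNH
    have hRH : R ≤ H := inf_le_left
    have hRN : R ⊓ N = N1 := by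
      apply le_antisymm
      · rintro x ⟨hx, hxN⟩
        exact ⟨hxN, hx.2⟩
      · rintro x hx
        exact ⟨hN1R hx, hx.1⟩
    have hQN1 : Q0 ≤ N1 := le_inf hQ0N le_normalizer
    have hRHπ : PiNum' π (R.relIndex H) := by
      have h3 : R.relIndex H = R.relIndex N := by
        apply relIndex_eq_of_cover hNH
        intro h hh
        obtain ⟨n, hn, he⟩ := hfr h
        have hnz : n⁻¹ * h ∈ normalizer (Q0 : Set G) := by
          rw [← cj_eq_iff_mem_normalizer, ← cj_cj, ← he, cj_inv_cj]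
        exact ⟨n, hn, H.mul_mem (H.inv_mem (hNH hn)) hh, hnz⟩
      rw [h3, ← inf_relIndex_right, hRN]
      exact hQN.of_dvd (relIndex_dvd_of_le_left N hQN1)
    have hN1Rπ : PiNum π (N1.relIndex R) := by
      have h3 : N1.relIndex R = N.relIndex R := by
        rw [← hRN, inf_comm, inf_relIndex_right]
      rw [h3, ← relIndex_sup_normalizer (A := R) (B := N) le_normalizer_of_normal]
      refine h1.of_dvd ?_
      rw [← relIndex_mul_relIndex N (R ⊔ N) H le_sup_right (sup_le hRH hNH)]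
      exact Dvd.intro _ rfl
    have hR2 : RHall π N1 R ⊤ := by
      refine ⟨hN1R, le_top, hN1Rπ, ?_⟩
      rw [← relIndex_mul_relIndex R H ⊤ hRH le_top]
      exact hRHπ.mul h2
    obtain ⟨H₁, hH₁R, hH₁⟩ := lift_step (M := Q0) (N := N1) (H := R) hQN1 inf_le_right (by
      rw [le_normalizer_iff]
      intro g hg x hx
      exact ⟨hNn.conj_mem x hx.1 g, (normalizer (Q0 : Set G)).mul_mem
        ((normalizer (Q0 : Set G)).mul_mem hg.2 hx.2) ((normalizer (Q0 : Set G)).inv_mem hg.2)⟩)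
      (hQN.of_dvd (by
        rw [← relIndex_mul_relIndex Q0 N1 N hQN1 inf_le_left]; exact Dvd.intro _ rfl)) hR2
    refine ⟨H₁, hH₁R.trans hRH, hMQ0.trans hH₁.1, le_top, ?_, hH₁.2.2.2⟩
    rw [← relIndex_mul_relIndex M Q0 H₁ hMQ0 hH₁.1]
    exact hMQ.mul hH₁.2.2.1
  · refine lift_step hMN le_normalizer_of_normal le_normalizer_of_normal ?_ hH
    intro p hp hd hpπ
    have := hq p hp hd hpπ
    subst this
    exact hqp ⟨hp, hpπ⟩

/-- Hall subgroups lift over normal subgroups as in `PiLayered` -/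
lemma PiLayered.lift {π : Set ℕ} {N : Subgroup G} (h : PiLayered π N) :
    (∃ H, RHall π N H ⊤) → ∃ H : Subgroup G, RHall π ⊥ H ⊤ := by
  induction h with
  | bot => exact id
  | step M N hM hN hle hor ih =>
    rintro ⟨H, hH⟩
    apply ih
    have hMn := hM.normal
    rcases hor with hor | ⟨q, hq⟩
    · refine ⟨H, hle.trans hH.1, le_top, ?_, hH.2.2.2⟩
      rw [← relIndex_mul_relIndex M N H hle hH.1]
      exact hor.mul hH.2.2.1
    · obtain ⟨H₁, -, hH₁⟩ := lift_layer hle hq hH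
      exact ⟨H₁, hH₁⟩

end HallTab
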