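import Pool.Agent.Work.MP_15bafc_al.Blocks

/-!
# Groups with linked character tables
-/

namespace HallTab

universe u v

/-- a bijection of the irreducible characters such that every column of the first table is a column
of the second one and vice versa -/
structure Link (G : Type u) (K : Type v) [Group G] [Group K] where
  /-- the bijection of the irreducible characters -/
  Φ : Irr G ≃ Irr K
  tot : ∀ g : G, ∃ k : K, ∀ χ : Irr G, χ.1 g = (Φ χ).1 k
  tot' : ∀ k : K, ∃ g : G, ∀ χ : Irr G, χ.1 g = (Φ χ).1 k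

namespace Link

variable {G : Type u} {K : Type v} [Group G] [Group K]

/-- the relation of having the same column -/
def R (L : Link G K) (g : G) (k : K) : Prop := ∀ χ : Irr G, χ.1 g = (L.Φ χ).1 k

/-- the reversed link -/
def symm (L : Link G K) : Link K G where
  Φ := L.Φ.symm
  tot k := by
    obtain ⟨g, hg⟩ := L.tot' k
    refine ⟨g, fun χ => ?_⟩
    have := hg (L.Φ.symm χ)
    rw [Equiv.apply_symm_apply] at this
    exact this.symm
  tot' g := by
    obtain ⟨k, hk⟩ := L.tot g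
    refine ⟨k, fun χ => ?_⟩
    have := hk (L.Φ.symm χ)
    rw [Equiv.apply_symm_apply] at this
    exact this.symm

lemma R_symm {L : Link G K} {g : G} {k : K} (h : L.R g k) : L.symm.R k g := by
  intro χ
  have := h (L.Φ.symm χ)
  rw [Equiv.apply_symm_apply] at this
  exact this.symm

lemma symm_R {L : Link G K} {g : G} {k : K} (h : L.symm.R k g) : L.R g k := by
  intro χ
  have := h (L.Φ χ)
  simp only [symm, Equiv.symm_apply_apply] at this
  exact this.symm

section

variable (L : Link G K)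

lemma R_conj_left {g : G} {k : K} (h : L.R g k) (u : G) : L.R (u * g * u⁻¹) k := by
  intro χ; rw [χ.2.conj_inv]; exact h χ

lemma R_conj_right {g : G} {k : K} (h : L.R g k) (u : K) : L.R g (u * k * u⁻¹) := by
  intro χ; rw [(L.Φ χ).2.conj_inv]; exact h χ

lemma conj_right [Finite K] {g g' : G} {k k' : K} (h : L.R g k) (h' : L.R g' k')
    (hc : ∃ u, u * g * u⁻¹ = g') : ∃ u, u * k * u⁻¹ = k' := by
  obtain ⟨u, rfl⟩ := hc
  apply conj_of_char_eq
  intro χ hχ
  have h1 := h (L.Φ.symm ⟨χ, hχ⟩)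
  have h2 := h' (L.Φ.symm ⟨χ, hχ⟩)
  rw [Equiv.apply_symm_apply] at h1 h2
  rw [(L.Φ.symm ⟨χ, hχ⟩).2.conj_inv, h1] at h2
  exact h2.symm

lemma conj_left [Finite G] {g g' : G} {k k' : K} (h : L.R g k) (h' : L.R g' k')
    (hc : ∃ u, u * k * u⁻¹ = k') : ∃ u, u * g * u⁻¹ = g' :=
  L.symm.conj_right (R_symm h) (R_symm h') hc

lemma conj_iff [Finite G] [Finite K] {g g' : G} {k k' : K} (h : L.R g k) (h' : L.R g' k') :
    (∃ u, u * g * u⁻¹ = g') ↔ ∃ u, u * k * u⁻¹ = k' :=
  ⟨L.conj_right h h', L.conj_left h h'⟩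

lemma R_one [Finite G] [Finite K] : L.R 1 1 := by
  obtain ⟨k, hk⟩ := L.tot 1
  obtain ⟨g, hg⟩ := L.tot' 1
  have h1 : ∀ χ : Irr G, (L.Φ χ).1 k = (L.Φ χ).1 1 := by
    intro χ
    have hG : 0 < Nat.card G := Nat.card_pos
    have hK : 0 < Nat.card K := Nat.card_pos
    have a1 : (χ.1 g).re ≤ (χ.1 1).re := χ.2.re_le hG (pow_card_eq_one')
    have a2 : ((L.Φ χ).1 k).re ≤ ((L.Φ χ).1 1).re := (L.Φ χ).2.re_le hK (pow_card_eq_one')
    rw [← hk χ] at a2
    rw [hg χ] at a1
    obtain ⟨d, hd⟩ := χ.2.deg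
    obtain ⟨d', hd'⟩ := (L.Φ χ).2.deg
    rw [← hk χ, hd, hd']
    rw [hd, hd'] at a1 a2
    have : (d : ℝ) = d' := by
      have b1 : (d' : ℝ) ≤ d := by simpa using a1
      have b2 : (d : ℝ) ≤ d' := by simpa using a2
      linarith
    exact_mod_cast this
  intro χ
  rw [hk χ, h1 χ]

include L in
lemma card_eq [Finite G] [Finite K] : Nat.card G = Nat.card K := by
  classical
  have := Fintype.ofFinite G
  have := Fintype.ofFinite K
  have := Fintype.ofFinite (Irr G)
  have := Fintype.ofFinite (Irr K)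
  have h1 := orth2 (1 : G) 1
  have h2 := orth2 (1 : K) 1
  rw [← Equiv.sum_comp L.Φ] at h2
  simp only [inv_one] at h1 h2
  have h3 : ∑ χ : Irr G, (L.Φ χ).1 1 * (L.Φ χ).1 1 = ∑ χ : Irr G, χ.1 1 * χ.1 1 :=
    Finset.sum_congr rfl fun χ _ => by rw [L.R_one χ]
  rw [h3] at h2
  have h4 := h1.symm.trans h2
  have h5 : Nat.card {u : G // u * 1 * u⁻¹ = 1} = Nat.card {u : K // u * 1 * u⁻¹ = 1} := by
    exact_mod_cast h4
  have e1 : Nat.card {u : G // u * 1 * u⁻¹ = 1} = Nat.card G :=
    Nat.card_congr (Equiv.subtypeUnivEquiv fun u => by simp)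
  have e2 : Nat.card {u : K // u * 1 * u⁻¹ = 1} = Nat.card K :=
    Nat.card_congr (Equiv.subtypeUnivEquiv fun u => by simp)
  rw [← e1, ← e2, h5]

lemma R_pow [Finite G] [Finite K] {g : G} {k : K} (h : L.R g k) {n : ℕ} (hn : 0 < n)
    (hg : g ^ n = 1) (hk : k ^ n = 1) {j : ℕ} (hj : j.Coprime n) : L.R (g ^ j) (k ^ j) :=
  fun χ => χ.2.galois (L.Φ χ).2 hn hg hk (h χ) hj

include L in
lemma pow_cardK [Finite G] [Finite K] (k : K) : k ^ Nat.card G = 1 := by
  rw [L.card_eq]; exact pow_card_eq_one'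

lemma R_inv [Finite G] [Finite K] {g : G} {k : K} (h : L.R g k) : L.R g⁻¹ k⁻¹ := by
  have hG : 0 < Nat.card G := Nat.card_pos
  have hc : (Nat.card G - 1).Coprime (Nat.card G) := by
    have := Nat.coprime_self_sub_left (m := 1) (n := Nat.card G) hG
    rw [this]; exact Nat.coprime_one_left _
  have := L.R_pow h hG pow_card_eq_one' (L.pow_cardK k) hc
  have e1 : g ^ (Nat.card G - 1) = g⁻¹ := by
    apply eq_inv_of_mul_eq_one_left
    rw [← pow_succ, Nat.sub_add_cancel hG, pow_card_eq_one']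
  have e2 : k ^ (Nat.card G - 1) = k⁻¹ := by
    apply eq_inv_of_mul_eq_one_left
    rw [← pow_succ, Nat.sub_add_cancel hG, L.pow_cardK]
  rwa [e1, e2] at this

/-- orders of centralisers agree -/
lemma card_cent [Finite G] [Finite K] {g : G} {k : K} (h : L.R g k) :
    Nat.card (Subgroup.centralizer ({g} : Set G)) = Nat.card (Subgroup.centralizer ({k} : Set K)) := by
  classical
  have := Fintype.ofFinite G
  have := Fintype.ofFinite K
  have := Fintype.ofFinite (Irr G)
  have := Fintype.ofFinite (Irr K)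
  have h1 := orth2 g g
  have h2 := orth2 k k
  rw [← Equiv.sum_comp L.Φ] at h2
  have h3 : ∑ χ : Irr G, (L.Φ χ).1 k * (L.Φ χ).1 k⁻¹ = ∑ χ : Irr G, χ.1 g * χ.1 g⁻¹ :=
    Finset.sum_congr rfl fun χ _ => by rw [h χ, L.R_inv h χ]
  rw [h3] at h2
  have h4 := h1.symm.trans h2
  have h5 : Nat.card {u : G // u * g * u⁻¹ = g} = Nat.card {u : K // u * k * u⁻¹ = k} := by
    exact_mod_cast h4
  have e1 : Nat.card {u : G // u * g * u⁻¹ = g} = Nat.card (Subgroup.centralizer ({g} : Set G)) := by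
    refine Nat.card_congr (Equiv.subtypeEquivRight fun w => ?_)
    rw [Subgroup.mem_centralizer_singleton_iff, mul_inv_eq_iff_eq_mul]
  have e2 : Nat.card {u : K // u * k * u⁻¹ = k} = Nat.card (Subgroup.centralizer ({k} : Set K)) := by
    refine Nat.card_congr (Equiv.subtypeEquivRight fun w => ?_)
    rw [Subgroup.mem_centralizer_singleton_iff, mul_inv_eq_iff_eq_mul]
  rw [← e1, ← e2, h5]

lemma cong_right {F : Type} [Field F] (φ : AlgInt →+* F) {g g' : G} {k k' : K} (h : L.R g k)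
    (h' : L.R g' k') (hc : Cong φ g g') : Cong φ k k' := by
  intro χ hχ
  have h1 := h (L.Φ.symm ⟨χ, hχ⟩)
  have h2 := h' (L.Φ.symm ⟨χ, hχ⟩)
  rw [Equiv.apply_symm_apply] at h1 h2
  have h3 := hc _ (L.Φ.symm ⟨χ, hχ⟩).2
  rw [h1, h2] at h3
  exact h3

/-- conjugacy of `q'`-parts is respected -/
lemma conj_qpart_right [Finite G] [Finite K] {q : ℕ} (hq : q.Prime) {g g' : G} {k k' : K}
    (h : L.R g k) (h' : L.R g' k')
    (hc : ∃ w : G, w * g ^ qexp q (Nat.card G) * w⁻¹ = g' ^ qexp q (Nat.card G)) :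
    ∃ w : K, w * k ^ qexp q (Nat.card G) * w⁻¹ = k' ^ qexp q (Nat.card G) := by
  obtain ⟨F, _, _, ⟨φ⟩⟩ := exists_red q hq
  have : Fact q.Prime := ⟨hq⟩
  have hG : 0 < Nat.card G := Nat.card_pos
  have h1 : Cong φ g g' := cong_of_conj_qpart φ q hG pow_card_eq_one' pow_card_eq_one' hc
  have h2 := L.cong_right φ h h' h1
  exact conj_qpart φ q hG (L.pow_cardK k) (L.pow_cardK k') h2

/-- Higman: `p'`-elements correspond to `p'`-elements -/
lemma regular_right [Finite G] [Finite K] {p : ℕ} (hp : p.Prime) :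
    ∀ (s : ℕ) (g : G) (k : K), L.R g k → (orderOf g).primeFactors.card = s → ¬ p ∣ orderOf g →
      ¬ p ∣ orderOf k := by
  intro s
  have hG0 : Nat.card G ≠ 0 := Nat.card_pos.ne'
  induction s with
  | zero =>
    intro g k h hs hpg
    have h1 : orderOf g = 1 := by
      have h2 := Finset.card_eq_zero.mp hs
      rcases Nat.primeFactors_eq_empty.mp h2 with h3 | h3
      · exact absurd h3 (orderOf_pos g).ne'
      · exact h3
    have h2 : g = 1 := orderOf_eq_one_iff.mp h1
    subst h2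
    obtain ⟨u, hu⟩ := L.conj_right L.R_one h ⟨1, by simp⟩
    have : k = 1 := by rw [← hu]; simp
    subst this
    simpa using hp.one_lt.ne'
  | succ s ih =>
    intro g k h hs hpg
    have hne : (orderOf g).primeFactors.Nonempty := by
      rw [← Finset.card_pos, hs]; omega
    obtain ⟨q, hq⟩ := hne
    have hqp : q.Prime := Nat.prime_of_mem_primeFactors hq
    have hqd : q ∣ orderOf g := Nat.dvd_of_mem_primeFactors hq
    have hqne : q ≠ p := by rintro rfl; exact hpg hqd
    set e := qexp q (Nat.card G) with he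
    have hge : (g ^ e) ^ (ordCompl[q] (Nat.card G)) = 1 := pow_qexp hG0 pow_card_eq_one'
    have hqc : ¬ q ∣ ordCompl[q] (Nat.card G) := Nat.not_dvd_ordCompl hqp hG0
    have hqe : ¬ q ∣ orderOf (g ^ e) := fun hd =>
      hqc (hd.trans (orderOf_dvd_of_pow_eq_one hge))
    have hdv : orderOf (g ^ e) ∣ orderOf g := orderOf_pow_dvd e
    have hsub : (orderOf (g ^ e)).primeFactors = (orderOf g).primeFactors.erase q := by
      ext r
      rw [Finset.mem_erase]
      constructor
      · intro hr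
        refine ⟨?_, Nat.primeFactors_mono hdv (orderOf_pos g).ne' hr⟩
        rintro rfl
        exact hqe (Nat.dvd_of_mem_primeFactors hr)
      · rintro ⟨hrq, hr⟩
        have hrp := Nat.prime_of_mem_primeFactors hr
        refine Nat.mem_primeFactors.mpr ⟨hrp, ?_, (orderOf_pos _).ne'⟩
        rw [orderOf_pow]
        have hgc : Nat.Coprime r (Nat.gcd (orderOf g) e) := by
          apply Nat.Coprime.coprime_dvd_right (Nat.gcd_dvd_right _ _)
          rw [he, qexp]
          exact Nat.Coprime.pow_right _ ((Nat.coprime_primes hrp hqp).mpr hrq)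
        have hd : r ∣ Nat.gcd (orderOf g) e * (orderOf g / Nat.gcd (orderOf g) e) := by
          rw [Nat.mul_div_cancel' (Nat.gcd_dvd_left _ _)]
          exact Nat.dvd_of_mem_primeFactors hr
        exact hgc.dvd_of_dvd_mul_left hd
    have hcard : (orderOf (g ^ e)).primeFactors.card = s := by
      rw [hsub, Finset.card_erase_of_mem hq, hs]; rfl
    obtain ⟨k1, hk1⟩ := L.tot (g ^ e)
    have hpk1 := ih (g ^ e) k1 hk1 hcard (fun hd => hpg (hd.trans hdv))
    obtain ⟨w, hw⟩ := L.conj_qpart_right hqp h hk1 ⟨1, by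
      rw [one_mul, inv_one, mul_one, pow_qexp_self hqp hG0 hge]⟩
    intro hpk
    apply hpk1
    have h5 : orderOf (k ^ e) = orderOf (k1 ^ e) := by
      rw [← hw]; exact (MulAut.conj w).orderOf_eq (k ^ e) |>.symm
    have h6 : p ∣ orderOf (k ^ e) := by
      rw [orderOf_pow]
      have hgc : Nat.Coprime p (Nat.gcd (orderOf k) e) := by
        apply Nat.Coprime.coprime_dvd_right (Nat.gcd_dvd_right _ _)
        rw [he, qexp]
        exact Nat.Coprime.pow_right _ ((Nat.coprime_primes hp hqp).mpr hqne.symm)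
      have hd : p ∣ Nat.gcd (orderOf k) e * (orderOf k / Nat.gcd (orderOf k) e) := by
        rw [Nat.mul_div_cancel' (Nat.gcd_dvd_left _ _)]
        exact hpk
      exact hgc.dvd_of_dvd_mul_left hd
    rw [h5] at h6
    exact h6.trans (orderOf_pow_dvd e)

/-- the primes dividing the orders of elements in corresponding classes agree -/
theorem prime_dvd_iff [Finite G] [Finite K] {p : ℕ} (hp : p.Prime) {g : G} {k : K} (h : L.R g k) :
    p ∣ orderOf g ↔ p ∣ orderOf k := by
  constructor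
  · intro h1
    by_contra h2
    exact L.symm.regular_right hp _ k g (R_symm h) rfl h2 h1
  · intro h1
    by_contra h2
    exact L.regular_right hp _ g k h rfl h2 h1

/-- `q'`-parts correspond -/
theorem R_qpart [Finite G] [Finite K] {q : ℕ} (hq : q.Prime) {g : G} {k : K} (h : L.R g k) :
    L.R (g ^ qexp q (Nat.card G)) (k ^ qexp q (Nat.card G)) := by
  have hG0 : Nat.card G ≠ 0 := Nat.card_pos.ne'
  set e := qexp q (Nat.card G) with he
  have hge : (g ^ e) ^ (ordCompl[q] (Nat.card G)) = 1 := pow_qexp hG0 pow_card_eq_one'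
  have hqc : ¬ q ∣ ordCompl[q] (Nat.card G) := Nat.not_dvd_ordCompl hq hG0
  have hqe : ¬ q ∣ orderOf (g ^ e) := fun hd => hqc (hd.trans (orderOf_dvd_of_pow_eq_one hge))
  obtain ⟨k1, hk1⟩ := L.tot (g ^ e)
  have hqk1 : ¬ q ∣ orderOf k1 := fun hd => hqe ((L.prime_dvd_iff hq hk1).mpr hd)
  obtain ⟨w, hw⟩ := L.conj_qpart_right hq h hk1 ⟨1, by
      rw [one_mul, inv_one, mul_one, pow_qexp_self hq hG0 hge]⟩
  have hk1e : k1 ^ e = k1 := by
    apply pow_qexp_self hq hG0
    apply orderOf_dvd_iff_pow_eq_one.mp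
    have h1 : orderOf k1 ∣ Nat.card G := orderOf_dvd_of_pow_eq_one (L.pow_cardK k1)
    rw [← Nat.ordProj_mul_ordCompl_eq_self (Nat.card G) q] at h1
    refine Nat.Coprime.dvd_of_dvd_mul_left ?_ h1
    exact Nat.Coprime.pow_right _ ((Nat.Prime.coprime_iff_not_dvd hq).mpr hqk1).symm
  rw [hk1e] at hw
  have h2 : k ^ e = w⁻¹ * k1 * (w⁻¹)⁻¹ := by
    rw [← hw, he]; simp only [mul_assoc, inv_inv, inv_mul_cancel_left, inv_mul_cancel, mul_one]
  rw [h2]
  exact L.R_conj_right hk1 _

end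

end Link

end HallTab
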