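import Pool.Agent.Work.MP_15bafc_al.Link

/-!
# Quotients
-/

set_option linter.unusedSectionVars false

open Representation

namespace HallTab

universe u v

section Pull

variable {G : Type u} {H : Type v} [Group G] [Group H] {V : Type*} [AddCommGroup V] [Module ℂ V]

/-- pullback of a representation -/
noncomputable def pull (ρ : Representation ℂ H V) (f : G →* H) : Representation ℂ G V :=
  MonoidHom.comp ρ f

/-- the pullback of a representation along a surjection has the same subrepresentations -/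
noncomputable def pullIso (ρ : Representation ℂ H V) (f : G →* H) (hf : Function.Surjective f) :
    Subrepresentation ρ ≃o Subrepresentation (pull ρ f) where
  toFun S := ⟨S.toSubmodule, fun g _ hv => S.apply_mem_toSubmodule (f g) hv⟩
  invFun S := ⟨S.toSubmodule, by
    intro h v hv
    obtain ⟨g, rfl⟩ := hf h
    exact S.apply_mem_toSubmodule g hv⟩
  left_inv S := rfl
  right_inv S := rfl
  map_rel_iff' := by rfl

lemma isIrreducible_pull (ρ : Representation ℂ H V) (f : G →* H) (hf : Function.Surjective f) :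
    (pull ρ f).IsIrreducible ↔ ρ.IsIrreducible :=
  (pullIso ρ f hf).isSimpleOrder_iff.symm

end Pull

section Infl

variable {G : Type u} [Group G] (N : Subgroup G) [N.Normal]

lemma isIrrChar_infl {χ : G ⧸ N → ℂ} (h : IsIrrChar χ) :
    IsIrrChar (fun g : G => χ (g : G ⧸ N)) := by
  obtain ⟨n, ρ, h1, h2⟩ := h
  refine ⟨n, pull ρ (QuotientGroup.mk' N),
    (isIrreducible_pull ρ _ (QuotientGroup.mk'_surjective N)).mpr h1, fun g => ?_⟩
  exact h2 _

lemma isIrrChar_defl [Finite G] {χ : G → ℂ} (h : IsIrrChar χ) (hN : ∀ n ∈ N, χ n = χ 1) :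
    ∃ ψ : G ⧸ N → ℂ, IsIrrChar ψ ∧ ∀ g : G, ψ (g : G ⧸ N) = χ g := by
  obtain ⟨n, ρ, h1, h2⟩ := h
  have hker : N ≤ ρ.ker := by
    intro g hg
    rw [MonoidHom.mem_ker]
    apply ker_of_trace ρ (n := Nat.card G) Nat.card_pos pow_card_eq_one'
    rw [← h2, ← h2, hN g hg]
  let σ : Representation ℂ (G ⧸ N) (Fin n → ℂ) := QuotientGroup.lift N ρ hker
  have hσ : pull σ (QuotientGroup.mk' N) = ρ := by
    apply MonoidHom.ext
    intro g; rfl
  refine ⟨σ.character, ⟨n, σ, ?_, fun g => rfl⟩, fun g => ?_⟩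
  · rw [← isIrreducible_pull σ _ (QuotientGroup.mk'_surjective N), hσ]
    exact h1
  · rw [h2]
    rfl

/-- inflation as a map -/
def infl (χ : Irr (G ⧸ N)) : Irr G := ⟨fun g => χ.1 (g : G ⧸ N), isIrrChar_infl N χ.2⟩

lemma infl_injective : Function.Injective (infl N) := by
  intro χ ψ h
  apply Subtype.ext
  funext x
  obtain ⟨g, rfl⟩ := QuotientGroup.mk_surjective x
  exact congrFun (congrArg Subtype.val h) g

lemma infl_range [Finite G] (χ : Irr G) : (∃ ψ, infl N ψ = χ) ↔ ∀ n ∈ N, χ.1 n = χ.1 1 := by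
  constructor
  · rintro ⟨ψ, rfl⟩ n hn
    change ψ.1 (n : G ⧸ N) = ψ.1 ((1 : G) : G ⧸ N)
    have h1 : (n : G ⧸ N) = ((1 : G) : G ⧸ N) := by
      rw [QuotientGroup.eq]
      simpa using hn
    rw [h1]
  · intro h
    obtain ⟨ψ, h1, h2⟩ := isIrrChar_defl N χ.2 h
    exact ⟨⟨ψ, h1⟩, Subtype.ext (funext h2)⟩

/-- a normal subgroup is the intersection of the kernels of the characters containing it -/
lemma mem_iff_forall [Finite G] (g : G) :
    g ∈ N ↔ ∀ χ : Irr G, (∀ n ∈ N, χ.1 n = χ.1 1) → χ.1 g = χ.1 1 := by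
  constructor
  · intro hg χ hχ
    exact hχ g hg
  · intro h
    have h1 : ∀ ψ : G ⧸ N → ℂ, IsIrrChar ψ → ψ (g : G ⧸ N) = ψ ((1 : G) : G ⧸ N) := by
      intro ψ hψ
      exact h (infl N ⟨ψ, hψ⟩) ((infl_range N _).mp ⟨_, rfl⟩)
    obtain ⟨u, hu⟩ := conj_of_char_eq h1
    have h2 : (g : G ⧸ N) = 1 := by
      rw [← hu]
      simp
    exact (QuotientGroup.eq_one_iff g).mp h2

end Infl

namespace Link

variable {G : Type u} {K : Type v} [Group G] [Group K] [Finite G] [Finite K] (L : Link G K)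

/-- the normal subgroup of `K` corresponding to a normal subgroup of `G` -/
def im (N : Subgroup G) : Subgroup K where
  carrier := {k | ∀ χ : Irr G, (∀ n ∈ N, χ.1 n = χ.1 1) → (L.Φ χ).1 k = (L.Φ χ).1 1}
  mul_mem' := by
    intro a b ha hb χ hχ
    obtain ⟨n, ρ, -, h2⟩ := (L.Φ χ).2
    have ka := ker_of_trace ρ (n := Nat.card K) (g := a) Nat.card_pos pow_card_eq_one'
      (by rw [← h2, ← h2]; exact ha χ hχ)
    have kb := ker_of_trace ρ (n := Nat.card K) (g := b) Nat.card_pos pow_card_eq_one'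
      (by rw [← h2, ← h2]; exact hb χ hχ)
    have h3 : ρ (a * b) = ρ 1 := by rw [map_mul, ka, kb, map_one, one_mul]
    rw [h2, h2, character, character, h3]
  one_mem' := fun _ _ => rfl
  inv_mem' := by
    intro a ha χ hχ
    obtain ⟨n, ρ, -, h2⟩ := (L.Φ χ).2
    have ka := ker_of_trace ρ (n := Nat.card K) (g := a) Nat.card_pos pow_card_eq_one'
      (by rw [← h2, ← h2]; exact ha χ hχ)
    have kinv : ρ a⁻¹ = 1 := by
      have h3 : ρ a⁻¹ * ρ a = 1 := by rw [← map_mul, inv_mul_cancel, map_one]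
      rwa [ka, mul_one] at h3
    have h4 : ρ a⁻¹ = ρ 1 := by rw [kinv, map_one]
    rw [h2, h2, character, character, h4]

lemma mem_im {N : Subgroup G} {k : K} : k ∈ L.im N ↔
    ∀ χ : Irr G, (∀ n ∈ N, χ.1 n = χ.1 1) → (L.Φ χ).1 k = (L.Φ χ).1 1 := Iff.rfl

instance im_normal (N : Subgroup G) : (L.im N).Normal where
  conj_mem := by
    intro k hk g χ hχ
    rw [(L.Φ χ).2.conj_inv]
    exact hk χ hχ

lemma mem_im_iff {N : Subgroup G} [N.Normal] {g : G} {k : K} (h : L.R g k) :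
    g ∈ N ↔ k ∈ L.im N := by
  rw [mem_iff_forall, mem_im]
  refine forall_congr' fun χ => imp_congr_right fun _ => ?_
  rw [h χ, L.R_one χ]

/-- characters containing corresponding normal subgroups in their kernels correspond -/
lemma ker_iff {N : Subgroup G} [N.Normal] (χ : Irr G) :
    (∀ n ∈ N, χ.1 n = χ.1 1) ↔ ∀ k ∈ L.im N, (L.Φ χ).1 k = (L.Φ χ).1 1 := by
  constructor
  · intro h k hk
    exact hk χ h
  · intro h n hn
    obtain ⟨k, hk⟩ := L.tot n
    have h1 := h k ((L.mem_im_iff hk).mp hn)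
    rw [hk χ, h1, L.R_one χ]

lemma exists_quot (N : Subgroup G) [N.Normal] (χ : Irr (G ⧸ N)) :
    ∃ ψ : Irr (K ⧸ L.im N), infl (L.im N) ψ = L.Φ (infl N χ) :=
  (infl_range (L.im N) (L.Φ (infl N χ))).mpr
    ((L.ker_iff (infl N χ)).mp ((infl_range N _).mp ⟨χ, rfl⟩))

/-- the map on characters of quotients -/
noncomputable def quotFun (N : Subgroup G) [N.Normal] (χ : Irr (G ⧸ N)) : Irr (K ⧸ L.im N) :=
  Classical.choose (L.exists_quot N χ)

lemma quotFun_spec (N : Subgroup G) [N.Normal] (χ : Irr (G ⧸ N)) :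
    infl (L.im N) (L.quotFun N χ) = L.Φ (infl N χ) :=
  Classical.choose_spec (L.exists_quot N χ)

lemma quotFun_bijective (N : Subgroup G) [N.Normal] : Function.Bijective (L.quotFun N) := by
  constructor
  · intro χ ψ h
    have h1 := L.quotFun_spec N χ
    rw [h, L.quotFun_spec N ψ] at h1
    exact (infl_injective N (L.Φ.injective h1)).symm
  · intro θ
    have h1 : ∀ n ∈ N, (L.Φ.symm (infl (L.im N) θ)).1 n = (L.Φ.symm (infl (L.im N) θ)).1 1 := by
      rw [L.ker_iff, Equiv.apply_symm_apply]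
      exact (infl_range (L.im N) _).mp ⟨θ, rfl⟩
    obtain ⟨χ, hχ⟩ := (infl_range N _).mpr h1
    refine ⟨χ, infl_injective (L.im N) ?_⟩
    rw [L.quotFun_spec, hχ, Equiv.apply_symm_apply]

/-- the characters of the quotients correspond -/
noncomputable def quotEquiv (N : Subgroup G) [N.Normal] : Irr (G ⧸ N) ≃ Irr (K ⧸ L.im N) :=
  Equiv.ofBijective (L.quotFun N) (L.quotFun_bijective N)

lemma quotEquiv_spec (N : Subgroup G) [N.Normal] (χ : Irr (G ⧸ N)) :
    infl (L.im N) (L.quotEquiv N χ) = L.Φ (infl N χ) :=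
  L.quotFun_spec N χ

/-- the link between the quotients -/
noncomputable def quot (N : Subgroup G) [N.Normal] : Link (G ⧸ N) (K ⧸ L.im N) where
  Φ := L.quotEquiv N
  tot x := by
    obtain ⟨g, rfl⟩ := QuotientGroup.mk_surjective x
    obtain ⟨k, hk⟩ := L.tot g
    refine ⟨(k : K ⧸ L.im N), fun χ => ?_⟩
    have h1 := hk (infl N χ)
    rw [← L.quotEquiv_spec N χ] at h1
    exact h1
  tot' x := by
    obtain ⟨k, rfl⟩ := QuotientGroup.mk_surjective x
    obtain ⟨g, hg⟩ := L.tot' k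
    refine ⟨(g : G ⧸ N), fun χ => ?_⟩
    have h1 := hg (infl N χ)
    rw [← L.quotEquiv_spec N χ] at h1
    exact h1

lemma card_im (N : Subgroup G) [N.Normal] : Nat.card (L.im N) = Nat.card N := by
  have h1 := (L.quot N).card_eq
  have h2 := L.card_eq
  have h3 := Subgroup.card_eq_card_quotient_mul_card_subgroup N
  have h4 := Subgroup.card_eq_card_quotient_mul_card_subgroup (L.im N)
  rw [← h2, h3, h1] at h4
  exact (Nat.eq_of_mul_eq_mul_left Nat.card_pos h4).symm

lemma im_mono {N₁ N₂ : Subgroup G} [N₁.Normal] [N₂.Normal] (h : N₁ ≤ N₂) : L.im N₁ ≤ L.im N₂ := by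
  intro k hk
  obtain ⟨g, hg⟩ := L.tot' k
  exact (L.mem_im_iff hg).mp (h ((L.mem_im_iff hg).mpr hk))

lemma im_bot : L.im (⊥ : Subgroup G) = ⊥ := by
  rw [← Subgroup.card_eq_one, L.card_im, Subgroup.card_bot]

/-- going back and forth -/
lemma im_symm_im (N : Subgroup G) [N.Normal] : L.symm.im (L.im N) = N := by
  ext g
  obtain ⟨k, hk⟩ := L.tot g
  rw [← L.symm.mem_im_iff (R_symm hk), ← L.mem_im_iff hk]

end Link

end HallTab
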