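import Pool.Agent.Work.MP_15bafc_al.ClassZ

/-!
# Groups with a normal subgroup of prime power index all of whose Sylow subgroups are cyclic
-/

set_option linter.unusedSectionVars false

namespace HallTab

open Subgroup
open scoped Pointwise

universe u v

section

variable {X : Type u} [Group X] [Finite X]

/-- a Z-group contains a characteristic cyclic self-centralising subgroup -/
lemma exists_fitting (A : Type u) [Group A] [Finite A] [hX : IsZGroup A] :
    ∃ Z : Subgroup A, Z.Characteristic ∧ IsCyclic Z ∧ centralizer (Z : Set A) ≤ Z := by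
  set D := commutator A with hD
  have hDc : IsCyclic D := hX.isCyclic_commutator
  set Z := centralizer (D : Set A) with hZ
  have hDZ : D ≤ Z := by
    intro d hd
    rw [hZ, mem_centralizer_iff]
    intro e he
    obtain ⟨g, hg⟩ := hDc.exists_generator
    obtain ⟨a, ha⟩ := mem_zpowers_iff.mp (hg ⟨d, hd⟩)
    obtain ⟨b, hb⟩ := mem_zpowers_iff.mp (hg ⟨e, he⟩)
    have h1 : (⟨e, he⟩ : D) * ⟨d, hd⟩ = ⟨d, hd⟩ * ⟨e, he⟩ := by
      rw [← ha, ← hb, ← zpow_add, ← zpow_add, add_comm]
    exact congrArg Subtype.val h1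
  have hcomm : ∀ a ∈ Z, ∀ b ∈ Z, a * b = b * a := by
    let f : Z →* Abelianization A := Abelianization.of.comp Z.subtype
    have hf : f.ker ≤ center Z := by
      intro z hz
      rw [MonoidHom.mem_ker] at hz
      have h1 : (z : A) ∈ commutator A := by
        rw [← Abelianization.ker_of, MonoidHom.mem_ker]; exact hz
      rw [mem_center_iff]
      intro w
      apply Subtype.ext
      exact (mem_centralizer_iff.mp w.2 z h1).symm
    have hcyc : IsCyclic (Abelianization A) := inferInstance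
    have h2 := MonoidHom.isMulCommutative_of_isCyclic_of_ker_le_center f hf
    intro a ha b hb
    exact congrArg Subtype.val (h2.is_comm.comm ⟨a, ha⟩ ⟨b, hb⟩)
  have hZcyc : IsCyclic Z := by
    let _ : CommGroup Z := { (inferInstance : Group Z) with
      mul_comm := fun a b => Subtype.ext (hcomm a a.2 b b.2) }
    infer_instance
  exact ⟨Z, by rw [hZ]; infer_instance, hZcyc, centralizer_le hDZ⟩

/-- a normal cyclic subgroup: every element is normalised -/
lemma conj_mem_of_cyclic {F : Subgroup X} (hn : F.Normal) (hc : IsCyclic F) {w : X} (hw : w ∈ F)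
    (g : X) : g * w * g⁻¹ ∈ zpowers w := by
  obtain ⟨⟨c, hcF⟩, hgen⟩ := hc.exists_generator
  obtain ⟨a, ha⟩ := mem_zpowers_iff.mp (hgen ⟨w, hw⟩)
  obtain ⟨s, hs⟩ := mem_zpowers_iff.mp (hgen ⟨g * c * g⁻¹, hn.conj_mem c hcF g⟩)
  have ha' : c ^ a = w := congrArg Subtype.val ha
  have hs' : c ^ s = g * c * g⁻¹ := congrArg Subtype.val hs
  rw [mem_zpowers_iff]
  refine ⟨s, ?_⟩
  rw [← ha', ← conj_zpow, ← hs', ← zpow_mul, ← zpow_mul, mul_comm]

lemma comm_of_cyclic {F : Subgroup X} (hc : IsCyclic F) {a b : X} (ha : a ∈ F) (hb : b ∈ F) :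
    a * b = b * a := by
  obtain ⟨g, hg⟩ := hc.exists_generator
  obtain ⟨i, hi⟩ := mem_zpowers_iff.mp (hg ⟨a, ha⟩)
  obtain ⟨j, hj⟩ := mem_zpowers_iff.mp (hg ⟨b, hb⟩)
  have h1 : (⟨a, ha⟩ : F) * ⟨b, hb⟩ = ⟨b, hb⟩ * ⟨a, ha⟩ := by
    rw [← hi, ← hj, ← zpow_add, ← zpow_add, add_comm]
  exact congrArg Subtype.val h1

/-- splitting an element into its `p`-part and `p'`-part -/
lemma split_part {p : ℕ} (hp : p.Prime) (z : X) : ∃ e f : ℕ, z ^ e * z ^ f = z ∧
    (∃ k, (z ^ e) ^ p ^ k = 1) ∧ ¬ p ∣ orderOf (z ^ f) := by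
  set n := Nat.card X with hn
  have hn0 : 0 < n := Nat.card_pos
  have hzn : z ^ n = 1 := pow_card_eq_one'
  obtain ⟨e, he1, he2⟩ := exists_exp hp hn0 1 0
  obtain ⟨f, hf1, hf2⟩ := exists_exp hp hn0 0 1
  have hefn : e + f ≡ 1 [MOD n] := by
    have a1 : e + f ≡ 1 [MOD ordProj[p] n] := by simpa using he1.add hf1
    have a2 : e + f ≡ 1 [MOD ordCompl[p] n] := by simpa using he2.add hf2
    have a3 := (Nat.modEq_and_modEq_iff_modEq_mul (Nat.Coprime.pow_left
      (n.factorization p) (Nat.coprime_ordCompl hp hn0.ne'))).mp ⟨a1, a2⟩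
    rwa [Nat.ordProj_mul_ordCompl_eq_self] at a3
  refine ⟨e, f, ?_, ⟨n.factorization p, ?_⟩, ?_⟩
  · rw [← pow_add]
    have := pow_of_modEq hzn hefn
    rwa [pow_one] at this
  · obtain ⟨s, hs⟩ := (Nat.modEq_zero_iff_dvd).mp he2
    rw [← pow_mul, hs, mul_assoc, mul_comm s, ← mul_assoc, mul_comm (ordCompl[p] n),
      Nat.ordProj_mul_ordCompl_eq_self, pow_mul, hzn, one_pow]
  · intro hd
    have h4 : (z ^ f) ^ (ordCompl[p] n) = 1 := by
      obtain ⟨s, hs⟩ := (Nat.modEq_zero_iff_dvd).mp hf1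
      rw [← pow_mul, hs, mul_comm (ordProj[p] n) s, mul_assoc, Nat.ordProj_mul_ordCompl_eq_self,
        mul_comm, pow_mul, hzn, one_pow]
    exact Nat.not_dvd_ordCompl hp hn0.ne' (hd.trans (orderOf_dvd_of_pow_eq_one h4))

/-- a group with a normal subgroup `A` of prime power index all of whose Sylow subgroups are
cyclic belongs to the class `𝒵` -/
theorem classZ_of_index_pow (A : Subgroup X) [hAn : A.Normal] [hA : IsZGroup A] {q k : ℕ}
    (hq : q.Prime) (hk : A.index = q ^ k) : ClassZ X := by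
  have hfq := Fact.mk hq
  obtain ⟨F', hF'char, hF'cyc, hF'cent⟩ := exists_fitting A
  set F : Subgroup X := F'.map A.subtype with hF
  have hFn : F.Normal := inferInstance
  have hFA : F ≤ A := map_subtype_le F'
  have hFc : IsCyclic F :=
    isCyclic_of_surjective _ (F'.equivMapOfInjective _ A.subtype_injective).surjective
  have hself : ∀ x ∈ A, (∀ f ∈ F, x * f = f * x) → x ∈ F := by
    intro x hx h
    refine ⟨⟨x, hx⟩, hF'cent ?_, rfl⟩
    rw [mem_centralizer_iff]
    intro f hf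
    apply Subtype.ext
    exact (h (f : X) ⟨f, hf, rfl⟩).symm
  -- elements of `A`
  have hmemA : ∀ (r : ℕ), r.Prime → r ≠ q → ∀ c : X, (∃ j : ℕ, c ^ r ^ j = 1) → c ∈ A := by
    rintro r hr hrq c ⟨j, hj⟩
    have h1 : ((c : X) : X ⧸ A) ^ (q ^ k) = 1 := by
      rw [← hk]
      exact (QuotientGroup.eq_one_iff _).mpr (Subgroup.pow_index_mem A c)
    have h2 : ((c : X) : X ⧸ A) ^ (r ^ j) = 1 := by
      rw [← QuotientGroup.mk_pow, hj, QuotientGroup.mk_one]
    have h3 : Nat.gcd (q ^ k) (r ^ j) = 1 :=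
      Nat.Coprime.pow _ _ ((Nat.coprime_primes hq hr).mpr (Ne.symm hrq))
    have h4 := pow_gcd_eq_one.mpr ⟨h1, h2⟩
    rw [h3, pow_one] at h4
    exact (QuotientGroup.eq_one_iff _).mp h4
  set n := Nat.card F with hn
  set m := q * ordCompl[q] n with hm
  have hn0 : n ≠ 0 := Nat.card_pos.ne'
  have hFcomm : ∀ a ∈ F, ∀ b ∈ F, a * b = b * a := fun a ha b hb => comm_of_cyclic hFc ha hb
  let Z : Subgroup X :=
    { carrier := {z | z ∈ F ∧ z ^ m = 1}
      mul_mem' := by
        rintro a b ⟨ha, ha'⟩ ⟨hb, hb'⟩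
        refine ⟨F.mul_mem ha hb, ?_⟩
        rw [(show Commute a b from hFcomm a ha b hb).mul_pow, ha', hb', one_mul]
      one_mem' := ⟨F.one_mem, one_pow m⟩
      inv_mem' := by
        rintro a ⟨ha, ha'⟩
        exact ⟨F.inv_mem ha, by rw [inv_pow, ha', inv_one]⟩ }
  have hZF : Z ≤ F := fun z hz => hz.1
  have hZn : Z.Normal := by
    refine ⟨fun z hz g => ⟨hFn.conj_mem z hz.1 g, ?_⟩⟩
    rw [conj_pow, hz.2, mul_one, mul_inv_cancel]
  have hZc : IsCyclic Z := Subgroup.isCyclic_of_le hZF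
  -- orders of elements of `F`
  have hordF : ∀ w ∈ F, orderOf w ∣ n := by
    intro w hw
    have := orderOf_dvd_natCard (⟨w, hw⟩ : F)
    rwa [← Subgroup.orderOf_coe] at this
  have hq'Z : ∀ w ∈ F, ¬ q ∣ orderOf w → w ∈ Z := by
    intro w hw hqw
    refine ⟨hw, ?_⟩
    rw [hm, mul_comm, pow_mul]
    have h1 : orderOf w ∣ ordCompl[q] n := by
      have h2 := hordF w hw
      rw [← Nat.ordProj_mul_ordCompl_eq_self n q] at h2
      exact (Nat.Coprime.pow_right _ ((Nat.Prime.coprime_iff_not_dvd hq).mpr hqw).symm).dvd_of_dvd_mul_left h2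
    rw [orderOf_dvd_iff_pow_eq_one.mp h1, one_pow]
  have hqZ : ∀ w ∈ F, w ^ q = 1 → w ∈ Z := by
    intro w hw h
    exact ⟨hw, by rw [hm, pow_mul, h, one_pow]⟩
  have hqZ' : ∀ w ∈ Z, (∃ s, w ^ q ^ s = 1) → w ^ q = 1 := by
    rintro w hw ⟨s, hs⟩
    have h1 : w ^ m = 1 := hw.2
    have h2 := pow_gcd_eq_one.mpr ⟨h1, hs⟩
    have h3 : Nat.gcd m (q ^ s) ∣ q := by
      have h4 : Nat.Coprime (Nat.gcd m (q ^ s)) (ordCompl[q] n) :=
        Nat.Coprime.coprime_dvd_left (Nat.gcd_dvd_right _ _)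
          (Nat.Coprime.pow_left _ (Nat.coprime_ordCompl hq hn0))
      have h5 : Nat.gcd m (q ^ s) ∣ q * ordCompl[q] n := Nat.gcd_dvd_left _ _
      exact h4.dvd_of_dvd_mul_right h5
    obtain ⟨t, ht⟩ := h3
    rw [ht, pow_mul, h2, one_pow]
  -- a `q'`-element centralising `Z` centralises the `q`-elements of `F`
  have hcq : ∀ (c : X) (N : ℕ), ¬ q ∣ N → c ^ N = 1 → (∀ z ∈ Z, c * z = z * c) →
      ∀ s : ℕ, ∀ f ∈ F, f ^ q ^ s = 1 → c * f = f * c := by
    intro c N hN hcN hcZ s
    induction s with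
    | zero =>
      intro f _ hf
      rw [pow_zero, pow_one] at hf
      rw [hf, mul_one, one_mul]
    | succ s ih =>
      intro f hf hfs
      set u := c * f * c⁻¹ * f⁻¹ with hu
      have hcf : c * f * c⁻¹ ∈ F := hFn.conj_mem f hf c
      have huF : u ∈ F := F.mul_mem hcf (F.inv_mem hf)
      have huq : u ^ q = 1 := by
        have h1 : Commute (c * f * c⁻¹) f⁻¹ := hFcomm _ hcf _ (F.inv_mem hf)
        rw [hu, h1.mul_pow, conj_pow, inv_pow]
        have h2 := ih (f ^ q) (F.pow_mem hf q) (by rw [← pow_mul, ← pow_succ', hfs])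
        rw [h2]; group
      have huZ := hcZ u (hqZ u huF huq)
      have hstep : ∀ i : ℕ, c ^ i * f * (c ^ i)⁻¹ = u ^ i * f := by
        intro i
        induction i with
        | zero => simp
        | succ i hi =>
          have e1 : c ^ (i + 1) * f * (c ^ (i + 1))⁻¹ = c * (c ^ i * f * (c ^ i)⁻¹) * c⁻¹ := by
            rw [pow_succ']; group
          have e2 : c * (u ^ i * f) * c⁻¹ = (c * u ^ i * c⁻¹) * (c * f * c⁻¹) := by group
          have e3 : c * u ^ i * c⁻¹ = u ^ i := by
            have : Commute c (u ^ i) := (show Commute c u from huZ).pow_right i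
            rw [this.eq]; group
          have e4 : c * f * c⁻¹ = u * f := by rw [hu]; group
          rw [e1, hi, e2, e3, e4, pow_succ]
          exact (mul_assoc _ _ _).symm
      have h3 := hstep N
      rw [hcN] at h3
      have h4 : u ^ N = 1 := by
        have : f = u ^ N * f := by simpa using h3
        exact (mul_eq_right.mp this.symm)
      have h5 := pow_gcd_eq_one.mpr ⟨huq, h4⟩
      rw [Nat.Coprime.gcd_eq_one ((Nat.Prime.coprime_iff_not_dvd hq).mpr hN), pow_one] at h5
      have h6 : c * f * c⁻¹ = f := by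
        have : c * f * c⁻¹ = u * f := by rw [hu]; group
        rw [this, h5, one_mul]
      calc c * f = (c * f * c⁻¹) * c := by group
        _ = f * c := by rw [h6]
  have hcF : ∀ (r : ℕ), r.Prime → r ≠ q → ∀ c : X, (∃ j : ℕ, c ^ r ^ j = 1) →
      (∀ z ∈ Z, c * z = z * c) → c ∈ Z := by
    rintro r hr hrq c ⟨j, hj⟩ hcZ
    have hcop : ¬ q ∣ r ^ j := fun hd =>
      hrq ((Nat.prime_dvd_prime_iff_eq hq hr).mp (hq.dvd_of_dvd_pow hd)).symm
    have hcF : c ∈ F := by
      apply hself c (hmemA r hr hrq c ⟨j, hj⟩)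
      intro f hf
      obtain ⟨e, g, h1, ⟨s, h2⟩, h3⟩ := split_part hq f
      have c1 : Commute c (f ^ e) := hcq c (r ^ j) hcop hj hcZ s _ (F.pow_mem hf e) h2
      have c2 : Commute c (f ^ g) := hcZ _ (hq'Z _ (F.pow_mem hf g) h3)
      have c3 := c1.mul_right c2
      rw [h1] at c3
      exact c3
    apply hq'Z c hcF
    intro hd
    exact hcop (hd.trans (orderOf_dvd_of_pow_eq_one hj))
  refine ⟨Z, hZn, hZc, ?_, ?_⟩
  · set C := centralizer (Z : Set X) with hC
    have h1 := Nat.eq_prime_pow_of_unique_prime_dvd (p := q)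
      (relIndex_pos' Z C).ne' fun {r} hr hd => by
        by_contra hne
        obtain ⟨P, -, hP⟩ := exists_sylow hr (bot_le : (⊥ : Subgroup X) ≤ C) IsPGroup.of_bot
        have hPp : IsPGroup r P := isPGroup_of_card hP.2.1
        have hPZ : P ≤ Z := by
          intro c hc
          obtain ⟨j, hj⟩ := hPp ⟨c, hc⟩
          have hj' : c ^ r ^ j = 1 := congrArg Subtype.val hj
          apply hcF r hr hne c ⟨j, hj'⟩
          intro z hz
          exact (mem_centralizer_iff.mp (hP.1 hc) z hz).symm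
        exact hP.2.2 r rfl hr (hd.trans (relIndex_dvd_of_le_left C hPZ))
    exact ⟨q, _, hq, h1⟩
  · rintro p hp h ⟨j, hj⟩ hw z hz
    have hfact := Fact.mk hp
    have hpel : ∀ w ∈ Z, (∃ s, w ^ p ^ s = 1) → h * w = w * h := by
      rintro w hwZ ⟨s, hs⟩
      by_cases hpq : p = q
      · subst hpq
        have hwq := hqZ' w hwZ ⟨s, hs⟩
        obtain ⟨a, ha⟩ := mem_zpowers_iff.mp (conj_mem_of_cyclic hZn hZc hwZ h)
        have hstep : ∀ i : ℕ, h ^ i * w * (h ^ i)⁻¹ = w ^ (a ^ i) := by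
          intro i
          induction i with
          | zero => simp
          | succ i hi =>
            have e1 : h ^ (i + 1) * w * (h ^ (i + 1))⁻¹ = h * (h ^ i * w * (h ^ i)⁻¹) * h⁻¹ := by
              rw [pow_succ']; group
            rw [e1, hi, ← conj_zpow, ← ha, ← zpow_mul, pow_succ']
        have h3 := hstep (p ^ j)
        rw [hj] at h3
        have h4 : w ^ (a ^ (p ^ j)) = w ^ a := by
          have h5 : (p : ℤ) ∣ a ^ (p ^ j) - a := by
            rw [← ZMod.intCast_zmod_eq_zero_iff_dvd]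
            push_cast
            rw [ZMod.pow_card_pow, sub_self]
          obtain ⟨t, ht⟩ := h5
          have h6 : a ^ (p ^ j) = a + p * t := by rw [← ht]; ring
          rw [h6, zpow_add, zpow_mul, zpow_natCast, hwq, one_zpow, mul_one]
        have h7 : w = h * w * h⁻¹ := by
          rw [← ha, ← h4, ← h3]; simp
        calc h * w = (h * w * h⁻¹) * h := by group
          _ = w * h := by rw [← h7]
      · have hhA : h ∈ A := hmemA p hp hpq h ⟨j, hj⟩
        have hwA : w ∈ A := hFA (hZF hwZ)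
        set h' : A := ⟨h, hhA⟩ with hh'
        set w' : A := ⟨w, hwA⟩ with hw'
        have hn1 : zpowers h' ≤ normalizer (zpowers w' : Set A) := by
          rw [norm_zpowers_iff]
          rintro g _
          obtain ⟨a, ha⟩ := mem_zpowers_iff.mp (conj_mem_of_cyclic hZn hZc hwZ (g : X))
          rw [mem_zpowers_iff]
          exact ⟨a, Subtype.ext (by simpa [hw'] using ha)⟩
        have hpg : ∀ (x : A), (∃ i : ℕ, (x : X) ^ p ^ i = 1) → IsPGroup p (zpowers x) := by
          rintro x ⟨i, hi⟩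
          apply isPGroup_of_card
          intro r hr hrd
          rw [Nat.card_zpowers] at hrd
          exact isEl_of_pow hp (k := i) (Subtype.ext (by simpa using hi) : x ^ p ^ i = 1) r hr hrd
        have hsup : IsPGroup p ↥(zpowers h' ⊔ zpowers w') :=
          (hpg h' ⟨j, hj⟩).to_sup_of_normal_right' (hpg w' ⟨s, hs⟩) hn1
        have hcyc : IsCyclic ↥(zpowers h' ⊔ zpowers w') := hsup.isCyclic_of_isZGroup
        have m1 : h' ∈ zpowers h' ⊔ zpowers w' := (le_sup_left : zpowers h' ≤ _) (mem_zpowers h')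
        have m2 : w' ∈ zpowers h' ⊔ zpowers w' := (le_sup_right : zpowers w' ≤ _) (mem_zpowers w')
        exact congrArg Subtype.val (comm_of_cyclic hcyc m1 m2)
    obtain ⟨e, f, h1, h2, h3⟩ := split_part hp z
    have c1 : Commute h (z ^ e) := hpel _ (Z.pow_mem hz e) h2
    have c2 : Commute h (z ^ f) := hw _ (Z.pow_mem hz f) h3
    have c3 := c1.mul_right c2
    rw [h1] at c3
    exact c3

/-- groups all of whose Sylow subgroups are cyclic belong to the class `𝒵` -/
theorem classZ_of_isZGroup (X : Type u) [Group X] [Finite X] [hX : IsZGroup X] : ClassZ X := by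
  have h1 : IsZGroup (⊤ : Subgroup X) := inferInstance
  exact classZ_of_index_pow (⊤ : Subgroup X) (q := 2) (k := 0) Nat.prime_two (by simp)

end

end HallTab
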