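import Pool.Agent.Work.MP_15bafc_al.FromLink
import Pool.Agent.Work.MP_15bafc_al.Quot
import Pool.Agent.Work.MP_15bafc_al.ZByPow

/-!
# Existence of Hall subgroups and the character table
-/

set_option linter.unusedSectionVars false

namespace HallTab

open Subgroup
open scoped Pointwise

universe u v

lemma SameTable.link {G : Type u} {K : Type v} [Group G] [Group K] (h : SameTable G K) :
    Nonempty (Link G K) := by
  obtain ⟨Φ, Ψ, h⟩ := h
  refine ⟨⟨Φ, fun g => ?_, fun k => ?_⟩⟩
  · obtain ⟨k, hk⟩ := (Ψ (ConjClasses.mk g)).exists_rep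
    exact ⟨k, fun χ => (h χ g k hk.symm).symm⟩
  · obtain ⟨g, hg⟩ := (Ψ.symm (ConjClasses.mk k)).exists_rep
    refine ⟨g, fun χ => (h χ g k ?_).symm⟩
    have hg' : ConjClasses.mk g = Ψ.symm (ConjClasses.mk k) := hg
    rw [hg', Equiv.apply_symm_apply]

section

variable {G : Type u} [Group G] [Finite G]

theorem PiLayered.hasHall {π : Set ℕ} {N : Subgroup G} [N.Normal] (h : PiLayered π N)
    (hH : HasHall π (G ⧸ N)) : HasHall π G := by
  obtain ⟨Hb, hHb⟩ := hH
  obtain ⟨H, hH⟩ := h.lift ⟨_, rhall_comap N hHb⟩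
  exact ⟨H, rhall_bot_iff.mp hH⟩

theorem HasHallZ.hasHall {π : Set ℕ} (h : HasHallZ π G) : HasHall π G := by
  obtain ⟨N, hN, hsep, Hb, hHb, -⟩ := h
  exact hsep.hasHall ⟨Hb, hHb⟩

lemma classZ_of_cyclicAbove {π : Set ℕ} {X : Type u} [Group X] [Finite X]
    (hc : ∀ p, p.Prime → p ∈ π → ∀ P : Sylow p X, IsCyclic P) {H : Subgroup X}
    (hH : IsHallSubgroup π H) : IsZGroup H := by
  refine ⟨fun p hp P => ?_⟩
  have hfact := Fact.mk hp
  by_cases hpπ : p ∈ π
  · have h1 : IsPGroup p ((P : Subgroup H).map H.subtype) := P.2.map _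
    obtain ⟨Q, hQ⟩ := h1.exists_le_sylow
    have h2 := hc p hp hpπ Q
    have h3 : IsCyclic ((P : Subgroup H).map H.subtype) := Subgroup.isCyclic_of_le hQ
    exact isCyclic_of_surjective _
      ((P : Subgroup H).equivMapOfInjective _ H.subtype_injective).symm.surjective
  · have h1 : ¬ p ∣ Nat.card H := fun hd => hpπ (hH.1 p hp hd)
    have h2 : Nat.card P = 1 := by
      obtain ⟨n, hn⟩ := IsPGroup.iff_card.mp P.2
      rcases Nat.eq_zero_or_pos n with h0 | h0
      · rw [hn, h0, pow_zero]
      · exfalso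
        apply h1
        have h3 : Nat.card P ∣ Nat.card H := Subgroup.card_subgroup_dvd_card _
        rw [hn] at h3
        exact (dvd_pow_self p h0.ne').trans h3
    have : Subsingleton P := (Nat.card_eq_one_iff_unique.mp h2).1
    infer_instance

lemma isHall_of_sylow {p : ℕ} (hp : p.Prime) (P : Sylow p G) :
    IsHall {p} (P : Subgroup G) ⊤ := by
  have := Fact.mk hp
  refine ⟨le_top, card_of_isPGroup hp P.2, ?_⟩
  intro r hr _
  rw [Set.mem_singleton_iff] at hr
  subst hr
  rw [relIndex_top_right]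
  exact P.not_dvd_index

end

namespace Link

variable {G : Type u} {K : Type v} [Group G] [Group K] [Finite G] [Finite K] (L : Link G K)

lemma relIndex_im {M N : Subgroup G} [M.Normal] [N.Normal] (h : M ≤ N) :
    (L.im M).relIndex (L.im N) = M.relIndex N := by
  have e1 := card_mul_relIndex h
  have e2 := card_mul_relIndex (L.im_mono h)
  rw [L.card_im, L.card_im, ← e1] at e2
  exact Nat.eq_of_mul_eq_mul_left Nat.card_pos e2

lemma piLayered_im {π : Set ℕ} {N : Subgroup G} (h : PiLayered π N) :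
    PiLayered π (L.im N) := by
  induction h with
  | bot => rw [L.im_bot]; exact PiLayered.bot
  | step M N hM hN hle hor ih =>
    have hMn := hM.normal
    refine PiLayered.step (L.im M) (L.im N) ih inferInstance (L.im_mono hle) ?_
    rw [L.relIndex_im hle]
    exact hor

include L in
/-- Hall subgroups of the class `𝒵` transfer -/
theorem classZ_right {π : Set ℕ} (h : ∃ H : Subgroup G, IsHallSubgroup π H ∧ ClassZ H) :
    ∃ H : Subgroup K, IsHallSubgroup π H ∧ ClassZ H := by
  obtain ⟨H, hH, hZ⟩ := h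
  obtain ⟨q, z, hz⟩ := (classZ_iff H).mp hZ
  obtain ⟨z', H', -, h1, h2⟩ := (L.hdata π).ztransfer (isHall_top_iff.mpr hH) hz
  exact ⟨H', isHall_top_iff.mp h1, (classZ_iff H').mpr ⟨q, z', h2⟩⟩

include L in
theorem hasHallZ_right {π : Set ℕ} (h : HasHallZ π G) : HasHallZ π K := by
  obtain ⟨N, hN, hsep, hHb⟩ := h
  exact ⟨L.im N, inferInstance, L.piLayered_im hsep, (L.quot N).classZ_right hHb⟩

include L in
/-- cyclic Sylow subgroups transfer -/
theorem cyclic_right {p : ℕ} (hp : p.Prime) (h : ∀ P : Sylow p G, IsCyclic P) :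
    ∀ Q : Sylow p K, IsCyclic Q := by
  intro Q
  have hfact := Fact.mk hp
  by_cases hpc : p ∣ Nat.card G
  · obtain ⟨P⟩ : Nonempty (Sylow p G) := inferInstance
    obtain ⟨⟨x, hx⟩, hgen⟩ := (h P).exists_generator
    have hPx : (P : Subgroup G) = zpowers x := by
      ext w
      constructor
      · intro hw
        obtain ⟨n, hn⟩ := mem_zpowers_iff.mp (hgen ⟨w, hw⟩)
        rw [mem_zpowers_iff]
        exact ⟨n, congrArg Subtype.val hn⟩
      · intro hw
        obtain ⟨n, rfl⟩ := mem_zpowers_iff.mp hw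
        exact (P : Subgroup G).zpow_mem hx n
    have hPH := isHall_of_sylow hp P
    rw [hPx] at hPH
    have hx1 : x ≠ 1 := by
      rintro rfl
      have h1 := P.ne_bot_of_dvd_card hpc
      apply h1
      rw [hPx, zpowers_one_eq_bot]
    have D := L.hdata Set.univ
    obtain ⟨x', hx'⟩ := D.totG x trivial (fun _ _ _ => trivial)
    obtain ⟨h1, -⟩ := D.sylow_right hp trivial hx' hx1 hPH
    obtain ⟨m, -, hm⟩ := sylow_conj hp h1 (isHall_of_sylow hp Q)
    rw [cj_zpowers] at hm
    change IsCyclic (Q : Subgroup K)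
    rw [← hm]
    infer_instance
  · have h1 : ¬ p ∣ Nat.card K := by rw [← L.card_eq]; exact hpc
    have h2 : Nat.card Q = 1 := by
      obtain ⟨n, hn⟩ := IsPGroup.iff_card.mp Q.2
      rcases Nat.eq_zero_or_pos n with h0 | h0
      · rw [hn, h0, pow_zero]
      · exfalso
        apply h1
        have h3 : Nat.card Q ∣ Nat.card K := Subgroup.card_subgroup_dvd_card _
        rw [hn] at h3
        exact (dvd_pow_self p h0.ne').trans h3
    have : Subsingleton Q := (Nat.card_eq_one_iff_unique.mp h2).1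
    infer_instance

theorem cyclicAbove_im {π : Set ℕ} {N : Subgroup G} [N.Normal] (h : CyclicAbove π N) :
    CyclicAbove π (L.im N) :=
  fun _ hp hpπ => (L.quot N).cyclic_right hp (h _ hp hpπ)

include L in
theorem hasHall_right {π : Set ℕ} {N : Subgroup G} [N.Normal] (hsep : PiLayered π N)
    (hc : CyclicAbove π N) (h : HasHall π G) : HasHall π K := by
  obtain ⟨Hb, hHb⟩ := h.quot N
  have hz : IsZGroup Hb := classZ_of_cyclicAbove hc hHb
  exact (L.hasHallZ_right ⟨N, inferInstance, hsep, Hb, hHb, classZ_of_isZGroup Hb⟩).hasHall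

end Link

end HallTab
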