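import Pool.Agent.Work.MP_15bafc_al.Hall

/-!
# Conjugacy and existence of Hall subgroups of the class `𝒳`
-/

set_option linter.unusedSectionVars false

namespace HallTab

open Subgroup
open scoped Pointwise

universe u

variable {G : Type u} [Group G] [Finite G]

lemma le_normalizer_iff {A L : Subgroup G} :
    A ≤ normalizer (L : Set G) ↔ ∀ a ∈ A, ∀ x ∈ L, a * x * a⁻¹ ∈ L := by
  constructor
  · intro h a ha x hx
    exact ((mem_normalizer_iff.mp (h ha)) x).mp hx
  · intro h a ha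
    rw [mem_normalizer_iff]
    intro x
    constructor
    · exact h a ha x
    · intro hx
      have := h a⁻¹ (A.inv_mem ha) _ hx
      have e : a⁻¹ * (a * x * a⁻¹) * a⁻¹⁻¹ = x := by group
      rwa [e] at this

/-- Wielandt-type lemma: Hall `π`-subgroups `H ≥ L` of `M` with `H/L` abelian are conjugate -/
lemma conj_of_abelian_over {π : Set ℕ} : ∀ (k : ℕ) (M L H₁ H₂ : Subgroup G),
    L.relIndex H₁ = k → L ≤ H₁ → L ≤ H₂ → IsHall π H₁ M → IsHall π H₂ M →
    M ≤ normalizer (L : Set G) →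
    (∀ a ∈ H₁, ∀ b ∈ H₁, a * b * a⁻¹ * b⁻¹ ∈ L) → (∀ a ∈ H₂, ∀ b ∈ H₂, a * b * a⁻¹ * b⁻¹ ∈ L) →
    ∃ m ∈ M, cj m H₁ = H₂ := by
  intro k
  induction k using Nat.strong_induction_on with
  | _ k ih =>
    intro M L H₁ H₂ hk hL1 hL2 h1 h2 hLM hc1 hc2
    by_cases hk1 : L.relIndex H₁ = 1
    · have e1 : H₁ = L := le_antisymm (relIndex_eq_one.mp hk1) hL1
      have e2 : L = H₂ := by
        apply Subgroup.eq_of_le_of_card_ge hL2
        rw [← h1.card_eq h2, e1]
      exact ⟨1, M.one_mem, by rw [cj_one, e1, e2]⟩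
    · obtain ⟨p, hp, hpd⟩ := Nat.exists_prime_and_dvd hk1
      have hpH : p ∣ Nat.card H₁ := hpd.trans (relIndex_dvd_card _ _)
      have hpπ : p ∈ π := h1.2.1 p hp hpH
      have hsub : ({p} : Set ℕ) ⊆ π := Set.singleton_subset_iff.mpr hpπ
      obtain ⟨Q1, -, hQ1⟩ := exists_sylow hp (bot_le : (⊥ : Subgroup G) ≤ H₁) IsPGroup.of_bot
      obtain ⟨Q2, -, hQ2⟩ := exists_sylow hp (bot_le : (⊥ : Subgroup G) ≤ H₂) IsPGroup.of_bot
      obtain ⟨m, hm, hmQ⟩ := sylow_conj hp (hQ1.trans_subset h1 hsub) (hQ2.trans_subset h2 hsub)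
      -- replace H₁ by its conjugate
      set H₁' := cj m H₁ with hH₁'
      have hcL : cj m L = L := cj_eq_iff_mem_normalizer.mpr (hLM hm)
      have hL1' : L ≤ H₁' := by rw [← hcL]; exact cj_mono hL1
      have h1' : IsHall π H₁' M := h1.cj_mem hm
      have hQ1' : IsHall {p} Q2 H₁' := by rw [← hmQ]; exact hQ1.cj m
      have hc1' : ∀ a ∈ H₁', ∀ b ∈ H₁', a * b * a⁻¹ * b⁻¹ ∈ L := by
        intro a ha b hb
        rw [← hcL, mem_cj]
        rw [hH₁', mem_cj] at ha hb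
        have := hc1 _ ha _ hb
        have e : m⁻¹ * a * m * (m⁻¹ * b * m) * (m⁻¹ * a * m)⁻¹ * (m⁻¹ * b * m)⁻¹ =
          m⁻¹ * (a * b * a⁻¹ * b⁻¹) * m := by group
        rwa [e] at this
      set S := L ⊔ Q2 with hS
      have hLS : L ≤ S := le_sup_left
      have hQS : Q2 ≤ S := le_sup_right
      have hS1 : S ≤ H₁' := sup_le hL1' hQ1'.1
      have hS2 : S ≤ H₂ := sup_le hL2 hQ2.1
      have nrm : ∀ H : Subgroup G, (∀ a ∈ H, ∀ b ∈ H, a * b * a⁻¹ * b⁻¹ ∈ L) → S ≤ H →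
          H ≤ normalizer (S : Set G) := by
        intro H hcH hSH
        rw [le_normalizer_iff]
        intro a ha x hx
        have h3 := hLS (hcH a ha x (hSH hx))
        have e : a * x * a⁻¹ = a * x * a⁻¹ * x⁻¹ * x := by group
        rw [e]
        exact S.mul_mem h3 hx
      set M' := M ⊓ normalizer (S : Set G) with hM'
      have hH1M' : H₁' ≤ M' := le_inf h1'.1 (nrm _ hc1' hS1)
      have hH2M' : H₂ ≤ M' := le_inf h2.1 (nrm _ hc2 hS2)
      have hlt : S.relIndex H₁' < k := by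
        have h4 := relIndex_mul_relIndex L S H₁' hLS hS1
        have h5 : L.relIndex H₁' = k := by
          rw [← hcL, hH₁', relIndex_cj, hk]
        have h6 : ¬ p ∣ S.relIndex H₁' := fun hd =>
          hQ1'.2.2 p rfl hp (hd.trans (relIndex_dvd_of_le_left _ hQS))
        have h7 : L.relIndex S ≠ 1 := by
          intro h8
          rw [h8, one_mul, h5] at h4
          rw [h4, ← hk] at h6
          exact h6 hpd
        have h8 := relIndex_pos' L S
        have h9 := relIndex_pos' S H₁'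
        rw [← h5, ← h4]
        have h10 : 2 ≤ L.relIndex S := by omega
        nlinarith
      obtain ⟨m', hm', he⟩ := ih _ hlt M' S H₁' H₂ rfl hS1 hS2 (h1'.mid hH1M' inf_le_left)
        (h2.mid hH2M' inf_le_left) inf_le_right (fun a ha b hb => hLS (hc1' a ha b hb))
        (fun a ha b hb => hLS (hc2 a ha b hb))
      refine ⟨m' * m, M.mul_mem hm'.1 hm, ?_⟩
      rw [← cj_cj, ← hH₁', he]

/-- the structure type of a group of the class `𝒳`: `XType (p :: l) q H` says that `H` has a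
nontrivial normal cyclic Sylow `p`-subgroup `⟨x⟩` such that the `p`-complement `B` of `C_H(x)` has
type `(l, q)`; `XType [] q H` says that `H` is a `q`-group -/
def XType : List ℕ → ℕ → Subgroup G → Prop
  | [], q, H => q.Prime ∧ IsPGroup q H
  | p :: l, q, H => p.Prime ∧ ∃ (x : G) (B : Subgroup G), x ≠ 1 ∧ IsHall {p} (zpowers x) H ∧
      (∀ h ∈ H, h * x * h⁻¹ ∈ zpowers x) ∧ IsHall {p}ᶜ B (H ⊓ centralizer {x}) ∧ XType l q B

lemma cj_zpowers (g x : G) : cj g (zpowers x) = zpowers (g * x * g⁻¹) := by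
  rw [cj, MonoidHom.map_zpowers]
  rfl

lemma cj_inf (g : G) (H K : Subgroup G) : cj g (H ⊓ K) = cj g H ⊓ cj g K := by
  ext x; simp only [mem_cj, mem_inf]

lemma cj_centralizer (g x : G) :
    cj g (centralizer {x}) = centralizer {g * x * g⁻¹} := by
  ext y
  rw [mem_cj, mem_centralizer_singleton_iff, mem_centralizer_singleton_iff]
  constructor
  · intro h
    have := congrArg (fun z => g * z * g⁻¹) h
    have e1 : g * (g⁻¹ * y * g * x) * g⁻¹ = y * (g * x * g⁻¹) := by group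
    have e2 : g * (x * (g⁻¹ * y * g)) * g⁻¹ = g * x * g⁻¹ * y := by group
    simpa only [e1, e2] using this
  · intro h
    have := congrArg (fun z => g⁻¹ * z * g) h
    have e1 : g⁻¹ * y * g * x = g⁻¹ * (y * (g * x * g⁻¹)) * g := by group
    have e2 : x * (g⁻¹ * y * g) = g⁻¹ * (g * x * g⁻¹ * y) * g := by group
    rw [e1, e2]; exact this

lemma XType.cj {q : ℕ} : ∀ {l : List ℕ} {H : Subgroup G}, XType l q H → ∀ g : G,
    XType l q (HallTab.cj g H) := by
  intro l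
  induction l with
  | nil =>
    intro H h g
    exact ⟨h.1, h.2.map _⟩
  | cons p l ih =>
    intro H h g
    obtain ⟨hp, x, B, hx, hP, hn, hB, hl⟩ := h
    refine ⟨hp, g * x * g⁻¹, HallTab.cj g B, ?_, ?_, ?_, ?_, ih hl g⟩
    · intro h
      apply hx
      have := congrArg (fun z => g⁻¹ * z * g) h
      simpa [mul_assoc] using this
    · rw [← cj_zpowers]; exact hP.cj g
    · intro h hh
      rw [mem_cj] at hh
      rw [← cj_zpowers, mem_cj]
      have := hn _ hh
      have e : g⁻¹ * (h * (g * x * g⁻¹) * h⁻¹) * g = g⁻¹ * h * g * x * (g⁻¹ * h * g)⁻¹ := by group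
      rw [e]; exact this
    · rw [← cj_centralizer, ← cj_inf]; exact hB.cj g

/-- the normaliser condition only needs the generator -/
lemma norm_zpowers_iff {A : Subgroup G} {x : G} :
    A ≤ normalizer (zpowers x : Set G) ↔ ∀ a ∈ A, a * x * a⁻¹ ∈ zpowers x := by
  rw [le_normalizer_iff]
  constructor
  · intro h a ha
    exact h a ha x (mem_zpowers x)
  · intro h a ha y hy
    obtain ⟨k, rfl⟩ := mem_zpowers_iff.mp hy
    rw [← conj_zpow]
    exact zpow_mem (h a ha) k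

/-- commutators of elements normalising a cyclic group centralise it -/
lemma comm_mem_centralizer {a b x : G} (ha : a⁻¹ * x * a ∈ zpowers x)
    (hb : b⁻¹ * x * b ∈ zpowers x) : a * b * a⁻¹ * b⁻¹ ∈ centralizer ({x} : Set G) := by
  obtain ⟨i, hi⟩ := mem_zpowers_iff.mp ha
  obtain ⟨j, hj⟩ := mem_zpowers_iff.mp hb
  have hi' : x ^ i = a⁻¹ * x * a⁻¹⁻¹ := by rw [hi, inv_inv]
  have hj' : x ^ j = b⁻¹ * x * b⁻¹⁻¹ := by rw [hj, inv_inv]
  have h1 : a⁻¹ * b⁻¹ * x * b * a = x ^ (i * j) := by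
    calc a⁻¹ * b⁻¹ * x * b * a = a⁻¹ * (b⁻¹ * x * b⁻¹⁻¹) * a⁻¹⁻¹ := by group
      _ = a⁻¹ * x ^ j * a⁻¹⁻¹ := by rw [hj']
      _ = (a⁻¹ * x * a⁻¹⁻¹) ^ j := (conj_zpow).symm
      _ = x ^ (i * j) := by rw [← hi', zpow_mul]
  have h2 : b⁻¹ * a⁻¹ * x * a * b = x ^ (i * j) := by
    calc b⁻¹ * a⁻¹ * x * a * b = b⁻¹ * (a⁻¹ * x * a⁻¹⁻¹) * b⁻¹⁻¹ := by group
      _ = b⁻¹ * x ^ i * b⁻¹⁻¹ := by rw [hi']
      _ = (b⁻¹ * x * b⁻¹⁻¹) ^ i := (conj_zpow).symm
      _ = x ^ (i * j) := by rw [← hj', mul_comm i j, zpow_mul]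
  rw [mem_centralizer_singleton_iff]
  have h3 := congrArg (fun z => a * b * z * a⁻¹ * b⁻¹) (h2.trans h1.symm)
  have e1 : a * b * (b⁻¹ * a⁻¹ * x * a * b) * a⁻¹ * b⁻¹ = x * (a * b * a⁻¹ * b⁻¹) := by group
  have e2 : a * b * (a⁻¹ * b⁻¹ * x * b * a) * a⁻¹ * b⁻¹ = a * b * a⁻¹ * b⁻¹ * x := by group
  simp only [e1, e2] at h3
  exact h3.symm

lemma centralizer_eq_of_zpowers_eq {x y : G} (h : zpowers x = zpowers y) :
    centralizer ({x} : Set G) = centralizer {y} := by
  have key : ∀ {x y : G}, zpowers x = zpowers y → centralizer ({x} : Set G) ≤ centralizer {y} := by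
    intro x y h g hg
    rw [mem_centralizer_singleton_iff] at *
    have hy : y ∈ zpowers x := by rw [h]; exact mem_zpowers y
    obtain ⟨k, rfl⟩ := mem_zpowers_iff.mp hy
    exact (show Commute g x from hg).zpow_right k
  exact le_antisymm (key h) (key h.symm)

lemma cent_le_norm {M : Subgroup G} {x : G} :
    M ⊓ centralizer ({x} : Set G) ≤ M ⊓ normalizer (zpowers x : Set G) := by
  refine le_inf inf_le_left ?_
  rw [norm_zpowers_iff]
  intro c hc
  have := mem_centralizer_singleton_iff.mp hc.2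
  rw [this, mul_inv_cancel_right]
  exact mem_zpowers x

lemma norm_le_norm_cent {M : Subgroup G} {x : G} :
    M ⊓ normalizer (zpowers x : Set G) ≤ normalizer ((M ⊓ centralizer {x} : Subgroup G) : Set G) := by
  intro a ha
  rw [← cj_eq_iff_mem_normalizer, cj_inf, cj_of_mem ha.1, cj_centralizer]
  congr 1
  apply centralizer_eq_of_zpowers_eq
  rw [← cj_zpowers, cj_eq_iff_mem_normalizer]
  exact ha.2

/-- auxiliary data extracted from a Hall subgroup of type `(p :: l, q)` -/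
lemma XType.data {π : Set ℕ} {p : ℕ} {l : List ℕ} {q : ℕ} {H M : Subgroup G}
    (hH : IsHall π H M) (h : XType (p :: l) q H) :
    p.Prime ∧ p ∈ π ∧ ∃ (x : G) (B : Subgroup G), x ≠ 1 ∧ x ∈ H ∧ IsHall {p} (zpowers x) M ∧
      H ≤ M ⊓ normalizer (zpowers x : Set G) ∧ B ≤ H ∧
      IsHall (π \ {p}) B (M ⊓ centralizer {x}) ∧ XType l q B ∧
      IsHall {p} (zpowers x) H ∧ IsHall {p}ᶜ B (H ⊓ centralizer {x}) := by
  obtain ⟨hp, x, B, hx, hP, hn, hB, hl⟩ := h
  have hxH : x ∈ H := hP.1 (mem_zpowers x)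
  have hpH : p ∣ Nat.card (zpowers x) := by
    by_contra hcon
    have h1 : Nat.card (zpowers x) = 1 := by
      by_contra h2
      obtain ⟨r, hr, hrd⟩ := Nat.exists_prime_and_dvd h2
      have := hP.2.1 r hr hrd
      rw [Set.mem_singleton_iff] at this
      subst this
      exact hcon hrd
    rw [Nat.card_zpowers, orderOf_eq_one_iff] at h1
    exact hx h1
  have hpπ : p ∈ π := hH.2.1 p hp (hpH.trans (card_dvd_of_le hP.1))
  have hPM : IsHall {p} (zpowers x) M := hP.trans_subset hH (Set.singleton_subset_iff.mpr hpπ)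
  have hHN : H ≤ normalizer (zpowers x : Set G) := norm_zpowers_iff.mpr hn
  have hBH : B ≤ H := hB.1.trans inf_le_left
  refine ⟨hp, hpπ, x, B, hx, hxH, hPM, le_inf hH.1 hHN, hBH, ?_, hl, hP, hB⟩
  -- `H ⊓ C` is a Hall `π`-subgroup of `C = M ⊓ C(x)`
  set N := M ⊓ normalizer (zpowers x : Set G) with hN
  set C := M ⊓ centralizer ({x} : Set G) with hC
  have hCN : C ≤ N := cent_le_norm
  have hNC : N ≤ normalizer (C : Set G) := norm_le_norm_cent
  have hHC : IsHall π (H ⊓ C) C := (hH.mid (le_inf hH.1 hHN) inf_le_left).inf_normal hCN hNC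
  have hHC' : H ⊓ C = H ⊓ centralizer {x} := by
    rw [hC, ← inf_assoc, inf_eq_left.mpr hH.1]
  rw [hHC'] at hHC
  refine ⟨hB.1.trans hHC.1, ?_, ?_⟩
  · intro r hr hrd
    exact ⟨hH.2.1 r hr (hrd.trans (card_dvd_of_le hBH)), hB.2.1 r hr hrd⟩
  · intro r hr hrp hrd
    rw [← relIndex_mul_relIndex B _ C hB.1 hHC.1] at hrd
    rcases hrp.dvd_mul.mp hrd with hrd | hrd
    · exact hB.2.2 r hr.2 hrp hrd
    · exact hHC.2.2 r hr.1 hrp hrd

lemma sup_eq_of_hall {ρ : Set ℕ} {P B C : Subgroup G} (hP : IsHall ρ P C) (hB : IsHall ρᶜ B C) :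
    P ⊔ B = C := by
  have hle : P ⊔ B ≤ C := sup_le hP.1 hB.1
  refine le_antisymm hle (relIndex_eq_one.mp ?_)
  by_contra hne
  obtain ⟨r, hr, hrd⟩ := Nat.exists_prime_and_dvd hne
  by_cases hrp : r ∈ ρ
  · exact hP.2.2 r hrp hr (hrd.trans (relIndex_dvd_of_le_left C le_sup_left))
  · exact hB.2.2 r hrp hr (hrd.trans (relIndex_dvd_of_le_left C le_sup_right))

lemma conj_step {π : Set ℕ} {M H₁ H₂ L : Subgroup G} {x : G}
    (h1 : IsHall π H₁ M) (h2 : IsHall π H₂ M)
    (n1 : H₁ ≤ M ⊓ normalizer (zpowers x : Set G)) (n2 : H₂ ≤ M ⊓ normalizer (zpowers x : Set G))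
    (e1 : H₁ ⊓ centralizer {x} = L) (e2 : H₂ ⊓ centralizer {x} = L) :
    ∃ m ∈ M, cj m H₁ = H₂ := by
  have key : ∀ H : Subgroup G, H ≤ M → H ≤ M ⊓ normalizer (zpowers x : Set G) →
      H ⊓ centralizer {x} = L → L ≤ H ∧ H ≤ normalizer (L : Set G) ∧
        ∀ a ∈ H, ∀ b ∈ H, a * b * a⁻¹ * b⁻¹ ∈ L := by
    intro H hHM n e
    refine ⟨by rw [← e]; exact inf_le_left, ?_, ?_⟩
    · rw [← e]
      exact (le_inf le_rfl (n.trans inf_le_right)).trans (norm_le_norm_cent (M := H) (x := x))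
    · intro a ha b hb
      rw [← e]
      refine ⟨H.mul_mem (H.mul_mem (H.mul_mem ha hb) (H.inv_mem ha)) (H.inv_mem hb), ?_⟩
      have hn := norm_zpowers_iff.mp (n.trans inf_le_right)
      apply comm_mem_centralizer
      · have := hn _ (H.inv_mem ha); rwa [inv_inv] at this
      · have := hn _ (H.inv_mem hb); rwa [inv_inv] at this
  obtain ⟨l1, m1, c1⟩ := key H₁ h1.1 n1 e1
  obtain ⟨l2, m2, c2⟩ := key H₂ h2.1 n2 e2
  obtain ⟨m, hm, he⟩ := conj_of_abelian_over _ (M ⊓ normalizer (L : Set G)) L H₁ H₂ rfl l1 l2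
    (h1.mid (le_inf h1.1 m1) inf_le_left) (h2.mid (le_inf h2.1 m2) inf_le_left) inf_le_right c1 c2
  exact ⟨m, hm.1, he⟩

/-- Hall `π`-subgroups of the same type are conjugate -/
theorem conj_of_type {q : ℕ} : ∀ (l : List ℕ) (π : Set ℕ) (M H₁ H₂ : Subgroup G),
    IsHall π H₁ M → IsHall π H₂ M → XType l q H₁ → XType l q H₂ → ∃ m ∈ M, cj m H₁ = H₂ := by
  intro l
  induction l with
  | nil =>
    intro π M H₁ H₂ h1 h2 t1 t2
    obtain ⟨hq, t1⟩ := t1
    obtain ⟨-, t2⟩ := t2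
    have c1 := card_of_isPGroup hq t1
    have c2 := card_of_isPGroup hq t2
    by_cases hqπ : q ∈ π
    · apply sylow_conj hq
      · exact ⟨h1.1, c1, fun p hp hpp => h1.2.2 p (by rw [Set.mem_singleton_iff.mp hp]; exact hqπ) hpp⟩
      · exact ⟨h2.1, c2, fun p hp hpp => h2.2.2 p (by rw [Set.mem_singleton_iff.mp hp]; exact hqπ) hpp⟩
    · have key : ∀ H : Subgroup G, IsHall π H M → (∀ r, r.Prime → r ∣ Nat.card H → r ∈ ({q} : Set ℕ)) →
          H = ⊥ := by
        intro H hH hc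
        by_contra hne
        have h3 : Nat.card H ≠ 1 := fun h => hne (Subgroup.card_eq_one.mp h)
        obtain ⟨r, hr, hrd⟩ := Nat.exists_prime_and_dvd h3
        have h4 := Set.mem_singleton_iff.mp (hc r hr hrd)
        subst h4
        exact hqπ (hH.2.1 r hr hrd)
      refine ⟨1, M.one_mem, ?_⟩
      rw [cj_one, key H₁ h1 c1, key H₂ h2 c2]
  | cons p l ih =>
    intro π M H₁ H₂ h1 h2 t1 t2
    obtain ⟨hp, hpπ, x₁, B₁, hx1, hxH1, hP1, hHN1, hBH1, hB1, hl1, hP1', hB1'⟩ := t1.data h1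
    obtain ⟨-, -, x₂, B₂, hx2, hxH2, hP2, hHN2, hBH2, hB2, hl2, hP2', hB2'⟩ := t2.data h2
    obtain ⟨m, hm, hmP⟩ := sylow_conj hp hP1 hP2
    rw [cj_zpowers] at hmP
    have hcent := centralizer_eq_of_zpowers_eq hmP
    have hB1c := hB1.cj m
    rw [cj_inf, cj_of_mem hm, cj_centralizer, hcent] at hB1c
    obtain ⟨c, hc, hcB⟩ := ih (π \ {p}) _ _ _ hB1c hB2 (hl1.cj m) hl2
    have hcx : c * x₂ * c⁻¹ = x₂ := by
      have := mem_centralizer_singleton_iff.mp hc.2
      rw [this, mul_inv_cancel_right]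
    have hcC : cj c (centralizer ({x₂} : Set G)) = centralizer {x₂} := by
      rw [cj_centralizer, hcx]
    have hcP : cj c (zpowers x₂) = zpowers x₂ := by rw [cj_zpowers, hcx]
    -- the moved subgroup
    have hmv : cj c (cj m H₁) ⊓ centralizer {x₂} = zpowers x₂ ⊔ B₂ := by
      have h3 := (hB1'.cj m).cj c
      have h4 := (hP1'.cj m).cj c
      rw [cj_inf, cj_centralizer, hcent, cj_inf, hcC, hcB] at h3
      rw [cj_zpowers, hmP, hcP] at h4
      symm
      apply sup_eq_of_hall _ h3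
      refine h4.mid ?_ inf_le_left
      refine le_inf h4.1 ?_
      rw [zpowers_le]
      exact mem_centralizer_singleton_iff.mpr rfl
    have hmv2 : H₂ ⊓ centralizer {x₂} = zpowers x₂ ⊔ B₂ := by
      symm
      apply sup_eq_of_hall _ hB2'
      refine hP2'.mid ?_ inf_le_left
      refine le_inf hP2'.1 ?_
      rw [zpowers_le]
      exact mem_centralizer_singleton_iff.mpr rfl
    have hn1 : cj c (cj m H₁) ≤ M ⊓ normalizer (zpowers x₂ : Set G) := by
      refine le_inf (cj_le hc.1 (cj_le hm h1.1)) ?_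
      rw [le_normalizer_iff]
      intro a ha y hy
      have h5 := le_normalizer_iff.mp (hHN1.trans inf_le_right)
      rw [mem_cj, mem_cj] at ha
      rw [← hcP, ← hmP, ← cj_zpowers, mem_cj, mem_cj] at hy ⊢
      have h6 := h5 _ ha _ hy
      have e : m⁻¹ * (c⁻¹ * a * c) * m * (m⁻¹ * (c⁻¹ * y * c) * m) *
        (m⁻¹ * (c⁻¹ * a * c) * m)⁻¹ = m⁻¹ * (c⁻¹ * (a * y * a⁻¹) * c) * m := by group
      rwa [e] at h6
    obtain ⟨m', hm', he⟩ := conj_step ((h1.cj_mem hm).cj_mem hc.1) h2 hn1 hHN2 hmv hmv2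
    refine ⟨m' * (c * m), M.mul_mem hm' (M.mul_mem hc.1 hm), ?_⟩
    rw [← cj_cj, ← cj_cj, he]


/-- lifting a Hall subgroup: `L` a Hall `π`-subgroup of `D`, both normal in `M`, `M/D` abelian -/
lemma exists_hall_over {π : Set ℕ} : ∀ (k : ℕ) (M D L : Subgroup G), D.relIndex M = k →
    D ≤ M → IsHall π L D → M ≤ normalizer (L : Set G) →
    (∀ a ∈ M, ∀ b ∈ M, a * b * a⁻¹ * b⁻¹ ∈ D) →
    ∃ H, L ≤ H ∧ IsHall π H M := by
  intro k
  induction k using Nat.strong_induction_on with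
  | _ k ih =>
    intro M D L hk hDM hL hLM hc
    by_cases hr : ∃ r ∈ π, r.Prime ∧ r ∣ D.relIndex M
    swap
    · push Not at hr
      exact ⟨L, le_rfl, hL.trans' hDM hr⟩
    obtain ⟨r, hrπ, hrp, hrd⟩ := hr
    obtain ⟨R, -, hR⟩ := exists_sylow hrp (bot_le : (⊥ : Subgroup G) ≤ M) IsPGroup.of_bot
    -- any subgroup between `D` and `M` is normalised by `M`
    have hnorm : ∀ X : Subgroup G, D ≤ X → X ≤ M → M ≤ normalizer (X : Set G) := by
      intro X hX hXM
      rw [le_normalizer_iff]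
      intro a ha x hx
      have h3 := hX (hc a ha x (hXM hx))
      have e : a * x * a⁻¹ = a * x * a⁻¹ * x⁻¹ * x := by group
      rw [e]
      exact X.mul_mem h3 hx
    have hDn := hnorm D le_rfl hDM
    set D₁ := R ⊔ D with hD₁
    set L₁ := R ⊔ L with hL₁
    have hD₁M : D₁ ≤ M := sup_le hR.1 hDM
    have hRD₁ : R ≤ D₁ := le_sup_left
    have hRL₁ : R ≤ L₁ := le_sup_left
    have hLL₁ : L ≤ L₁ := le_sup_right
    have hL₁D₁ : L₁ ≤ D₁ := sup_le hRD₁ (hL.1.trans le_sup_right)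
    have hRn : R ≤ normalizer (L : Set G) := hR.1.trans hLM
    have hRnD : R ≤ normalizer (D : Set G) := hR.1.trans hDn
    have hindL : L.relIndex L₁ ∣ Nat.card R := by
      rw [hL₁, relIndex_sup_normalizer hRn]; exact relIndex_dvd_card _ _
    have hindD : D.relIndex D₁ ∣ Nat.card R := by
      rw [hD₁, relIndex_sup_normalizer hRnD]; exact relIndex_dvd_card _ _
    have hHall₁ : IsHall π L₁ D₁ := by
      refine ⟨hL₁D₁, ?_, ?_⟩
      · intro s hs hsd
        rw [← card_mul_relIndex hLL₁] at hsd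
        rcases hs.dvd_mul.mp hsd with hsd | hsd
        · exact hL.2.1 s hs hsd
        · have := hR.2.1 s hs (hsd.trans hindL)
          rw [Set.mem_singleton_iff] at this
          rw [this]; exact hrπ
      · intro s hsπ hs hsd
        by_cases hsr : s = r
        · subst hsr
          have h4 : s ∣ R.relIndex D₁ := hsd.trans (relIndex_dvd_of_le_left D₁ hRL₁)
          exact (hR.mid hRD₁ hD₁M).2.2 s rfl hs h4
        · have h4 : s ∣ L.relIndex D₁ := hsd.trans (relIndex_dvd_of_le_left D₁ hLL₁)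
          rw [← relIndex_mul_relIndex L D D₁ hL.1 le_sup_right] at h4
          rcases hs.dvd_mul.mp h4 with h4 | h4
          · exact hL.2.2 s hsπ hs h4
          · exact hsr (Set.mem_singleton_iff.mp (hR.2.1 s hs (h4.trans hindD)))
    set M₂ := M ⊓ normalizer (L₁ : Set G) with hM₂
    -- Frattini
    have hfr : ∀ m ∈ M, ∃ d ∈ D₁, d⁻¹ * m ∈ M₂ := by
      intro m hm
      have hD₁c : cj m D₁ = D₁ := cj_eq_iff_mem_normalizer.mpr (hnorm D₁ le_sup_right hD₁M hm)
      have hRm : IsHall {r} (cj m R) D₁ := by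
        have := (hR.mid hRD₁ hD₁M).cj m
        rwa [hD₁c] at this
      obtain ⟨d, hd, hde⟩ := sylow_conj hrp (hR.mid hRD₁ hD₁M) hRm
      refine ⟨d, hd, M.mul_mem (M.inv_mem (hD₁M hd)) hm, ?_⟩
      apply (cj_eq_iff_mem_normalizer (H := L₁)).mp
      rw [← cj_cj]
      have h5 : cj m L₁ = cj d L₁ := by
        rw [hL₁, cj_sup, cj_sup, cj_eq_iff_mem_normalizer.mpr (hLM hm),
          cj_eq_iff_mem_normalizer.mpr (hLM (hD₁M hd)), hde]
      rw [h5, cj_inv_cj]
    have hM₂M : M₂ ≤ M := inf_le_left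
    set D₂ := M₂ ⊓ D₁ with hD₂
    have hL₁M₂ : L₁ ≤ M₂ := le_inf (hL₁D₁.trans hD₁M) le_normalizer
    have hL₁D₂ : L₁ ≤ D₂ := le_inf hL₁M₂ hL₁D₁
    have hHall₂ : IsHall π L₁ D₂ := hHall₁.mid hL₁D₂ inf_le_right
    have hlt : D₂.relIndex M₂ < k := by
      rw [hD₂, inf_relIndex_left]
      have h6 : D₁.relIndex M₂ ≤ D₁.relIndex M :=
        relIndex_le_of_le_right hM₂M (relIndex_pos' D₁ M).ne'
      have h7 := relIndex_mul_relIndex D D₁ M le_sup_right hD₁M
      have h8 : D.relIndex D₁ ≠ 1 := by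
        intro h8
        rw [h8, one_mul] at h7
        rw [← h7] at hrd
        exact hR.2.2 r rfl hrp (hrd.trans (relIndex_dvd_of_le_left M hRD₁))
      have h9 := relIndex_pos' D D₁
      have h10 := relIndex_pos' D₁ M
      rw [hk] at h7
      have h11 : 2 ≤ D.relIndex D₁ := by omega
      nlinarith
    obtain ⟨H, hLH, hH⟩ := ih _ hlt M₂ D₂ L₁ rfl inf_le_left hHall₂ inf_le_right (by
      intro a ha b hb
      refine ⟨M₂.mul_mem (M₂.mul_mem (M₂.mul_mem ha hb) (M₂.inv_mem ha)) (M₂.inv_mem hb), ?_⟩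
      exact (le_sup_right : D ≤ D₁) (hc a (hM₂M ha) b (hM₂M hb)))
    refine ⟨H, hLL₁.trans hLH, hH.trans' hM₂M ?_⟩
    intro s hsπ hs hsd
    rw [relIndex_eq_of_cover hD₁M hfr] at hsd
    have h12 : M₂.relIndex D₁ ∣ L₁.relIndex D₁ := relIndex_dvd_of_le_left D₁ hL₁M₂
    exact hHall₁.2.2 s hsπ hs (hsd.trans h12)

/-- the existence step: a Hall subgroup of type `(p :: l, q)` from one of type `(l, q)` in the
centraliser of a cyclic Sylow `p`-subgroup -/
theorem exists_of_centralizer {π : Set ℕ} {p q : ℕ} {l : List ℕ} {M B : Subgroup G} {x : G}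
    (hp : p.Prime) (hpπ : p ∈ π) (hx : x ≠ 1) (hP : IsHall {p} (zpowers x) M)
    (hB : IsHall (π \ {p}) B (M ⊓ centralizer {x})) (hl : XType l q B)
    (hN : ∀ r ∈ π, r.Prime → ¬ r ∣ (M ⊓ normalizer (zpowers x : Set G)).relIndex M) :
    ∃ H, IsHall π H M ∧ XType (p :: l) q H := by
  set N := M ⊓ normalizer (zpowers x : Set G) with hNd
  set C := M ⊓ centralizer ({x} : Set G) with hC
  have hCN : C ≤ N := cent_le_norm
  have hNC : N ≤ normalizer (C : Set G) := norm_le_norm_cent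
  have hNM : N ≤ M := inf_le_left
  have hxM : x ∈ M := hP.1 (mem_zpowers x)
  have hPC : zpowers x ≤ C := by
    rw [zpowers_le]
    exact ⟨hxM, mem_centralizer_singleton_iff.mpr rfl⟩
  have hPC' : IsHall {p} (zpowers x) C := hP.mid hPC inf_le_left
  set L := zpowers x ⊔ B with hL
  have hLC : L ≤ C := sup_le hPC hB.1
  have hcomm : ∀ b ∈ B, ∀ y ∈ zpowers x, b * y = y * b := by
    intro b hb y hy
    obtain ⟨k, rfl⟩ := mem_zpowers_iff.mp hy
    have h1 : Commute b x := mem_centralizer_singleton_iff.mp (hB.1 hb).2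
    exact h1.zpow_right k
  have hBn : B ≤ normalizer (zpowers x : Set G) := by
    rw [norm_zpowers_iff]
    intro b hb
    rw [hcomm b hb x (mem_zpowers x), mul_inv_cancel_right]
    exact mem_zpowers x
  have hPn : zpowers x ≤ normalizer (B : Set G) := by
    rw [le_normalizer_iff]
    intro y hy b hb
    rw [← hcomm b hb y hy, mul_inv_cancel_right]
    exact hb
  have hi1 : (zpowers x).relIndex L ∣ Nat.card B := by
    rw [hL, sup_comm, relIndex_sup_normalizer hBn]; exact relIndex_dvd_card _ _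
  have hi2 : B.relIndex L ∣ Nat.card (zpowers x) := by
    rw [hL, relIndex_sup_normalizer hPn]; exact relIndex_dvd_card _ _
  have hLHall : IsHall π L C := by
    refine ⟨hLC, ?_, ?_⟩
    · intro s hs hsd
      rw [← card_mul_relIndex (le_sup_left : zpowers x ≤ L)] at hsd
      rcases hs.dvd_mul.mp hsd with hsd | hsd
      · have := hP.2.1 s hs hsd
        rw [Set.mem_singleton_iff] at this
        rw [this]; exact hpπ
      · exact (hB.2.1 s hs (hsd.trans hi1)).1
    · intro s hsπ hs hsd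
      by_cases hsp : s = p
      · subst hsp
        exact hPC'.2.2 s rfl hs (hsd.trans (relIndex_dvd_of_le_left C le_sup_left))
      · exact hB.2.2 s ⟨hsπ, hsp⟩ hs (hsd.trans (relIndex_dvd_of_le_left C le_sup_right))
  -- Frattini
  have hfr : ∀ n ∈ N, ∃ c ∈ C, c⁻¹ * n ∈ N ⊓ normalizer (B : Set G) := by
    intro n hn
    have hCn : cj n C = C := cj_eq_iff_mem_normalizer.mpr (hNC hn)
    have h1 := hB.cj n
    rw [hCn] at h1
    obtain ⟨c, hc, hce⟩ := conj_of_type l (π \ {p}) C B (cj n B) hB h1 hl (hl.cj n)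
    refine ⟨c, hc, N.mul_mem (N.inv_mem (hCN hc)) hn, ?_⟩
    apply (cj_eq_iff_mem_normalizer (H := B)).mp
    rw [← cj_cj, ← hce, cj_inv_cj]
  set M₁ := N ⊓ normalizer (B : Set G) with hM₁
  set D := M₁ ⊓ C with hD
  have hM₁N : M₁ ≤ N := inf_le_left
  have hBC : B ≤ C := hB.1
  have hLM₁ : L ≤ M₁ := le_inf (hLC.trans hCN) (sup_le hPn le_normalizer)
  have hLD : L ≤ D := le_inf hLM₁ hLC
  have hLHallD : IsHall π L D := hLHall.mid hLD inf_le_right
  have hM₁L : M₁ ≤ normalizer (L : Set G) := by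
    intro m hm
    rw [← cj_eq_iff_mem_normalizer, hL, cj_sup, cj_eq_iff_mem_normalizer.mpr hm.2,
      cj_eq_iff_mem_normalizer.mpr hm.1.2]
  have hcD : ∀ a ∈ M₁, ∀ b ∈ M₁, a * b * a⁻¹ * b⁻¹ ∈ D := by
    intro a ha b hb
    have h2 : a * b * a⁻¹ * b⁻¹ ∈ M₁ :=
      M₁.mul_mem (M₁.mul_mem (M₁.mul_mem ha hb) (M₁.inv_mem ha)) (M₁.inv_mem hb)
    refine ⟨h2, h2.1.1, ?_⟩
    have hn := norm_zpowers_iff.mp (hM₁N.trans (inf_le_right : N ≤ _))
    apply comm_mem_centralizer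
    · have := hn _ (M₁.inv_mem ha); rwa [inv_inv] at this
    · have := hn _ (M₁.inv_mem hb); rwa [inv_inv] at this
  obtain ⟨H, hLH, hH⟩ := exists_hall_over _ M₁ D L rfl inf_le_left hLHallD hM₁L hcD
  have hHM : IsHall π H M := by
    refine (hH.trans' hM₁N ?_).trans' hNM hN
    intro s hsπ hs hsd
    rw [relIndex_eq_of_cover hCN hfr] at hsd
    exact hLHall.2.2 s hsπ hs (hsd.trans (relIndex_dvd_of_le_left C hLM₁))
  refine ⟨H, hHM, hp, x, B, hx, ?_, ?_, ?_, hl⟩
  · exact hP.mid ((le_sup_left : zpowers x ≤ L).trans hLH) hHM.1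
  · exact norm_zpowers_iff.mp ((hH.1.trans hM₁N).trans inf_le_right)
  · -- `H ⊓ C(x) = L`
    have h3 : L = H ⊓ centralizer {x} := by
      apply hLHallD.eq_of_le
      · refine le_inf hLH (hLC.trans inf_le_right)
      · refine le_inf (inf_le_left.trans hH.1) ?_
        exact le_inf (inf_le_left.trans hHM.1) inf_le_right
      · intro s hs hsd
        exact hH.2.1 s hs (hsd.trans (card_dvd_of_le inf_le_left))
    rw [← h3]
    refine ⟨le_sup_right, ?_, ?_⟩
    · intro s hs hsd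
      exact (hB.2.1 s hs hsd).2
    · intro s hsp hs hsd
      exact hsp (hP.2.1 s hs (hsd.trans hi2))

end HallTab
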