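import Pool.Agent.Work.MP_15bafc_al.Main1

/-!
# The isomorphism type of groups with cyclic Sylow subgroups
-/

set_option linter.unusedSectionVars false

namespace HallTab

open Subgroup
open scoped Pointwise commutatorElement

universe u v

section Abstract

variable {X : Type u} {Y : Type v} [Group X] [Group Y]

lemma forall_mem_zpowers_gen (a : X) (x : zpowers a) :
    x ∈ zpowers (⟨a, mem_zpowers a⟩ : zpowers a) := by
  obtain ⟨k, hk⟩ := mem_zpowers_iff.mp x.2
  exact mem_zpowers_iff.mpr ⟨k, Subtype.ext (by simpa using hk)⟩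

lemma conj_pow_iter {c a : X} {r : ℕ} (hr : c * a * c⁻¹ = a ^ r) (k : ℕ) :
    c ^ k * a * (c ^ k)⁻¹ = a ^ (r ^ k) := by
  induction k with
  | zero => simp
  | succ k ih =>
    have e : c ^ (k + 1) * a * (c ^ (k + 1))⁻¹ = c ^ k * (c * a * c⁻¹) * (c ^ k)⁻¹ := by
      rw [pow_succ]; simp only [mul_assoc, mul_inv_rev]
    rw [e, hr, ← conj_pow, ih, ← pow_mul, ← pow_succ]

/-- split extensions of cyclic groups by cyclic groups with the same action are isomorphic -/
lemma mulEquiv_of_split [Finite X] [Finite Y] {a c : X} {b d : Y}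
    [hn : (zpowers a).Normal] [hn' : (zpowers b).Normal]
    (h : (zpowers a).IsComplement' (zpowers c)) (h' : (zpowers b).IsComplement' (zpowers d))
    (hab : orderOf a = orderOf b) (hcd : orderOf c = orderOf d) {r : ℕ}
    (hr : c * a * c⁻¹ = a ^ r) (hr' : d * b * d⁻¹ = b ^ r) : Nonempty (X ≃* Y) := by
  have hab' : orderOf (⟨a, mem_zpowers a⟩ : zpowers a) =
      orderOf (⟨b, mem_zpowers b⟩ : zpowers b) := by
    rw [Subgroup.orderOf_mk, Subgroup.orderOf_mk, hab]
  have hcd' : orderOf (⟨c, mem_zpowers c⟩ : zpowers c) =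
      orderOf (⟨d, mem_zpowers d⟩ : zpowers d) := by
    rw [Subgroup.orderOf_mk, Subgroup.orderOf_mk, hcd]
  let fn : zpowers a ≃* zpowers b :=
    mulEquivOfOrderOfEq (forall_mem_zpowers_gen a) (forall_mem_zpowers_gen b) hab'
  let fg : zpowers c ≃* zpowers d :=
    mulEquivOfOrderOfEq (forall_mem_zpowers_gen c) (forall_mem_zpowers_gen d) hcd'
  have hfn : fn ⟨a, mem_zpowers a⟩ = ⟨b, mem_zpowers b⟩ := mulEquivOfOrderOfEq_apply_gen _ _ _
  have hfg : fg ⟨c, mem_zpowers c⟩ = ⟨d, mem_zpowers d⟩ := mulEquivOfOrderOfEq_apply_gen _ _ _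
  refine ⟨(SemidirectProduct.mulEquivSubgroup h).symm.trans
    ((SemidirectProduct.congr fn fg ?_).trans (SemidirectProduct.mulEquivSubgroup h'))⟩
  intro g
  obtain ⟨k, hk⟩ := (isOfFinOrder_of_finite c).mem_powers_iff_mem_zpowers.mpr g.2
  simp only at hk
  have hg : g = (⟨c, mem_zpowers c⟩ : zpowers c) ^ k := Subtype.ext (by simpa using hk.symm)
  have hfg' : ((fg g : zpowers d) : Y) = d ^ k := by
    rw [hg, map_pow, hfg]; simp
  ext n
  obtain ⟨i, hi⟩ := (isOfFinOrder_of_finite a).mem_powers_iff_mem_zpowers.mpr n.2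
  simp only at hi
  have hni : n = (⟨a, mem_zpowers a⟩ : zpowers a) ^ i := Subtype.ext (by simpa using hi.symm)
  have hfn' : ∀ j : ℕ, ∀ m : zpowers a, (m : X) = a ^ j → ((fn m : zpowers b) : Y) = b ^ j := by
    intro j m hm
    have : m = (⟨a, mem_zpowers a⟩ : zpowers a) ^ j := Subtype.ext (by simpa using hm)
    rw [this, map_pow, hfn]; simp
  have e1 : c ^ k * a ^ i * (c ^ k)⁻¹ = a ^ (r ^ k * i) := by
    rw [← conj_pow, conj_pow_iter hr, pow_mul]
  have e2 : d ^ k * b ^ i * (d ^ k)⁻¹ = b ^ (r ^ k * i) := by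
    rw [← conj_pow, conj_pow_iter hr', pow_mul]
  simp only [MulEquiv.trans_apply, MonoidHom.comp_apply]
  rw [hfn' (r ^ k * i)]
  · have : ∀ (w : zpowers d) (t : zpowers b), (w : Y) = d ^ k → (t : Y) = b ^ i →
        (((zpowers b).normalizerMonoidHom (inclusion (normalizer_eq_top (zpowers b) ▸ le_top) w) t :
          zpowers b) : Y) = b ^ (r ^ k * i) := by
      intro w t hw ht
      rw [← e2, ← hw, ← ht]
      rfl
    exact (this (fg g) (fn n) hfg' (hfn' i n hi.symm)).symm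
  · rw [← e1, hk, hi]
    rfl

lemma exists_coprime_lift {s e j : ℕ} (he : 0 < e) (hse : s ∣ e) (hj : j.Coprime s) :
    ∃ j', j' ≡ j [MOD s] ∧ j'.Coprime e := by
  have : NeZero e := ⟨he.ne'⟩
  have hs : 0 < s := Nat.pos_of_dvd_of_pos hse he
  have : NeZero s := ⟨hs.ne'⟩
  obtain ⟨u, hu⟩ := ZMod.unitsMap_surjective hse (ZMod.unitOfCoprime j hj)
  refine ⟨(u : ZMod e).val, ?_, ZMod.val_coe_unit_coprime u⟩
  rw [← ZMod.natCast_eq_natCast_iff]
  have h1 := congrArg (fun w : (ZMod s)ˣ => (w : ZMod s)) hu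
  simp only [ZMod.coe_unitOfCoprime] at h1
  rw [← h1, ZMod.unitsMap_val, ZMod.natCast_val]

/-- the generator of the acting group can be chosen with a given action -/
lemma exists_gen [Finite Y] {b d : Y} {i i' α β : ℕ} (hd : d * b * d⁻¹ = b ^ i')
    (h1 : i' ^ β ≡ i [MOD orderOf b]) (h2 : i ^ α ≡ i' [MOD orderOf b]) :
    ∃ d', zpowers d' = zpowers d ∧ orderOf d' = orderOf d ∧ d' * b * d'⁻¹ = b ^ i := by
  set m := orderOf b with hm
  have hmpos : 0 < m := orderOf_pos b
  have : NeZero m := ⟨hmpos.ne'⟩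
  have hdpos : 0 < orderOf d := orderOf_pos d
  -- the exponent `i'` has finite order
  have h3 : i' ^ orderOf d ≡ 1 [MOD m] := by
    have h4 := conj_pow_iter hd (orderOf d)
    rw [pow_orderOf_eq_one] at h4
    have h5 : b ^ (i' ^ orderOf d) = b ^ 1 := by rw [← h4]; simp
    exact pow_eq_pow_iff_modEq.mp h5
  have h3' : (i' : ZMod m) ^ orderOf d = 1 := by
    have := (ZMod.natCast_eq_natCast_iff _ _ _).mpr h3
    simpa using this
  have h1' : (i' : ZMod m) ^ β = i := by
    have := (ZMod.natCast_eq_natCast_iff _ _ _).mpr h1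
    simpa using this
  have h2' : (i : ZMod m) ^ α = i' := by
    have := (ZMod.natCast_eq_natCast_iff _ _ _).mpr h2
    simpa using this
  set s := orderOf (i' : ZMod m) with hs
  have hsd : s ∣ orderOf d := orderOf_dvd_of_pow_eq_one h3'
  have hspos : 0 < s := Nat.pos_of_dvd_of_pos hsd hdpos
  have hcop : β.Coprime s := by
    have h5 : s ∣ orderOf (i : ZMod m) := by
      rw [hs, ← h2']; exact orderOf_pow_dvd α
    have h6 : orderOf (i : ZMod m) = s / s.gcd β := by
      rw [← h1', hs]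
      exact IsOfFinOrder.orderOf_pow _ _ (orderOf_pos_iff.mp hspos)
    have hgpos : 0 < s.gcd β := Nat.gcd_pos_of_pos_left _ hspos
    by_contra hne
    have h7 : 1 < s.gcd β := by
      rcases Nat.lt_or_ge 1 (s.gcd β) with h | h
      · exact h
      · exfalso; apply hne
        have : s.gcd β = 1 := by omega
        exact Nat.Coprime.symm this
    have h8 : s / s.gcd β < s := Nat.div_lt_self hspos h7
    have h9 : 0 < s / s.gcd β := Nat.div_pos (Nat.le_of_dvd hspos (Nat.gcd_dvd_left _ _)) hgpos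
    rw [h6] at h5
    exact absurd (Nat.le_of_dvd h9 h5) (by omega)
  obtain ⟨β', hb1, hb2⟩ := exists_coprime_lift hdpos hsd hcop
  have ho : orderOf (d ^ β') = orderOf d := by
    rw [orderOf_pow, Nat.Coprime.symm hb2 |>.gcd_eq_one, Nat.div_one]
  refine ⟨d ^ β', ?_, ho, ?_⟩
  · apply Subgroup.eq_of_le_of_card_ge
    · rw [zpowers_le]; exact npow_mem_zpowers d β'
    · rw [Nat.card_zpowers, Nat.card_zpowers, ho]
  · rw [conj_pow_iter hd]
    apply pow_eq_pow_iff_modEq.mpr
    rw [← hm, ← ZMod.natCast_eq_natCast_iff]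
    push_cast
    rw [← h1']
    exact (IsOfFinOrder.pow_eq_pow_iff_modEq (orderOf_pos_iff.mp hspos)).mpr hb1

section Big

variable [Finite X] [Finite Y]

lemma orderOf_zpow_eq {x : X} {y : Y} (ho : orderOf x = orderOf y) (t : ℤ) :
    orderOf (x ^ t) = orderOf (y ^ t) := by
  rw [orderOf_eq_orderOf_iff]
  intro k
  rw [← zpow_natCast, ← zpow_natCast, ← zpow_mul, ← zpow_mul, ← orderOf_dvd_iff_zpow_eq_one,
    ← orderOf_dvd_iff_zpow_eq_one, ho]

lemma index_cent_eq (z : X) : (centralizer ({z} : Set X)).index =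
    (Set.range (fun h : X => h * z * h⁻¹)).ncard := by
  apply index_eq_ncard_range
  intro a b
  rw [mem_centralizer_singleton_iff]
  constructor
  · intro h
    have h1 : z = a⁻¹ * (b * z * b⁻¹) * a := by rw [← h]; group
    have h2 : z * (a⁻¹ * b) = a⁻¹ * b * z := by
      conv_lhs => rw [h1]
      group
    exact h2.symm
  · intro h
    have h1 : a * (a⁻¹ * b * z) * b⁻¹ = a * (z * (a⁻¹ * b)) * b⁻¹ := by rw [h]
    have h2 : b * z * b⁻¹ = a * z * a⁻¹ := by
      calc b * z * b⁻¹ = a * (a⁻¹ * b * z) * b⁻¹ := by group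
        _ = a * (z * (a⁻¹ * b)) * b⁻¹ := h1
        _ = a * z * a⁻¹ := by group
    exact h2.symm

/-- the number of conjugates of `x` is the number of exponents -/
lemma index_cent_eq_exps {x : X} (hx : ∀ h : X, h * x * h⁻¹ ∈ zpowers x) :
    (centralizer ({x} : Set X)).index =
      {i : ℕ | i < orderOf x ∧ ∃ h : X, h * x * h⁻¹ = x ^ i}.ncard := by
  rw [index_cent_eq]
  have h1 : Set.range (fun h : X => h * x * h⁻¹) =
      (fun i => x ^ i) '' {i : ℕ | i < orderOf x ∧ ∃ h : X, h * x * h⁻¹ = x ^ i} := by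
    ext w
    constructor
    · rintro ⟨h, rfl⟩
      obtain ⟨k, hk⟩ := (isOfFinOrder_of_finite x).mem_powers_iff_mem_zpowers.mpr (hx h)
      simp only at hk
      refine ⟨k % orderOf x, ⟨Nat.mod_lt _ (orderOf_pos x), h, ?_⟩, ?_⟩
      · rw [pow_mod_orderOf, hk]
      · simp only; rw [pow_mod_orderOf, hk]
    · rintro ⟨i, ⟨-, h, hh⟩, rfl⟩
      exact ⟨h, hh⟩
  rw [h1, Set.InjOn.ncard_image]
  intro i hi j hj hij
  have := pow_eq_pow_iff_modEq.mp hij
  rw [Nat.ModEq, Nat.mod_eq_of_lt hi.1, Nat.mod_eq_of_lt hj.1] at this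
  exact this

lemma index_cent_congr {x : X} {y : Y} (ho : orderOf x = orderOf y)
    (hx : ∀ h : X, h * x * h⁻¹ ∈ zpowers x) (hy : ∀ k : Y, k * y * k⁻¹ ∈ zpowers y)
    (hE : ∀ i : ℕ, (∃ h : X, h * x * h⁻¹ = x ^ i) ↔ ∃ k : Y, k * y * k⁻¹ = y ^ i) :
    (centralizer ({x} : Set X)).index = (centralizer ({y} : Set Y)).index := by
  rw [index_cent_eq_exps hx, index_cent_eq_exps hy, ho]
  simp only [hE]

lemma self_cent_right {x : X} {y : Y} (hcard : Nat.card X = Nat.card Y)
    (ho : orderOf x = orderOf y)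
    (hx : ∀ h : X, h * x * h⁻¹ ∈ zpowers x) (hy : ∀ k : Y, k * y * k⁻¹ ∈ zpowers y)
    (hcx : centralizer ({x} : Set X) ≤ zpowers x)
    (hE : ∀ i : ℕ, (∃ h : X, h * x * h⁻¹ = x ^ i) ↔ ∃ k : Y, k * y * k⁻¹ = y ^ i) :
    centralizer ({y} : Set Y) ≤ zpowers y := by
  have h1 : zpowers x = centralizer ({x} : Set X) :=
    le_antisymm (zpowers_le.mpr (mem_centralizer_singleton_iff.mpr rfl)) hcx
  have h2 : zpowers y ≤ centralizer ({y} : Set Y) :=
    zpowers_le.mpr (mem_centralizer_singleton_iff.mpr rfl)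
  have h3 := card_mul_index (centralizer ({x} : Set X))
  have h4 := card_mul_index (centralizer ({y} : Set Y))
  rw [← h1, Nat.card_zpowers] at h3
  rw [← index_cent_congr ho hx hy hE, ← h1, ← hcard, ← h3] at h4
  have h5 := Nat.eq_of_mul_eq_mul_right (Nat.pos_of_ne_zero index_ne_zero_of_finite) h4
  apply le_of_eq
  symm
  apply Subgroup.eq_of_le_of_card_ge h2
  rw [h5, Nat.card_zpowers, ho]

/-- with a normal self-centralising `⟨x⟩`, the commutator subgroup is generated by the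
`h * x * h⁻¹ * x⁻¹` -/
lemma commutator_eq_closure [IsZGroup X] {x : X} (hx : ∀ h : X, h * x * h⁻¹ ∈ zpowers x)
    (hcx : centralizer ({x} : Set X) ≤ zpowers x) :
    commutator X = closure (Set.range (fun h : X => h * x * h⁻¹ * x⁻¹)) := by
  have hnorm : (zpowers x).Normal := by
    refine ⟨fun n hn g => ?_⟩
    obtain ⟨k, rfl⟩ := mem_zpowers_iff.mp hn
    rw [← conj_zpow]
    exact zpow_mem (hx g) k
  have hD : commutator X ≤ zpowers x := by
    rw [_root_.commutator_def, commutator_le]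
    intro a _ b _
    apply hcx
    rw [commutatorElement_def]
    apply comm_mem_centralizer
    · have := hx a⁻¹; rwa [inv_inv] at this
    · have := hx b⁻¹; rwa [inv_inv] at this
  set W := closure (Set.range (fun h : X => h * x * h⁻¹ * x⁻¹)) with hW
  have hWD : W ≤ commutator X := by
    rw [hW, closure_le]
    rintro _ ⟨h, rfl⟩
    rw [SetLike.mem_coe, _root_.commutator_def]
    exact commutator_mem_commutator (mem_top h) (mem_top x)
  have hWx : W ≤ zpowers x := hWD.trans hD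
  refine le_antisymm ?_ hWD
  have hWn : W.Normal := by
    refine ⟨fun n hn g => ?_⟩
    have h1 := conj_mem_of_cyclic (F := zpowers x) hnorm inferInstance (hWx hn) g
    exact (zpowers_le.mpr hn) h1
  -- the quotient by `W` is abelian
  have hcyc : IsCyclic (X ⧸ zpowers x) := by
    have hcomm : ∀ a b : X ⧸ zpowers x, a * b = b * a := by
      intro a b
      induction a using QuotientGroup.induction_on with
      | H a =>
        induction b using QuotientGroup.induction_on with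
        | H b =>
          rw [← QuotientGroup.mk_mul, ← QuotientGroup.mk_mul, QuotientGroup.eq]
          apply hD
          have : (a * b)⁻¹ * (b * a) = ⁅b⁻¹, a⁻¹⁆ := by
            rw [commutatorElement_def]; group
          rw [this, _root_.commutator_def]
          exact commutator_mem_commutator (mem_top _) (mem_top _)
    let _ : CommGroup (X ⧸ zpowers x) := { (inferInstance : Group (X ⧸ zpowers x)) with
      mul_comm := hcomm }
    infer_instance
  let f : X ⧸ W →* X ⧸ zpowers x := QuotientGroup.map W (zpowers x) (MonoidHom.id X) (by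
    simpa using hWx)
  have hf : f.ker ≤ center (X ⧸ W) := by
    intro a ha
    induction a using QuotientGroup.induction_on with
    | H a =>
      rw [MonoidHom.mem_ker] at ha
      have h1 : a ∈ zpowers x := by
        rw [← QuotientGroup.eq_one_iff]
        exact ha
      obtain ⟨k, rfl⟩ := mem_zpowers_iff.mp h1
      rw [mem_center_iff]
      intro b
      induction b using QuotientGroup.induction_on with
      | H b =>
        have hxb : (b : X ⧸ W) * (x : X ⧸ W) = (x : X ⧸ W) * (b : X ⧸ W) := by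
          rw [← QuotientGroup.mk_mul, ← QuotientGroup.mk_mul, eq_comm, QuotientGroup.eq]
          have h2 : b⁻¹ * x⁻¹ * (b * x) ∈ W := by
            have h3 : b⁻¹ * x * b⁻¹⁻¹ * x⁻¹ ∈ W := subset_closure ⟨b⁻¹, rfl⟩
            have h4 := W.inv_mem h3
            have h5 := hWn.conj_mem _ h4 x⁻¹
            have e : x⁻¹ * (b⁻¹ * x * b⁻¹⁻¹ * x⁻¹)⁻¹ * x⁻¹⁻¹ = b⁻¹ * x⁻¹ * (b * x) := by
              group
            rwa [e] at h5
          have e2 : (x * b)⁻¹ * (b * x) = b⁻¹ * x⁻¹ * (b * x) := by group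
          rw [e2]; exact h2
        have h6 : Commute (b : X ⧸ W) (x : X ⧸ W) := hxb
        exact (h6.zpow_right k).eq
  have h2 := MonoidHom.isMulCommutative_of_isCyclic_of_ker_le_center f hf
  rw [_root_.commutator_def, commutator_le]
  intro a _ b _
  have h3 : (a : X ⧸ W) * (b : X ⧸ W) = (b : X ⧸ W) * (a : X ⧸ W) := h2.is_comm.comm _ _
  rw [← QuotientGroup.eq_one_iff, commutatorElement_def]
  simp only [QuotientGroup.mk_mul, QuotientGroup.mk_inv]
  rw [h3]; group

lemma commutator_transfer [IsZGroup X] {x : X} {y : Y} (ho : orderOf x = orderOf y)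
    (hx : ∀ h : X, h * x * h⁻¹ ∈ zpowers x) (hcx : centralizer ({x} : Set X) ≤ zpowers x)
    (hE : ∀ i : ℕ, (∃ h : X, h * x * h⁻¹ = x ^ i) → ∃ k : Y, k * y * k⁻¹ = y ^ i)
    {t : ℤ} (ht : x ^ t ∈ commutator X) : y ^ t ∈ commutator Y := by
  have hcong : ∀ i j : ℤ, x ^ i = x ^ j → y ^ i = y ^ j := by
    intro i j h
    have h1 : x ^ (i - j) = 1 := by rw [zpow_sub, h, mul_inv_cancel]
    rw [← orderOf_dvd_iff_zpow_eq_one, ho, orderOf_dvd_iff_zpow_eq_one, zpow_sub,
      mul_inv_eq_one] at h1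
    exact h1
  let T : Subgroup X :=
    { carrier := {w | ∃ t : ℤ, w = x ^ t ∧ y ^ t ∈ commutator Y}
      one_mem' := ⟨0, by simp, by simp⟩
      mul_mem' := by
        rintro a b ⟨s, rfl, hs⟩ ⟨r, rfl, hr⟩
        exact ⟨s + r, (zpow_add x s r).symm, by rw [zpow_add]; exact mul_mem hs hr⟩
      inv_mem' := by
        rintro a ⟨s, rfl, hs⟩
        exact ⟨-s, (zpow_neg x s).symm, by rw [zpow_neg]; exact inv_mem hs⟩ }
  have h1 : commutator X ≤ T := by
    rw [commutator_eq_closure hx hcx, closure_le]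
    rintro _ ⟨h, rfl⟩
    obtain ⟨i, hi⟩ := (isOfFinOrder_of_finite x).mem_powers_iff_mem_zpowers.mpr (hx h)
    simp only at hi
    obtain ⟨k, hk⟩ := hE i ⟨h, hi.symm⟩
    refine ⟨(i : ℤ) - 1, ?_, ?_⟩
    · rw [zpow_sub, zpow_natCast, zpow_one, hi]
    · rw [zpow_sub, zpow_natCast, zpow_one, ← hk]
      rw [_root_.commutator_def]
      exact commutator_mem_commutator (mem_top k) (mem_top y)
  obtain ⟨s, hs1, hs2⟩ := h1 ht
  rw [hcong t s hs1]
  exact hs2

lemma exists_compl [IsZGroup X] : ∃ c : X, (commutator X).IsComplement' (zpowers c) := by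
  obtain ⟨C, hC⟩ := exists_right_complement'_of_coprime (IsZGroup.coprime_commutator_index (G := X))
  have h1 : IsCyclic (X ⧸ commutator X) := inferInstanceAs (IsCyclic (Abelianization X))
  have h2 : IsCyclic C := isCyclic_of_surjective _ (hC.symm.QuotientMulEquiv).surjective
  obtain ⟨⟨c, hc⟩, hgen⟩ := h2.exists_generator
  refine ⟨c, ?_⟩
  have : C = zpowers c := by
    refine le_antisymm ?_ (zpowers_le.mpr hc)
    intro w hw
    obtain ⟨k, hk⟩ := mem_zpowers_iff.mp (hgen ⟨w, hw⟩)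
    exact mem_zpowers_iff.mpr ⟨k, congrArg Subtype.val hk⟩
  rwa [← this]

lemma exists_exp_pow {x c : X} {t i i' : ℕ} (hn : (zpowers (x ^ t)).Normal)
    (hC : (zpowers (x ^ t)).IsComplement' (zpowers c)) (hc : c * x * c⁻¹ = x ^ i)
    (h : ∃ k, k * x * k⁻¹ = x ^ i') : ∃ α : ℕ, i ^ α ≡ i' [MOD orderOf (x ^ t)] := by
  obtain ⟨k, hk⟩ := h
  have h1 : k ∈ zpowers (x ^ t) ⊔ zpowers c := by rw [hC.sup_eq_top]; exact mem_top k
  obtain ⟨p, hp, q, hq, hpq⟩ := mem_sup_of_normal_left.mp h1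
  obtain ⟨α, hα⟩ := (isOfFinOrder_of_finite c).mem_powers_iff_mem_zpowers.mpr hq
  simp only at hα
  refine ⟨α, ?_⟩
  apply pow_eq_pow_iff_modEq.mp
  have hca : c * x ^ t * c⁻¹ = (x ^ t) ^ i := by
    rw [← conj_pow, hc, ← pow_mul, ← pow_mul, mul_comm]
  rw [← conj_pow_iter hca, hα]
  have hka : k * x ^ t * k⁻¹ = (x ^ t) ^ i' := by
    rw [← conj_pow, hk, ← pow_mul, ← pow_mul, mul_comm]
  have hqk : q = p⁻¹ * k := by rw [← hpq]; group
  have e : q * x ^ t * q⁻¹ = p⁻¹ * (k * x ^ t * k⁻¹) * p := by rw [hqk]; group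
  rw [e, hka]
  obtain ⟨s, rfl⟩ := mem_zpowers_iff.mp hp
  have hcm : Commute ((x ^ t) ^ s) ((x ^ t) ^ i') :=
    ((Commute.refl (x ^ t)).pow_right i').zpow_left s
  calc ((x ^ t) ^ s)⁻¹ * (x ^ t) ^ i' * (x ^ t) ^ s
      = ((x ^ t) ^ s)⁻¹ * ((x ^ t) ^ i' * (x ^ t) ^ s) := by rw [mul_assoc]
    _ = ((x ^ t) ^ s)⁻¹ * ((x ^ t) ^ s * (x ^ t) ^ i') := by rw [hcm.eq]
    _ = (x ^ t) ^ i' := by group

/-- groups with cyclic Sylow subgroups are determined by the order and the action on a normal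
self-centralising cyclic subgroup -/
theorem mulEquiv_of_isZGroup [IsZGroup X] [IsZGroup Y] {x : X} {y : Y}
    (hcard : Nat.card X = Nat.card Y) (ho : orderOf x = orderOf y)
    (hx : ∀ h : X, h * x * h⁻¹ ∈ zpowers x) (hy : ∀ k : Y, k * y * k⁻¹ ∈ zpowers y)
    (hcx : centralizer ({x} : Set X) ≤ zpowers x)
    (hE : ∀ i : ℕ, (∃ h : X, h * x * h⁻¹ = x ^ i) ↔ ∃ k : Y, k * y * k⁻¹ = y ^ i) :
    Nonempty (X ≃* Y) := by
  have hcy := self_cent_right hcard ho hx hy hcx hE
  have hDx : commutator X ≤ zpowers x := by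
    rw [commutator_eq_closure hx hcx, closure_le]
    rintro _ ⟨h, rfl⟩
    exact mul_mem (hx h) (inv_mem (mem_zpowers x))
  have hDy : commutator Y ≤ zpowers y := by
    rw [commutator_eq_closure hy hcy, closure_le]
    rintro _ ⟨h, rfl⟩
    exact mul_mem (hy h) (inv_mem (mem_zpowers y))
  have hcong : ∀ i j : ℤ, x ^ i = x ^ j → y ^ i = y ^ j := by
    intro i j h
    have h1 : x ^ (i - j) = 1 := by rw [zpow_sub, h, mul_inv_cancel]
    rw [← orderOf_dvd_iff_zpow_eq_one, ho, orderOf_dvd_iff_zpow_eq_one, zpow_sub,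
      mul_inv_eq_one] at h1
    exact h1
  obtain ⟨t, htX⟩ : ∃ t : ℕ, commutator X = zpowers (x ^ t) := by
    have h1 : IsCyclic (commutator X) := IsZGroup.isCyclic_commutator X
    obtain ⟨⟨g, hg⟩, hgen⟩ := h1.exists_generator
    obtain ⟨t, ht⟩ := (isOfFinOrder_of_finite x).mem_powers_iff_mem_zpowers.mpr (hDx hg)
    simp only at ht
    refine ⟨t, ?_⟩
    rw [ht]
    refine le_antisymm ?_ (zpowers_le.mpr hg)
    intro w hw
    obtain ⟨k, hk⟩ := mem_zpowers_iff.mp (hgen ⟨w, hw⟩)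
    exact mem_zpowers_iff.mpr ⟨k, congrArg Subtype.val hk⟩
  have htY : commutator Y = zpowers (y ^ t) := by
    apply le_antisymm
    · intro w hw
      obtain ⟨s, rfl⟩ := mem_zpowers_iff.mp (hDy hw)
      have h1 := commutator_transfer ho.symm hy hcy (fun i => (hE i).mpr) hw
      rw [htX] at h1
      obtain ⟨k, hk⟩ := mem_zpowers_iff.mp h1
      rw [mem_zpowers_iff]
      refine ⟨k, ?_⟩
      have h2 : x ^ ((t : ℤ) * k) = x ^ s := by rw [zpow_mul, zpow_natCast, hk]
      have h3 := hcong _ _ h2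
      rw [zpow_mul, zpow_natCast] at h3
      exact h3
    · rw [zpowers_le, ← zpow_natCast]
      apply commutator_transfer ho hx hcx (fun i => (hE i).mp)
      rw [htX, zpow_natCast]
      exact mem_zpowers _
  obtain ⟨c, hc⟩ := exists_compl (X := X)
  obtain ⟨d, hd⟩ := exists_compl (X := Y)
  have hnX : (zpowers (x ^ t)).Normal := by rw [← htX]; infer_instance
  have hnY : (zpowers (y ^ t)).Normal := by rw [← htY]; infer_instance
  rw [htX] at hc
  rw [htY] at hd
  obtain ⟨i, hi⟩ := (isOfFinOrder_of_finite x).mem_powers_iff_mem_zpowers.mpr (hx c)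
  obtain ⟨i', hi'⟩ := (isOfFinOrder_of_finite y).mem_powers_iff_mem_zpowers.mpr (hy d)
  simp only at hi hi'
  have hot : orderOf (x ^ t) = orderOf (y ^ t) := by
    have := orderOf_zpow_eq ho t
    rwa [zpow_natCast, zpow_natCast] at this
  obtain ⟨α, hα⟩ := exists_exp_pow hnX hc hi.symm ((hE i').mpr ⟨d, hi'.symm⟩)
  obtain ⟨β, hβ⟩ := exists_exp_pow hnY hd hi'.symm ((hE i).mp ⟨c, hi.symm⟩)
  have hdb : d * y ^ t * d⁻¹ = (y ^ t) ^ i' := by
    rw [← conj_pow, ← hi', ← pow_mul, ← pow_mul, mul_comm]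
  have hca : c * x ^ t * c⁻¹ = (x ^ t) ^ i := by
    rw [← conj_pow, ← hi, ← pow_mul, ← pow_mul, mul_comm]
  rw [hot] at hα
  obtain ⟨d', hd1, hd2, hd3⟩ := exists_gen hdb hβ hα
  rw [← hd1] at hd
  refine mulEquiv_of_split hc hd hot ?_ hca hd3
  -- orders of the complements
  have e1 := hc.card_mul_card
  have e2 := hd.card_mul_card
  rw [Nat.card_zpowers, Nat.card_zpowers] at e1 e2
  rw [hot, hcard, ← e2] at e1
  exact Nat.eq_of_mul_eq_mul_left (orderOf_pos _) e1

end Big

end Abstract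

section Hall

variable {G : Type u} [Group G] [Finite G]

/-- the elementwise structure of a group with cyclic Sylow subgroups -/
lemma exists_ztype_of_isZGroup (H : Subgroup G) [IsZGroup H] :
    ∃ z : G, ZType 2 z H ∧ H ⊓ centralizer {z} ≤ zpowers z := by
  obtain ⟨Z, hZchar, hZcyc, hZc⟩ := exists_fitting H
  obtain ⟨⟨z0, hz0⟩, hgen⟩ := hZcyc.exists_generator
  have hZn : Z.Normal := inferInstance
  have hZ : Z = zpowers z0 := by
    refine le_antisymm ?_ (zpowers_le.mpr hz0)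
    intro w hw
    obtain ⟨n, hn⟩ := mem_zpowers_iff.mp (hgen ⟨w, hw⟩)
    exact mem_zpowers_iff.mpr ⟨n, congrArg Subtype.val hn⟩
  have hcent : H ⊓ centralizer {(z0 : G)} ≤ zpowers (z0 : G) := by
    rintro w ⟨hw, hw2⟩
    have h1 : (⟨w, hw⟩ : H) ∈ centralizer (Z : Set H) := by
      rw [mem_centralizer_iff]
      intro y hy
      rw [SetLike.mem_coe, hZ] at hy
      obtain ⟨n, rfl⟩ := mem_zpowers_iff.mp hy
      have h3 : Commute w (z0 : G) := mem_centralizer_singleton_iff.mp hw2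
      apply Subtype.ext
      have h4 := (h3.zpow_right n).eq
      simpa using h4.symm
    have h2 := hZc h1
    rw [hZ] at h2
    obtain ⟨k, hk⟩ := mem_zpowers_iff.mp h2
    exact mem_zpowers_iff.mpr ⟨k, congrArg Subtype.val hk⟩
  refine ⟨z0, ⟨Nat.prime_two, z0.2, ?_, ?_, ?_⟩, hcent⟩
  · intro h hh
    have h1 : (⟨h, hh⟩ : H) * z0 * (⟨h, hh⟩ : H)⁻¹ ∈ Z := hZn.conj_mem z0 hz0 ⟨h, hh⟩
    rw [hZ] at h1
    obtain ⟨k, hk⟩ := mem_zpowers_iff.mp h1
    exact mem_zpowers_iff.mpr ⟨k, congrArg Subtype.val hk⟩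
  · intro r hr _ hd
    rw [relIndex_eq_one.mpr hcent] at hd
    exact hr.one_lt.ne' (Nat.dvd_one.mp hd)
  · intro p hp h hh hel hw
    have hfact := Fact.mk hp
    obtain ⟨e, f, h1, h2, h3⟩ := split_part hp (z0 : G)
    have c2 : Commute h ((z0 : G) ^ f) := hw _ (npow_mem_zpowers _ f) h3
    have c1 : Commute h ((z0 : G) ^ e) := by
      set h' : H := ⟨h, hh⟩ with hh'
      set w' : H := z0 ^ e with hw'
      have hwZ : w' ∈ Z := Z.pow_mem hz0 e
      have hn1 : zpowers h' ≤ normalizer (zpowers w' : Set H) := by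
        rw [norm_zpowers_iff]
        rintro g _
        exact conj_mem_of_cyclic hZn hZcyc hwZ g
      have hpg : ∀ (x : H), IsEl {p} x → IsPGroup p (zpowers x) := by
        intro x hx
        apply isPGroup_of_card
        intro r hr hrd
        rw [Nat.card_zpowers] at hrd
        exact hx r hr hrd
      have hel' : IsEl {p} h' := by
        intro r hr hrd
        rw [hh', Subgroup.orderOf_mk] at hrd
        exact hel r hr hrd
      have hwel : IsEl {p} w' := by
        obtain ⟨k, hk⟩ := h2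
        apply isEl_of_pow hp (k := k)
        apply Subtype.ext
        simpa [hw'] using hk
      have hsup : IsPGroup p ↥(zpowers h' ⊔ zpowers w') :=
        (hpg h' hel').to_sup_of_normal_right' (hpg w' hwel) hn1
      have hcyc : IsCyclic ↥(zpowers h' ⊔ zpowers w') := hsup.isCyclic_of_isZGroup
      have m1 : h' ∈ zpowers h' ⊔ zpowers w' := (le_sup_left : zpowers h' ≤ _) (mem_zpowers h')
      have m2 : w' ∈ zpowers h' ⊔ zpowers w' := (le_sup_right : zpowers w' ≤ _) (mem_zpowers w')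
      exact congrArg Subtype.val (comm_of_cyclic hcyc m1 m2)
    have c3 := c1.mul_right c2
    rwa [h1] at c3

/-- Sylow subgroups of `G` for the primes in `π` are cyclic if a Hall `π`-subgroup has cyclic
Sylow subgroups -/
lemma cyclic_sylow_of_hall {π : Set ℕ} {H : Subgroup G} (hH : IsHallSubgroup π H) [IsZGroup H]
    {p : ℕ} (hp : p.Prime) (hpπ : p ∈ π) (P : Sylow p G) : IsCyclic P := by
  have hfact := Fact.mk hp
  obtain ⟨Q, -, hQ⟩ := exists_sylow hp (bot_le : (⊥ : Subgroup G) ≤ H) IsPGroup.of_bot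
  have hQG : IsHall {p} Q ⊤ := hQ.trans_subset (isHall_top_iff.mpr hH)
    (Set.singleton_subset_iff.mpr hpπ)
  obtain ⟨m, -, hm⟩ := sylow_conj hp hQG (isHall_of_sylow hp P)
  have hQp : IsPGroup p (Q.subgroupOf H) :=
    (isPGroup_of_card hQ.2.1).of_equiv (subgroupOfEquivOfLe hQ.1).symm
  have h1 : IsCyclic (Q.subgroupOf H) := hQp.isCyclic_of_isZGroup
  have h2 : IsCyclic Q := isCyclic_of_surjective _ (subgroupOfEquivOfLe hQ.1).surjective
  change IsCyclic (P : Subgroup G)
  rw [← hm]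
  exact isCyclic_of_surjective _
    (Q.equivMapOfInjective _ (MulEquiv.injective (MulAut.conj m))).surjective

/-- the exponents realised in a Hall subgroup form a Hall subgroup of the group of exponents -/
lemma expGroup_hall {π : Set ℕ} {n : ℕ} [NeZero n] {H M : Subgroup G} (hH : IsHall π H M) {z : G}
    (hz : z ^ n = 1) (hn : ∀ h ∈ H, h * z * h⁻¹ ∈ zpowers z) :
    PiNum π ((expGroup n (⊥ : Subgroup G) z hz).relIndex (expGroup n H z hz)) ∧
      PiNum' π ((expGroup n H z hz).relIndex (expGroup n M z hz)) := by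
  have hSA : expGroup n (⊥ : Subgroup G) z hz ≤ expGroup n H z hz := by
    rintro u ⟨m, hm, h⟩
    rw [mem_bot] at hm
    exact ⟨m, by rw [hm]; exact H.one_mem, h⟩
  have hAJ : expGroup n H z hz ≤ expGroup n M z hz := by
    rintro u ⟨m, hm, h⟩
    exact ⟨m, hH.1 hm, h⟩
  have e1 := relIndex_mul_relIndex _ _ _ hSA hAJ
  rw [← relIndex_expGroup hz (M := H), ← relIndex_expGroup hz (M := M)] at e1
  rw [← relIndex_expGroup hz (M := H)]
  have hHN' : H ⊓ normalizer (zpowers z : Set G) = H :=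
    inf_eq_left.mpr (norm_zpowers_iff.mpr hn)
  have hHN : H ≤ M ⊓ normalizer (zpowers z : Set G) := le_inf hH.1 (norm_zpowers_iff.mpr hn)
  set N := M ⊓ normalizer (zpowers z : Set G) with hNd
  set C := M ⊓ centralizer ({z} : Set G) with hCd
  have hCN : C ≤ N := cent_le_norm
  have hHC : IsHall π (H ⊓ C) C :=
    (hH.mid hHN inf_le_left).inf_normal hCN norm_le_norm_cent
  have hHC' : H ⊓ C = H ⊓ centralizer {z} := by
    rw [hCd, ← inf_assoc, inf_eq_left.mpr hH.1]
  rw [hHC'] at hHC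
  rw [hHN'] at e1 ⊢
  refine ⟨?_, ?_⟩
  · intro p hp hd
    exact hH.2.1 p hp (hd.trans (relIndex_dvd_card _ _))
  · intro p hp hd hpπ
    have f0 := card_mul_relIndex (inf_le_left : H ⊓ centralizer {z} ≤ H)
    have f1 := card_mul_relIndex hCN
    have g0 := congrArg (fun t : ℕ => t.factorization p) f0
    have g1 := congrArg (fun t : ℕ => t.factorization p) f1
    have g2 := congrArg (fun t : ℕ => t.factorization p) e1
    rw [Nat.factorization_mul Nat.card_pos.ne' (relIndex_pos' _ _).ne', Finsupp.add_apply] at g0 g1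
    rw [Nat.factorization_mul (relIndex_pos' _ _).ne' (relIndex_pos' _ _).ne',
      Finsupp.add_apply] at g2
    have g3 := hHC.fact_card hp hpπ
    have g4 := (hH.mid hHN inf_le_left).fact_card hp hpπ
    have g5 := hp.factorization_pos_of_dvd (relIndex_pos' _ _).ne' hd
    omega

/-- two subgroups between `S` and `J` whose indices have disjoint prime divisors coincide -/
lemma le_of_hall_between {A : Type*} [CommGroup A] [Finite A] {π : Set ℕ} {S B₁ B₂ J : Subgroup A}
    (h1J : B₁ ≤ J) (hS2 : S ≤ B₂) (h1 : PiNum π (S.relIndex B₁)) (h2 : PiNum' π (B₂.relIndex J)) :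
    B₁ ≤ B₂ := by
  intro u hu
  have hk : u ^ (S.relIndex B₁) ∈ S := by
    have h3 : (⟨u, hu⟩ : B₁) ^ (S.subgroupOf B₁).index ∈ S.subgroupOf B₁ :=
      Subgroup.pow_index_mem _ _
    exact h3
  have hl : u ^ (B₂.relIndex J) ∈ B₂ := by
    have h3 : (⟨u, h1J hu⟩ : J) ^ (B₂.subgroupOf J).index ∈ B₂.subgroupOf J :=
      Subgroup.pow_index_mem _ _
    exact h3
  have hc : Nat.Coprime (S.relIndex B₁) (B₂.relIndex J) := coprime_of_piNum h1 h2
  have hb := Nat.gcd_eq_gcd_ab (S.relIndex B₁) (B₂.relIndex J)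
  rw [hc.gcd_eq_one] at hb
  have h4 : u ^ ((1 : ℕ) : ℤ) ∈ B₂ := by
    rw [hb, zpow_add, zpow_mul, zpow_mul, zpow_natCast, zpow_natCast]
    exact B₂.mul_mem (B₂.zpow_mem (hS2 hk) _) (B₂.zpow_mem hl _)
  simpa using h4

/-- exponents as natural numbers -/
lemma exps_iff_unit {n : ℕ} [NeZero n] {M : Subgroup G} {z : G} (hz : z ^ n = 1) {i : ℕ} :
    (∃ m ∈ M, m * z * m⁻¹ = z ^ i) ↔
      ∃ u ∈ expGroup n M z hz, i ≡ (u : ZMod n).val [MOD orderOf z] := by
  constructor
  · rintro ⟨m, hm, hmi⟩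
    have hmn : orderOf z ∣ n := orderOf_dvd_of_pow_eq_one hz
    have hic : Nat.Coprime i (orderOf z) := by
      have h4 : orderOf (z ^ i) = orderOf z := by
        rw [← hmi]; exact (MulAut.conj m).orderOf_eq z
      rw [orderOf_pow] at h4
      have h5 := Nat.mul_div_cancel' (Nat.gcd_dvd_left (orderOf z) i)
      rw [h4] at h5
      have h6 : Nat.gcd (orderOf z) i = 1 :=
        Nat.eq_of_mul_eq_mul_right (orderOf_pos z) (by rw [h5, one_mul])
      exact Nat.Coprime.symm h6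
    obtain ⟨j, hj1, hj2⟩ := exists_coprime_lift (Nat.pos_of_ne_zero (NeZero.ne n)) hmn hic
    have h7 : ((ZMod.unitOfCoprime j hj2 : (ZMod n)ˣ) : ZMod n).val ≡ j [MOD orderOf z] := by
      rw [ZMod.coe_unitOfCoprime, ZMod.val_natCast]
      exact (Nat.mod_modEq j n).of_dvd hmn
    refine ⟨ZMod.unitOfCoprime j hj2, ⟨m, hm, ?_⟩, (h7.trans hj1).symm⟩
    rw [hmi]
    exact pow_eq_pow_iff_modEq.mpr (h7.trans hj1).symm
  · rintro ⟨u, ⟨m, hm, hu⟩, hi⟩
    refine ⟨m, hm, ?_⟩
    rw [hu]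
    exact (pow_eq_pow_iff_modEq.mpr hi).symm

lemma conj_iff_subtype (U : Subgroup G) {w : G} (hw : w ∈ U) (i : ℕ) :
    (∃ h : U, h * ⟨w, hw⟩ * h⁻¹ = (⟨w, hw⟩ : U) ^ i) ↔ ∃ m ∈ U, m * w * m⁻¹ = w ^ i := by
  constructor
  · rintro ⟨h, hh⟩
    exact ⟨h, h.2, congrArg Subtype.val hh⟩
  · rintro ⟨m, hm, h⟩
    exact ⟨⟨m, hm⟩, Subtype.ext h⟩

lemma ztype_norm {q : ℕ} {z : G} {H : Subgroup G} (hZ : ZType q z H) (h : H) :
    h * ⟨z, hZ.mem⟩ * h⁻¹ ∈ zpowers (⟨z, hZ.mem⟩ : H) := by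
  obtain ⟨k, hk⟩ := mem_zpowers_iff.mp (hZ.norm h h.2)
  exact mem_zpowers_iff.mpr ⟨k, Subtype.ext hk⟩

end Hall

section Final

variable {G : Type u} {K : Type v} [Group G] [Group K] [Finite G] [Finite K] (L : Link G K)

include L in
/-- the isomorphism type of Hall subgroups with cyclic Sylow subgroups is the same -/
theorem Link.isZGroup_right {π : Set ℕ} {H : Subgroup G} (hH : IsHallSubgroup π H)
    (hz : IsZGroup H) : ∃ H' : Subgroup K, IsHallSubgroup π H' ∧ Nonempty (H ≃* H') := by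
  obtain ⟨z, hZ, hzc⟩ := exists_ztype_of_isZGroup H
  have D := L.hdata π
  have hH1 := isHall_top_iff.mpr hH
  obtain ⟨z', H', hR, hH', hZ'⟩ := D.ztransfer hH1 hZ
  have ho : orderOf z = orderOf z' :=
    Nat.dvd_antisymm (D.orderOf_dvd_right hH1 hZ hR) (D.symm.orderOf_dvd_right hH' hZ' hR)
  have hH'' := isHall_top_iff.mp hH'
  have hZG' : IsZGroup H' := classZ_of_cyclicAbove (fun p hp hpπ =>
    L.cyclic_right hp (fun P => cyclic_sylow_of_hall hH hp hpπ P)) hH''
  refine ⟨H', hH'', ?_⟩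
  have : NeZero (Nat.card G) := ⟨Nat.card_pos.ne'⟩
  have hzn := D.expG z (D.memG hR)
  have hzn' := D.expK z' (D.memK hR)
  have hJ := D.expGroup_eq hR
  have hS : expGroup (Nat.card G) (⊥ : Subgroup G) z hzn =
      expGroup (Nat.card G) (⊥ : Subgroup K) z' hzn' := by
    ext u
    rw [mem_expGroup_bot, mem_expGroup_bot]
    have h1 : z ^ (u : ZMod (Nat.card G)).val = z ^ 1 ↔ z' ^ (u : ZMod (Nat.card G)).val = z' ^ 1 := by
      rw [pow_eq_pow_iff_modEq, pow_eq_pow_iff_modEq, ho]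
    simpa using h1
  obtain ⟨a1, a2⟩ := expGroup_hall hH1 hzn hZ.norm
  obtain ⟨b1, b2⟩ := expGroup_hall hH' hzn' hZ'.norm
  have hAB : expGroup (Nat.card G) H z hzn = expGroup (Nat.card G) H' z' hzn' := by
    have mono : ∀ {A : Subgroup G}, A ≤ ⊤ → expGroup (Nat.card G) A z hzn ≤
        expGroup (Nat.card G) ⊤ z hzn := by
      rintro A - u ⟨m, hm, h⟩; exact ⟨m, mem_top m, h⟩
    have mono' : ∀ {A : Subgroup K}, A ≤ ⊤ → expGroup (Nat.card G) A z' hzn' ≤
        expGroup (Nat.card G) ⊤ z' hzn' := by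
      rintro A - u ⟨m, hm, h⟩; exact ⟨m, mem_top m, h⟩
    have bot : expGroup (Nat.card G) (⊥ : Subgroup G) z hzn ≤ expGroup (Nat.card G) H z hzn := by
      rintro u ⟨m, hm, h⟩
      rw [mem_bot] at hm
      exact ⟨m, by rw [hm]; exact H.one_mem, h⟩
    have bot' : expGroup (Nat.card G) (⊥ : Subgroup K) z' hzn' ≤
        expGroup (Nat.card G) H' z' hzn' := by
      rintro u ⟨m, hm, h⟩
      rw [mem_bot] at hm
      exact ⟨m, by rw [hm]; exact H'.one_mem, h⟩
    apply le_antisymm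
    · refine le_of_hall_between (π := π) (mono le_top) (S := expGroup (Nat.card G) ⊥ z hzn) ?_ a1 ?_
      · rw [hS]; exact bot'
      · rw [hJ]; exact b2
    · refine le_of_hall_between (π := π) (mono' le_top) (S := expGroup (Nat.card G) ⊥ z' hzn') ?_
        b1 ?_
      · rw [← hS]; exact bot
      · rw [← hJ]; exact a2
  have hcard : Nat.card H = Nat.card H' := by
    apply Nat.eq_of_factorization_eq Nat.card_pos.ne' Nat.card_pos.ne'
    intro p
    by_cases hp : p.Prime
    · by_cases hpπ : p ∈ π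
      · rw [hH1.fact_card hp hpπ, hH'.fact_card hp hpπ, D.card_fact hp hpπ]
      · rw [hH1.fact_card_not hpπ, hH'.fact_card_not hpπ]
    · rw [Nat.factorization_eq_zero_of_not_prime _ hp,
        Nat.factorization_eq_zero_of_not_prime _ hp]
  refine mulEquiv_of_isZGroup (x := (⟨z, hZ.mem⟩ : H)) (y := (⟨z', hZ'.mem⟩ : H')) hcard ?_
    (ztype_norm hZ) (ztype_norm hZ') ?_ ?_
  · rw [Subgroup.orderOf_mk, Subgroup.orderOf_mk, ho]
  · rintro ⟨w, hw⟩ hw2
    have h1 : w ∈ H ⊓ centralizer {z} := by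
      rw [mem_centralizer_singleton_iff] at hw2
      exact ⟨hw, mem_centralizer_singleton_iff.mpr (congrArg Subtype.val hw2)⟩
    obtain ⟨k, hk⟩ := mem_zpowers_iff.mp (hzc h1)
    exact mem_zpowers_iff.mpr ⟨k, Subtype.ext hk⟩
  · intro i
    rw [conj_iff_subtype, conj_iff_subtype, exps_iff_unit hzn, exps_iff_unit hzn', hAB, ho]

end Final

end HallTab
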