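import Pool.Agent.Work.MP_15bafc_al.Transfer

/-!
# Hall subgroups with a large normal cyclic subgroup
-/

set_option linter.unusedSectionVars false

namespace HallTab

open Subgroup
open scoped Pointwise

universe u v

section General

variable {G : Type u} [Group G]

lemma index_eq_ncard_range {A : Type*} [Group A] {X : Type*} (B : Subgroup A) (f : A → X)
    (h : ∀ a b, f a = f b ↔ a⁻¹ * b ∈ B) : B.index = (Set.range f).ncard := by
  rw [Subgroup.index, ← Nat.card_coe_set_eq]
  refine Nat.card_congr (Equiv.ofBijective (fun c : A ⧸ B =>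
    (⟨Quotient.liftOn' c f (fun a b hab => (h a b).mpr (QuotientGroup.leftRel_apply.mp hab)), by
      induction c using Quotient.inductionOn' with
      | h a => exact ⟨a, rfl⟩⟩ : Set.range f)) ⟨?_, ?_⟩)
  · intro c d hcd
    induction c using Quotient.inductionOn' with
    | h a =>
      induction d using Quotient.inductionOn' with
      | h b =>
        apply Quotient.sound'
        rw [QuotientGroup.leftRel_apply]
        exact (h a b).mp (congrArg Subtype.val hcd)
  · rintro ⟨_, a, rfl⟩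
    exact ⟨Quotient.mk'' a, rfl⟩

/-- exponents (modulo `n`) realised by conjugation in `M` -/
def expGroup (n : ℕ) [NeZero n] (M : Subgroup G) (z : G) (hz : z ^ n = 1) :
    Subgroup (ZMod n)ˣ where
  carrier := {u | ∃ m ∈ M, m * z * m⁻¹ = z ^ (u : ZMod n).val}
  mul_mem' := by
    rintro u v ⟨m, hm, hmu⟩ ⟨m', hm', hmv⟩
    refine ⟨m' * m, M.mul_mem hm' hm, ?_⟩
    have h1 : (((u * v : (ZMod n)ˣ) : ZMod n)).val ≡ (u : ZMod n).val * (v : ZMod n).val [MOD n] := by
      rw [Units.val_mul, ZMod.val_mul]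
      exact Nat.mod_modEq _ _
    rw [pow_of_modEq hz h1, pow_mul', ← hmv, conj_pow, ← hmu]
    group
  one_mem' := by
    refine ⟨1, M.one_mem, ?_⟩
    have h1 : (((1 : (ZMod n)ˣ) : ZMod n)).val ≡ 1 [MOD n] := by
      rw [Units.val_one, ZMod.val_one_eq_one_mod]
      exact Nat.mod_modEq _ _
    rw [pow_of_modEq hz h1]; simp
  inv_mem' := by
    rintro u ⟨m, hm, hmu⟩
    refine ⟨m⁻¹, M.inv_mem hm, ?_⟩
    have h1 : (u : ZMod n).val * (((u⁻¹ : (ZMod n)ˣ) : ZMod n)).val ≡ 1 [MOD n] := by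
      rw [← ZMod.natCast_eq_natCast_iff]
      push_cast
      rw [ZMod.natCast_zmod_val, ZMod.natCast_zmod_val, Units.mul_inv]
    have h2 : m⁻¹ * z ^ (u : ZMod n).val * m⁻¹⁻¹ = z := by
      rw [← hmu]; group
    have h3 := congrArg (fun w => w ^ (((u⁻¹ : (ZMod n)ˣ) : ZMod n)).val) h2
    simp only [conj_pow] at h3
    rw [← pow_mul, pow_of_modEq hz h1, pow_one] at h3
    exact h3

lemma mem_expGroup {n : ℕ} [NeZero n] {M : Subgroup G} {z : G} {hz : z ^ n = 1} {u : (ZMod n)ˣ} :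
    u ∈ expGroup n M z hz ↔ ∃ m ∈ M, m * z * m⁻¹ = z ^ (u : ZMod n).val := Iff.rfl

lemma mem_expGroup_bot {n : ℕ} [NeZero n] {z : G} {hz : z ^ n = 1} {u : (ZMod n)ˣ} :
    u ∈ expGroup n (⊥ : Subgroup G) z hz ↔ z ^ (u : ZMod n).val = z := by
  rw [mem_expGroup]
  constructor
  · rintro ⟨m, hm, h⟩
    rw [mem_bot] at hm
    subst hm
    simpa using h.symm
  · intro h
    exact ⟨1, one_mem _, by simpa using h.symm⟩

variable [Finite G]

/-- powers of an element mapping `z` into `⟨z⟩` normalise `⟨z⟩` -/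
lemma mem_norm_zpowers {m z : G} (h : m * z * m⁻¹ ∈ zpowers z) :
    m ∈ normalizer (zpowers z : Set G) := by
  have h3 : zpowers m ≤ normalizer (zpowers z : Set G) := by
    rw [norm_zpowers_iff]
    intro t ht
    obtain ⟨n, hn⟩ := (isOfFinOrder_of_finite m).mem_powers_iff_mem_zpowers.mpr ht
    simp only at hn
    rw [← hn]
    clear hn
    induction n with
    | zero => simp
    | succ n ih =>
      obtain ⟨s, hs⟩ := mem_zpowers_iff.mp ih
      have e : m ^ (n + 1) * z * (m ^ (n + 1))⁻¹ = m * (m ^ n * z * (m ^ n)⁻¹) * m⁻¹ := by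
        rw [pow_succ']; simp only [mul_assoc, mul_inv_rev]
      rw [e, ← hs, ← conj_zpow]
      exact zpow_mem h s
  exact h3 (mem_zpowers m)

/-- the index of the centraliser in the normaliser of `⟨z⟩` in terms of exponents -/
lemma relIndex_expGroup {n : ℕ} [NeZero n] {M : Subgroup G} {z : G} (hz : z ^ n = 1) :
    (M ⊓ centralizer ({z} : Set G)).relIndex (M ⊓ normalizer (zpowers z : Set G)) =
      (expGroup n (⊥ : Subgroup G) z hz).relIndex (expGroup n M z hz) := by
  set N := M ⊓ normalizer (zpowers z : Set G) with hN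
  set C := M ⊓ centralizer ({z} : Set G) with hC
  set J := expGroup n M z hz with hJ
  set S := expGroup n (⊥ : Subgroup G) z hz with hS
  have h1 : C.relIndex N = (Set.range (fun m : N => (m : G) * z * (m : G)⁻¹)).ncard := by
    apply index_eq_ncard_range
    intro a b
    rw [mem_subgroupOf, hC, mem_inf, mem_centralizer_singleton_iff]
    simp only [Subgroup.coe_mul, Subgroup.coe_inv]
    constructor
    · intro h
      refine ⟨M.mul_mem (M.inv_mem a.2.1) b.2.1, ?_⟩
      have h2 := congrArg (fun w => (a : G)⁻¹ * w * (b : G)) h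
      have e1 : (a : G)⁻¹ * ((a : G) * z * (a : G)⁻¹) * (b : G) = z * ((a : G)⁻¹ * b) := by group
      have e2 : (a : G)⁻¹ * ((b : G) * z * (b : G)⁻¹) * (b : G) = (a : G)⁻¹ * b * z := by group
      simp only [e1, e2] at h2
      exact h2.symm
    · rintro ⟨-, h⟩
      have h2 := congrArg (fun w => (a : G) * w * (b : G)⁻¹) h
      have e1 : (a : G) * ((a : G)⁻¹ * (b : G) * z) * (b : G)⁻¹ = b * z * (b : G)⁻¹ := by group
      have e2 : (a : G) * (z * ((a : G)⁻¹ * (b : G))) * (b : G)⁻¹ = a * z * (a : G)⁻¹ := by group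
      simp only [e1, e2] at h2
      exact h2.symm
  have h2 : S.relIndex J = (Set.range (fun u : J => z ^ ((u : (ZMod n)ˣ) : ZMod n).val)).ncard := by
    apply index_eq_ncard_range
    intro a b
    rw [mem_subgroupOf, hS, mem_expGroup_bot]
    simp only [Subgroup.coe_mul, Subgroup.coe_inv]
    have hmul : ∀ u v : (ZMod n)ˣ, z ^ (((u * v : (ZMod n)ˣ) : ZMod n)).val =
        (z ^ (u : ZMod n).val) ^ (v : ZMod n).val := by
      intro u v
      rw [← pow_mul]
      apply pow_of_modEq hz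
      rw [Units.val_mul, ZMod.val_mul]
      exact Nat.mod_modEq _ _
    have hone : z ^ (((1 : (ZMod n)ˣ) : ZMod n)).val = z := by
      have h1 : (((1 : (ZMod n)ˣ) : ZMod n)).val ≡ 1 [MOD n] := by
        rw [Units.val_one, ZMod.val_one_eq_one_mod]
        exact Nat.mod_modEq _ _
      rw [pow_of_modEq hz h1, pow_one]
    constructor
    · intro h
      rw [mul_comm, hmul, ← h, ← hmul, mul_inv_cancel, hone]
    · intro h
      have h3 : z ^ (((b : (ZMod n)ˣ) : ZMod n)).val =
          (z ^ ((((a : (ZMod n)ˣ)⁻¹ * (b : (ZMod n)ˣ) : (ZMod n)ˣ) : ZMod n)).val) ^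
            (((a : (ZMod n)ˣ) : ZMod n)).val := by
        rw [← hmul]
        congr 3
        rw [mul_comm, mul_inv_cancel_left]
      rw [h3, h]
  rw [h1, h2]
  congr 1
  ext y
  constructor
  · rintro ⟨m, rfl⟩
    have h3 : (m : G) * z * (m : G)⁻¹ ∈ zpowers z :=
      ((mem_normalizer_iff.mp m.2.2) z).mp (mem_zpowers z)
    obtain ⟨j, hj⟩ := (isOfFinOrder_of_finite z).mem_powers_iff_mem_zpowers.mpr h3
    simp only at hj
    -- adjust `j` to a unit modulo `n`
    have hord : orderOf z ∣ n := orderOf_dvd_of_pow_eq_one hz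
    have hjc : Nat.Coprime j (orderOf z) := by
      have h4 : orderOf (z ^ j) = orderOf z := by
        rw [hj]; exact (MulAut.conj (m : G)).orderOf_eq z
      rw [orderOf_pow] at h4
      have h5 := Nat.mul_div_cancel' (Nat.gcd_dvd_left (orderOf z) j)
      rw [h4] at h5
      have h6 : Nat.gcd (orderOf z) j = 1 :=
        Nat.eq_of_mul_eq_mul_right (orderOf_pos z) (by rw [h5, one_mul])
      exact Nat.Coprime.symm h6
    have hsurj := ZMod.unitsMap_surjective hord
    have : NeZero (orderOf z) := ⟨(orderOf_pos z).ne'⟩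
    obtain ⟨u, hu⟩ := hsurj (ZMod.unitOfCoprime j hjc)
    have h6 : z ^ (u : ZMod n).val = z ^ j := by
      apply pow_eq_pow_iff_modEq.mpr
      rw [← ZMod.natCast_eq_natCast_iff]
      have h7 := congrArg (fun w : (ZMod (orderOf z))ˣ => (w : ZMod (orderOf z))) hu
      simp only [ZMod.unitsMap_val, ZMod.coe_unitOfCoprime] at h7
      rw [← h7, ZMod.natCast_val]
    refine ⟨⟨u, ?_⟩, ?_⟩
    · rw [hJ, mem_expGroup]
      exact ⟨m, m.2.1, by rw [h6, hj]⟩
    · simp only
      rw [h6, hj]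
  · rintro ⟨⟨u, m, hm, hmu⟩, rfl⟩
    refine ⟨⟨m, hm, ?_⟩, hmu⟩
    apply mem_norm_zpowers
    rw [hmu]
    exact npow_mem_zpowers z _

/-- the automorphisms of a cyclic group commute -/
lemma conj_same_action {m m' z : G} (hm : m ∈ normalizer (zpowers z : Set G))
    (hm' : m' ∈ normalizer (zpowers z : Set G)) :
    (m * m' * m⁻¹) * z * (m * m' * m⁻¹)⁻¹ = m' * z * m'⁻¹ := by
  have h1 : m⁻¹ * z * m ∈ zpowers z := by
    have := ((mem_normalizer_iff.mp ((normalizer (zpowers z : Set G)).inv_mem hm)) z).mp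
      (mem_zpowers z)
    rwa [inv_inv] at this
  have h2 : m'⁻¹ * z * m' ∈ zpowers z := by
    have := ((mem_normalizer_iff.mp ((normalizer (zpowers z : Set G)).inv_mem hm')) z).mp
      (mem_zpowers z)
    rwa [inv_inv] at this
  have h3 := comm_mem_centralizer h1 h2
  have h4 : m' * z * m'⁻¹ ∈ zpowers z := ((mem_normalizer_iff.mp hm') z).mp (mem_zpowers z)
  obtain ⟨k, hk⟩ := mem_zpowers_iff.mp h4
  have h5 : Commute (m * m' * m⁻¹ * m'⁻¹) (z ^ k) := by
    have : Commute (m * m' * m⁻¹ * m'⁻¹) z := mem_centralizer_singleton_iff.mp h3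
    exact this.zpow_right k
  have h6 : (m * m' * m⁻¹) * z * (m * m' * m⁻¹)⁻¹ =
      (m * m' * m⁻¹ * m'⁻¹) * (m' * z * m'⁻¹) * (m * m' * m⁻¹ * m'⁻¹)⁻¹ := by group
  rw [h6, ← hk, h5.eq, mul_inv_cancel_right]

/-- every `p`-element is conjugate into a Hall subgroup -/
lemma conj_into_hall {π : Set ℕ} {H N : Subgroup G} (hH : IsHall π H N) {p : ℕ} (hp : p.Prime)
    (hpπ : p ∈ π) {m : G} (hm : m ∈ N) (hmp : IsEl {p} m) : ∃ n ∈ N, n * m * n⁻¹ ∈ H := by
  have h1 : IsPGroup p (zpowers m) := by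
    apply isPGroup_of_card
    intro r hr hrd
    rw [Nat.card_zpowers] at hrd
    exact hmp r hr hrd
  obtain ⟨P, hP1, hP⟩ := exists_sylow hp (zpowers_le.mpr hm) h1
  obtain ⟨Q, -, hQ⟩ := exists_sylow hp (bot_le : (⊥ : Subgroup G) ≤ H) IsPGroup.of_bot
  obtain ⟨n, hn, hnP⟩ := sylow_conj hp hP (hQ.trans_subset hH (Set.singleton_subset_iff.mpr hpπ))
  refine ⟨n, hn, hQ.1 ?_⟩
  rw [← hnP]
  exact conj_mem_cj (hP1 (mem_zpowers m))

/-- the structure of the Hall subgroups considered: a normal cyclic subgroup `⟨z⟩` whose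
centraliser modulo `⟨z⟩` is a `q`-group, and every `p`-element centralising the `p'`-part of `⟨z⟩`
centralises `z` -/
structure ZType (q : ℕ) (z : G) (H : Subgroup G) : Prop where
  hq : q.Prime
  mem : z ∈ H
  norm : ∀ h ∈ H, h * z * h⁻¹ ∈ zpowers z
  quot : ∀ r, r.Prime → r ≠ q → ¬ r ∣ (zpowers z).relIndex (H ⊓ centralizer {z})
  cent : ∀ p, p.Prime → ∀ h ∈ H, IsEl {p} h →
    (∀ w ∈ zpowers z, ¬ p ∣ orderOf w → Commute h w) → Commute h z

/-- existence of a Hall subgroup normalising `⟨z⟩` -/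
theorem exists_of_z {π : Set ℕ} {q : ℕ} {z : G} {M : Subgroup G} (hq : q.Prime) (hz : z ∈ M)
    (hzπ : IsEl π z)
    (hC : ∀ r ∈ π, r.Prime → r ≠ q → ¬ r ∣ (zpowers z).relIndex (M ⊓ centralizer {z}))
    (hN : ∀ r ∈ π, r.Prime → ¬ r ∣ (M ⊓ normalizer (zpowers z : Set G)).relIndex M) :
    ∃ H, z ∈ H ∧ IsHall π H M ∧ H ≤ M ⊓ normalizer (zpowers z : Set G) ∧
      ∀ r, r.Prime → r ≠ q → ¬ r ∣ (zpowers z).relIndex (H ⊓ centralizer {z}) := by
  set N := M ⊓ normalizer (zpowers z : Set G) with hNd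
  set C := M ⊓ centralizer ({z} : Set G) with hCd
  have hCN : C ≤ N := cent_le_norm
  have hNC : N ≤ normalizer (C : Set G) := norm_le_norm_cent
  have hNM : N ≤ M := inf_le_left
  have hzC : zpowers z ≤ C := by
    rw [zpowers_le]
    exact ⟨hz, mem_centralizer_singleton_iff.mpr rfl⟩
  -- the `q`-part
  obtain ⟨Q, hQC, hQq, hQs, hQconj⟩ : ∃ Q : Subgroup G, Q ≤ C ∧
      (∀ r, r.Prime → r ∣ Nat.card Q → r = q ∧ q ∈ π) ∧ (q ∈ π → ¬ q ∣ Q.relIndex C) ∧
      (∀ n ∈ N, ∃ c ∈ C, cj c Q = cj n Q) := by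
    by_cases hqπ : q ∈ π
    · obtain ⟨Q, -, hQ⟩ := exists_sylow hq (bot_le : (⊥ : Subgroup G) ≤ C) IsPGroup.of_bot
      refine ⟨Q, hQ.1, fun r hr hd => ⟨hQ.2.1 r hr hd, hqπ⟩, fun _ => hQ.2.2 q rfl hq, ?_⟩
      intro n hn
      have h1 := hQ.cj n
      rw [cj_eq_iff_mem_normalizer.mpr (hNC hn)] at h1
      exact sylow_conj hq hQ h1
    · refine ⟨⊥, bot_le, ?_, fun h => absurd h hqπ, ?_⟩
      · intro r hr hd
        rw [Subgroup.card_bot] at hd
        exact absurd (Nat.dvd_one.mp hd) hr.one_lt.ne'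
      · intro n _
        refine ⟨1, C.one_mem, ?_⟩
        rw [cj_one]
        exact (Subgroup.map_bot _).symm
  set L := Q ⊔ zpowers z with hL
  have hLC : L ≤ C := sup_le hQC hzC
  have hQn : Q ≤ normalizer (zpowers z : Set G) := (hQC.trans hCN).trans inf_le_right
  have hi : (zpowers z).relIndex L ∣ Nat.card Q := by
    rw [hL, relIndex_sup_normalizer hQn]; exact relIndex_dvd_card _ _
  have hLHall : IsHall π L C := by
    refine ⟨hLC, ?_, ?_⟩
    · intro s hs hsd
      rw [← card_mul_relIndex (le_sup_right : zpowers z ≤ L)] at hsd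
      rcases hs.dvd_mul.mp hsd with hsd | hsd
      · rw [Nat.card_zpowers] at hsd
        exact hzπ s hs hsd
      · obtain ⟨h1, h2⟩ := hQq s hs (hsd.trans hi)
        rw [h1]; exact h2
    · intro s hsπ hs hsd
      by_cases hsq : s = q
      · subst hsq
        exact hQs hsπ (hsd.trans (relIndex_dvd_of_le_left C le_sup_left))
      · exact hC s hsπ hs hsq (hsd.trans (relIndex_dvd_of_le_left C le_sup_right))
  have hcz : ∀ n ∈ N, cj n (zpowers z) = zpowers z := fun n hn =>
    cj_eq_iff_mem_normalizer.mpr hn.2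
  have hfr : ∀ n ∈ N, ∃ c ∈ C, c⁻¹ * n ∈ N ⊓ normalizer (L : Set G) := by
    intro n hn
    obtain ⟨c, hc, hce⟩ := hQconj n hn
    refine ⟨c, hc, N.mul_mem (N.inv_mem (hCN hc)) hn, ?_⟩
    apply (cj_eq_iff_mem_normalizer (H := L)).mp
    have h5 : cj n L = cj c L := by
      rw [hL, cj_sup, cj_sup, hcz n hn, hcz c (hCN hc), hce]
    rw [← cj_cj, h5, cj_inv_cj]
  set M₁ := N ⊓ normalizer (L : Set G) with hM₁
  set D := M₁ ⊓ C with hD
  have hM₁N : M₁ ≤ N := inf_le_left
  have hLM₁ : L ≤ M₁ := le_inf (hLC.trans hCN) le_normalizer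
  have hLD : L ≤ D := le_inf hLM₁ hLC
  have hLHallD : IsHall π L D := hLHall.mid hLD inf_le_right
  have hcD : ∀ a ∈ M₁, ∀ b ∈ M₁, a * b * a⁻¹ * b⁻¹ ∈ D := by
    intro a ha b hb
    have h2 : a * b * a⁻¹ * b⁻¹ ∈ M₁ :=
      M₁.mul_mem (M₁.mul_mem (M₁.mul_mem ha hb) (M₁.inv_mem ha)) (M₁.inv_mem hb)
    refine ⟨h2, h2.1.1, ?_⟩
    have hn := norm_zpowers_iff.mp (hM₁N.trans (inf_le_right : N ≤ _))
    apply comm_mem_centralizer
    · have := hn _ (M₁.inv_mem ha); rwa [inv_inv] at this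
    · have := hn _ (M₁.inv_mem hb); rwa [inv_inv] at this
  obtain ⟨H, hLH, hH⟩ := exists_hall_over _ M₁ D L rfl inf_le_left hLHallD inf_le_right hcD
  have hHM : IsHall π H M := by
    refine (hH.trans' hM₁N ?_).trans' hNM hN
    intro s hsπ hs hsd
    rw [relIndex_eq_of_cover hCN hfr] at hsd
    exact hLHall.2.2 s hsπ hs (hsd.trans (relIndex_dvd_of_le_left C hLM₁))
  refine ⟨H, hLH ((le_sup_right : zpowers z ≤ L) (mem_zpowers z)), hHM, hH.1.trans hM₁N, ?_⟩
  have h3 : L = H ⊓ centralizer {z} := by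
    apply hLHallD.eq_of_le
    · refine le_inf hLH (hLC.trans inf_le_right)
    · refine le_inf (inf_le_left.trans hH.1) ?_
      exact le_inf (inf_le_left.trans hHM.1) inf_le_right
    · intro s hs hsd
      exact hH.2.1 s hs (hsd.trans (card_dvd_of_le inf_le_left))
  rw [← h3]
  intro s hs hsq hsd
  exact hsq (hQq s hs (hsd.trans hi)).1

/-- consequence of the condition on `p`-elements for all of `M` -/
lemma ZType.key {π : Set ℕ} {q : ℕ} {z : G} {H M : Subgroup G} (hZ : ZType q z H)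
    (hH : IsHall π H M) {p : ℕ} (hp : p.Prime) (hpπ : p ∈ π) {j k : ℕ} {m : G} (hm : m ∈ M)
    (hmj : m * z * m⁻¹ = z ^ j) (hj1 : j ≡ 1 [MOD ordCompl[p] (orderOf z)])
    (hj2 : j ^ p ^ k ≡ 1 [MOD orderOf z]) : j ≡ 1 [MOD orderOf z] := by
  set N := M ⊓ normalizer (zpowers z : Set G) with hNd
  have hHN : H ≤ N := le_inf hH.1 (norm_zpowers_iff.mpr hZ.norm)
  have hHall : IsHall π H N := hH.mid hHN inf_le_left
  have hmN : m ∈ N := ⟨hm, mem_norm_zpowers (by rw [hmj]; exact npow_mem_zpowers z j)⟩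
  have hpow : ∀ t : ℕ, m ^ t * z * (m ^ t)⁻¹ = z ^ (j ^ t) := by
    intro t
    induction t with
    | zero => simp
    | succ t ih =>
      have e : m ^ (t + 1) * z * (m ^ (t + 1))⁻¹ = m ^ t * (m * z * m⁻¹) * (m ^ t)⁻¹ := by
        rw [pow_succ]; simp only [mul_assoc, mul_inv_rev]
      rw [e, hmj, ← conj_pow, ih, ← pow_mul, ← pow_succ]
  set t := ordCompl[p] (orderOf m) with ht
  have hm0 : orderOf m ≠ 0 := (orderOf_pos m).ne'
  have hmt : (m ^ t) ^ (ordProj[p] (orderOf m)) = 1 := by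
    rw [← pow_mul, mul_comm, ht, Nat.ordProj_mul_ordCompl_eq_self, pow_orderOf_eq_one]
  have hptj : ¬ p ∣ t := Nat.not_dvd_ordCompl hp hm0
  have hmtel : IsEl {p} (m ^ t) := by
    intro r hr hrd
    have h1 := hrd.trans (orderOf_dvd_of_pow_eq_one hmt)
    exact (Nat.prime_dvd_prime_iff_eq hr hp).mp (hr.dvd_of_dvd_pow h1)
  obtain ⟨n, hn, hnH⟩ := conj_into_hall hHall hp hpπ (N.pow_mem hmN t) hmtel
  set h := n * m ^ t * n⁻¹ with hh
  have hact : h * z * h⁻¹ = z ^ (j ^ t) := by
    rw [hh, conj_same_action hn.2 (N.pow_mem hmN t).2, hpow]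
  have hcomm : Commute h z := by
    apply hZ.cent p hp h hnH (hmtel.conj n)
    intro w hw hpw
    obtain ⟨i, hi⟩ := (isOfFinOrder_of_finite z).mem_powers_iff_mem_zpowers.mpr hw
    simp only at hi
    have h1 : h * w * h⁻¹ = w ^ (j ^ t) := by
      rw [← hi, ← conj_pow, hact, ← pow_mul, ← pow_mul, mul_comm]
    have h2 : orderOf w ∣ ordCompl[p] (orderOf z) := by
      have h3 : orderOf w ∣ orderOf z := by rw [← hi]; exact orderOf_pow_dvd i
      rw [← Nat.ordProj_mul_ordCompl_eq_self (orderOf z) p] at h3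
      refine Nat.Coprime.dvd_of_dvd_mul_left ?_ h3
      exact (Nat.Coprime.pow_left _ ((Nat.Prime.coprime_iff_not_dvd hp).mpr hpw)).symm
    have h4 : w ^ (j ^ t) = w := by
      have h5 : j ^ t ≡ 1 [MOD orderOf w] := by
        have := (hj1.of_dvd h2).pow t
        rwa [one_pow] at this
      have := pow_eq_pow_iff_modEq.mpr h5
      rwa [pow_one] at this
    rw [h4] at h1
    exact mul_inv_eq_iff_eq_mul.mp h1
  have h6 : z ^ (j ^ t) = z ^ 1 := by
    rw [← hact, pow_one, hcomm.eq, mul_inv_cancel_right]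
  have h7 : j ^ t ≡ 1 [MOD orderOf z] := pow_eq_pow_iff_modEq.mp h6
  -- combine
  have h8 : ((j : ZMod (orderOf z))) ^ t = 1 := by
    have := (ZMod.natCast_eq_natCast_iff _ _ _).mpr h7
    push_cast at this
    exact this
  have h9 : ((j : ZMod (orderOf z))) ^ (p ^ k) = 1 := by
    have := (ZMod.natCast_eq_natCast_iff _ _ _).mpr hj2
    push_cast at this
    exact this
  have h10 : orderOf (j : ZMod (orderOf z)) ∣ Nat.gcd t (p ^ k) :=
    Nat.dvd_gcd (orderOf_dvd_of_pow_eq_one h8) (orderOf_dvd_of_pow_eq_one h9)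
  have h11 : Nat.gcd t (p ^ k) = 1 := by
    rw [Nat.gcd_comm]
    exact Nat.Coprime.pow_left _ ((Nat.Prime.coprime_iff_not_dvd hp).mpr hptj)
  rw [h11, Nat.dvd_one, orderOf_eq_one_iff] at h10
  rw [← ZMod.natCast_eq_natCast_iff, h10, Nat.cast_one]

end General


section Main

variable {G : Type u} {K : Type v} [Group G] [Group K] [Finite G] [Finite K]

/-- `p`-power order of exponents congruent to `1` modulo `p` -/
lemma pow_modEq_one {p n j : ℕ} (hp : p.Prime) (hn : 0 < n) (hj1 : j ≡ 1 [MOD p])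
    (hj2 : j ≡ 1 [MOD ordCompl[p] n]) : j ^ p ^ (n.factorization p) ≡ 1 [MOD n] := by
  have h1 : (p : ℤ) ∣ (j : ℤ) - 1 := by
    have := (Nat.modEq_iff_dvd.mp hj1.symm)
    simpa using this
  have h2 := dvd_sub_pow_of_dvd_sub h1 (n.factorization p)
  have h3 : j ^ p ^ (n.factorization p) ≡ 1 [MOD ordProj[p] n] := by
    apply Nat.ModEq.symm
    rw [Nat.modEq_iff_dvd]
    push_cast
    rw [one_pow] at h2
    exact (pow_dvd_pow _ (Nat.le_succ _)).trans h2
  have h4 : j ^ p ^ (n.factorization p) ≡ 1 [MOD ordCompl[p] n] := by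
    have := hj2.pow (p ^ (n.factorization p))
    rwa [one_pow] at this
  have h5 := (Nat.modEq_and_modEq_iff_modEq_mul (Nat.Coprime.pow_left
    (n.factorization p) (Nat.coprime_ordCompl hp hn.ne'))).mp ⟨h3, h4⟩
  rwa [Nat.ordProj_mul_ordCompl_eq_self] at h5

namespace HData

variable {π : Set ℕ} {n : ℕ} {M : Subgroup G} {M' : Subgroup K} {R : G → K → Prop}

lemma prime_dvd_right (D : HData π n M M' R) {p : ℕ} (hp : p.Prime) {x : G} {x' : K}
    (h : R x x') (hpx : p ∣ orderOf x) : p ∣ orderOf x' := by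
  by_contra hcon
  obtain ⟨e, he1, he2⟩ := exists_exp hp D.npos 1 0
  have hnp : ¬ p ∣ 1 := fun hd => hp.one_lt.ne' (Nat.dvd_one.mp hd)
  have hE : HallExp n e := hallExp_of hp D.npos he1 he2 (Or.inr hnp) (hallExp_zero n)
  have h1 := D.pow h hE
  have h2 : x' ^ e = 1 := by
    rw [pow_of_modEq (pow_ordCompl hp (D.expK x' (D.memK h)) hcon) he2, pow_zero]
  rw [h2] at h1
  have h3 : x ^ e = 1 := by
    by_contra hne
    exact D.ne_one_right h1 hne rfl
  have h4 : orderOf x ∣ e := orderOf_dvd_of_pow_eq_one h3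
  have h5 : p ∣ n := hpx.trans (orderOf_dvd_of_pow_eq_one (D.expG x (D.memG h)))
  have h6 : p ∣ ordProj[p] n := by
    apply dvd_pow_self
    exact (hp.factorization_pos_of_dvd D.npos.ne' h5).ne'
  exact hnp ((he1.dvd_iff h6).mp (hpx.trans h4))

/-- exponents coprime to `n` -/
lemma pow_coprime (D : HData π n M M' R) {x : G} {x' : K} (h : R x x') {j : ℕ}
    (hj : j.Coprime n) : R (x ^ j) (x' ^ j) := by
  apply D.pow h
  intro q hq hqn hqj
  exact absurd (Nat.dvd_gcd hqj hqn) (by rw [hj]; exact fun hd => hq.one_lt.ne' (Nat.dvd_one.mp hd))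

/-- under the structure hypothesis the order of `z` divides the order of `z'` -/
lemma orderOf_dvd_right (D : HData π n M M' R) {q : ℕ} {z : G} {z' : K} {H : Subgroup G}
    (hH : IsHall π H M) (hZ : ZType q z H) (h : R z z') : orderOf z ∣ orderOf z' := by
  rw [← Nat.factorization_prime_le_iff_dvd (orderOf_pos z).ne' (orderOf_pos z').ne']
  intro p hp
  by_contra hlt
  push Not at hlt
  set a := (orderOf z).factorization p with ha
  set b := (orderOf z').factorization p with hb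
  have hpz : p ∣ orderOf z := by
    by_contra hcon
    rw [ha, Nat.factorization_eq_zero_of_not_dvd hcon] at hlt
    omega
  have hpπ : p ∈ π := D.elG h p hp hpz
  have hpz' := D.prime_dvd_right hp h hpz
  have hb1 : 1 ≤ b := hp.factorization_pos_of_dvd (orderOf_pos z').ne' hpz'
  have hzn : orderOf z ∣ n := orderOf_dvd_of_pow_eq_one (D.expG z (D.memG h))
  have hz'n : orderOf z' ∣ n := orderOf_dvd_of_pow_eq_one (D.expK z' (D.memK h))
  obtain ⟨j, hj1, hj2⟩ := exists_exp hp D.npos (1 + p ^ b) 1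
  have hpn : p ∣ n := hpz.trans hzn
  have hpp : p ∣ ordProj[p] n := by
    apply dvd_pow_self
    exact (hp.factorization_pos_of_dvd D.npos.ne' hpn).ne'
  have hpb : 1 + p ^ b ≡ 1 [MOD p] := by
    have : p ^ b ≡ 0 [MOD p] := (Nat.modEq_zero_iff_dvd).mpr (dvd_pow_self p (by omega))
    simpa using this.add_left 1
  have hjp : j ≡ 1 [MOD p] := (hj1.of_dvd hpp).trans hpb
  have hE : HallExp n j := hallExp_of hp D.npos hj1 hj2 (Or.inr (fun hd => by
    have := (hpb.dvd_iff dvd_rfl).mp hd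
    exact hp.one_lt.ne' (Nat.dvd_one.mp this))) (hallExp_one n)
  -- the divisibilities between parts
  have hcompl : ∀ w : ℕ, w ∣ n → w ≠ 0 → ordCompl[p] w ∣ ordCompl[p] n := by
    intro w hw _
    exact Nat.ordCompl_dvd_ordCompl_of_dvd hw p
  have hz'j : z' ^ j = z' := by
    have h1 : j ≡ 1 [MOD ordProj[p] (orderOf z')] := by
      have h2 : ordProj[p] (orderOf z') ∣ ordProj[p] n :=
        Nat.ordProj_dvd_ordProj_of_dvd D.npos.ne' hz'n p
      have h3 : 1 + p ^ b ≡ 1 + 0 [MOD ordProj[p] (orderOf z')] :=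
        Nat.ModEq.add_left 1 ((Nat.modEq_zero_iff_dvd).mpr dvd_rfl)
      exact (hj1.of_dvd h2).trans h3
    have h2 : j ≡ 1 [MOD ordCompl[p] (orderOf z')] :=
      hj2.of_dvd (hcompl _ hz'n (orderOf_pos z').ne')
    have h5 := (Nat.modEq_and_modEq_iff_modEq_mul (Nat.Coprime.pow_left
      ((orderOf z').factorization p) (Nat.coprime_ordCompl hp (orderOf_pos z').ne'))).mp ⟨h1, h2⟩
    rw [Nat.ordProj_mul_ordCompl_eq_self] at h5
    have := pow_eq_pow_iff_modEq.mpr h5
    rwa [pow_one] at this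
  have h1 := D.pow h hE
  rw [hz'j] at h1
  obtain ⟨m, hm, hmj⟩ := (D.conj h h1).mpr ⟨1, M'.one_mem, by simp⟩
  have h2 := hZ.key hH hp hpπ hm hmj (hj2.of_dvd (hcompl _ hzn (orderOf_pos z).ne'))
    (k := n.factorization p) ((pow_modEq_one hp D.npos hjp hj2).of_dvd hzn)
  have h3 : 1 + p ^ b ≡ 1 + 0 [MOD p ^ a] := by
    have h4 : ordProj[p] (orderOf z) ∣ ordProj[p] n :=
      Nat.ordProj_dvd_ordProj_of_dvd D.npos.ne' hzn p
    have h5 : p ^ a ∣ orderOf z := Nat.ordProj_dvd _ _
    exact (hj1.of_dvd h4).symm.trans (h2.of_dvd h5)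
  have h4 : p ^ b ≡ 0 [MOD p ^ a] := Nat.ModEq.add_left_cancel' 1 h3
  rw [Nat.modEq_zero_iff_dvd] at h4
  have := (Nat.pow_dvd_pow_iff_le_right hp.one_lt).mp h4
  omega

/-- exponents realised by conjugation agree -/
lemma expGroup_eq (D : HData π n M M' R) [NeZero n] {z : G} {z' : K} (h : R z z') :
    expGroup n M z (D.expG z (D.memG h)) = expGroup n M' z' (D.expK z' (D.memK h)) := by
  ext u
  rw [mem_expGroup, mem_expGroup]
  exact D.conj h (D.pow_coprime h (ZMod.val_coe_unit_coprime u))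

/-- transfer of Hall subgroups with a large normal cyclic subgroup -/
theorem ztransfer (D : HData π n M M' R) {q : ℕ} {z : G} {H : Subgroup G} (hH : IsHall π H M)
    (hZ : ZType q z H) :
    ∃ (z' : K) (H' : Subgroup K), R z z' ∧ IsHall π H' M' ∧ ZType q z' H' := by
  have hzM : z ∈ M := hH.1 hZ.mem
  have hzπ : IsEl π z := by
    intro p hp hd
    refine hH.2.1 p hp (hd.trans ?_)
    have := Subgroup.card_dvd_of_le (zpowers_le.mpr hZ.mem)
    rwa [Nat.card_zpowers] at this
  obtain ⟨z', h⟩ := D.totG z hzM hzπ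
  have hz'M := D.memK h
  have hz'π := D.elK h
  have hdvd := D.orderOf_dvd_right hH hZ h
  have : NeZero n := ⟨D.npos.ne'⟩
  have hHN : H ≤ M ⊓ normalizer (zpowers z : Set G) :=
    le_inf hH.1 (norm_zpowers_iff.mpr hZ.norm)
  set N := M ⊓ normalizer (zpowers z : Set G) with hNd
  set C := M ⊓ Subgroup.centralizer ({z} : Set G) with hCd
  set N' := M' ⊓ normalizer (zpowers z' : Set K) with hN'd
  set C' := M' ⊓ Subgroup.centralizer ({z'} : Set K) with hC'd
  have hCN : C ≤ N := cent_le_norm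
  have hC'N' : C' ≤ N' := cent_le_norm
  have hHC : IsHall π (H ⊓ C) C :=
    (hH.mid hHN inf_le_left).inf_normal hCN norm_le_norm_cent
  have hHC' : H ⊓ C = H ⊓ Subgroup.centralizer {z} := by
    rw [hCd, ← inf_assoc, inf_eq_left.mpr hH.1]
  rw [hHC'] at hHC
  have hzL : zpowers z ≤ H ⊓ Subgroup.centralizer {z} := by
    rw [zpowers_le]; exact ⟨hZ.mem, mem_centralizer_singleton_iff.mpr rfl⟩
  have hz'C' : zpowers z' ≤ C' := by
    rw [zpowers_le]; exact ⟨hz'M, mem_centralizer_singleton_iff.mpr rfl⟩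
  have hcentr : ∀ r ∈ π, r.Prime → (Nat.card C).factorization r = (Nat.card C').factorization r :=
    fun r hr hrp => D.cent h r hr hrp
  -- centraliser condition on the other side
  have hC'q : ∀ r ∈ π, r.Prime → r ≠ q → ¬ r ∣ (zpowers z').relIndex C' := by
    intro r hrπ hr hrq hrd
    have e1 := card_mul_relIndex hz'C'
    have e2 := card_mul_relIndex hzL
    have f1 : (Nat.card C').factorization r = (orderOf z').factorization r +
        ((zpowers z').relIndex C').factorization r := by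
      rw [← e1, Nat.factorization_mul Nat.card_pos.ne' (relIndex_pos' _ _).ne', Finsupp.add_apply,
        Nat.card_zpowers]
    have f2 : (Nat.card C).factorization r = (orderOf z).factorization r := by
      rw [← hHC.fact_card hr hrπ, ← e2, Nat.factorization_mul Nat.card_pos.ne'
        (relIndex_pos' _ _).ne', Finsupp.add_apply, Nat.card_zpowers,
        Nat.factorization_eq_zero_of_not_dvd (hZ.quot r hr hrq), add_zero]
    have f3 := (Nat.factorization_le_iff_dvd (orderOf_pos z).ne' (orderOf_pos z').ne').mpr hdvd r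
    have f4 := hr.factorization_pos_of_dvd (relIndex_pos' (zpowers z') C').ne' hrd
    have f5 := hcentr r hrπ hr
    omega
  -- normaliser condition
  have hJ := D.expGroup_eq h
  have hSS : expGroup n (⊥ : Subgroup K) z' (D.expK z' hz'M) ≤
      expGroup n (⊥ : Subgroup G) z (D.expG z hzM) := by
    intro u hu
    rw [mem_expGroup_bot] at hu ⊢
    have h1 : (u : ZMod n).val ≡ 1 [MOD orderOf z'] := by
      apply pow_eq_pow_iff_modEq.mp
      rw [hu, pow_one]
    have := pow_eq_pow_iff_modEq.mpr (h1.of_dvd hdvd)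
    rwa [pow_one] at this
  have hidx : C.relIndex N ∣ C'.relIndex N' := by
    rw [hCd, hNd, hC'd, hN'd, relIndex_expGroup (D.expG z hzM), relIndex_expGroup (D.expK z' hz'M),
      hJ]
    exact relIndex_dvd_of_le_left _ hSS
  have hNfact : ∀ r ∈ π, r.Prime →
      (Nat.card N).factorization r = (Nat.card M').factorization r := by
    intro r hrπ hr
    have e3 := card_mul_relIndex (inf_le_left : N ≤ M)
    have h1 : ¬ r ∣ N.relIndex M := by
      intro hd
      apply hH.2.2 r hrπ hr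
      rw [← relIndex_mul_relIndex H N M hHN inf_le_left]
      exact hd.mul_left _
    rw [← D.card_fact hr hrπ, ← e3, Nat.factorization_mul Nat.card_pos.ne' (relIndex_pos' _ _).ne',
      Finsupp.add_apply, Nat.factorization_eq_zero_of_not_dvd h1, add_zero]
  have hN'q : ∀ r ∈ π, r.Prime → ¬ r ∣ N'.relIndex M' := by
    intro r hrπ hr hrd
    have e1 := card_mul_relIndex hCN
    have e2 := card_mul_relIndex hC'N'
    have e4 := card_mul_relIndex (inf_le_left : N' ≤ M')
    have f1 : (Nat.card N).factorization r = (Nat.card C).factorization r +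
        (C.relIndex N).factorization r := by
      rw [← e1, Nat.factorization_mul Nat.card_pos.ne' (relIndex_pos' _ _).ne', Finsupp.add_apply]
    have f2 : (Nat.card N').factorization r = (Nat.card C').factorization r +
        (C'.relIndex N').factorization r := by
      rw [← e2, Nat.factorization_mul Nat.card_pos.ne' (relIndex_pos' _ _).ne', Finsupp.add_apply]
    have f3 : (Nat.card M').factorization r = (Nat.card N').factorization r +
        (N'.relIndex M').factorization r := by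
      rw [← e4, Nat.factorization_mul Nat.card_pos.ne' (relIndex_pos' _ _).ne', Finsupp.add_apply]
    have f4 := hr.factorization_pos_of_dvd (relIndex_pos' N' M').ne' hrd
    have f5 := hcentr r hrπ hr
    have f6 := hNfact r hrπ hr
    have f7 := (Nat.factorization_le_iff_dvd (relIndex_pos' C N).ne'
      (relIndex_pos' C' N').ne').mpr hidx r
    omega
  obtain ⟨H', hz'H', hH', hH'N', hq'⟩ := exists_of_z hZ.hq hz'M hz'π hC'q hN'q
  refine ⟨z', H', h, hH', hZ.hq, hz'H', norm_zpowers_iff.mp (hH'N'.trans inf_le_right), hq', ?_⟩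
  -- the condition on `p`-elements
  intro p hp g hg hgp hgw
  by_cases hpz' : p ∣ orderOf z'
  swap
  · exact hgw z' (mem_zpowers z') hpz'
  have hpπ : p ∈ π := hz'π p hp hpz'
  have hz'n : orderOf z' ∣ n := orderOf_dvd_of_pow_eq_one (D.expK z' hz'M)
  have hgN : g ∈ N' := hH'N' hg
  have hgz : g * z' * g⁻¹ ∈ zpowers z' := norm_zpowers_iff.mp (hH'N'.trans inf_le_right) g hg
  obtain ⟨i, hi⟩ := (isOfFinOrder_of_finite z').mem_powers_iff_mem_zpowers.mpr hgz
  simp only at hi
  have hic : Nat.Coprime i (orderOf z') := by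
    have h4 : orderOf (z' ^ i) = orderOf z' := by
      rw [hi]; exact (MulAut.conj g).orderOf_eq z'
    rw [orderOf_pow] at h4
    have h5 := Nat.mul_div_cancel' (Nat.gcd_dvd_left (orderOf z') i)
    rw [h4] at h5
    have h6 : Nat.gcd (orderOf z') i = 1 :=
      Nat.eq_of_mul_eq_mul_right (orderOf_pos z') (by rw [h5, one_mul])
    exact Nat.Coprime.symm h6
  have hpi : ¬ p ∣ i := fun hd => hp.one_lt.ne' (Nat.dvd_one.mp (by
    have := Nat.dvd_gcd hd hpz'
    rwa [hic] at this))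
  have hi1 : i ≡ 1 [MOD ordCompl[p] (orderOf z')] := by
    set w := z' ^ (ordProj[p] (orderOf z')) with hw
    have hwo : orderOf w = ordCompl[p] (orderOf z') := by
      rw [hw, orderOf_pow_of_dvd (pow_pos hp.pos _).ne' (Nat.ordProj_dvd _ _)]
    have hpw : ¬ p ∣ orderOf w := by
      rw [hwo]; exact Nat.not_dvd_ordCompl hp (orderOf_pos z').ne'
    have h7 := hgw w (npow_mem_zpowers z' _) hpw
    have h8 : w ^ i = w ^ 1 := by
      have h9 : g * w * g⁻¹ = w ^ i := by
        rw [hw, ← conj_pow, ← hi, ← pow_mul, ← pow_mul, mul_comm]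
      rw [← h9, pow_one, h7.eq, mul_inv_cancel_right]
    rw [← hwo]
    exact pow_eq_pow_iff_modEq.mp h8
  obtain ⟨j, hj1, hj2⟩ := exists_exp hp D.npos i 1
  have hji : j ≡ i [MOD orderOf z'] := by
    have h1 : j ≡ i [MOD ordProj[p] (orderOf z')] :=
      hj1.of_dvd (Nat.ordProj_dvd_ordProj_of_dvd D.npos.ne' hz'n p)
    have h2 : j ≡ i [MOD ordCompl[p] (orderOf z')] :=
      (hj2.of_dvd (Nat.ordCompl_dvd_ordCompl_of_dvd hz'n p)).trans hi1.symm
    have h5 := (Nat.modEq_and_modEq_iff_modEq_mul (Nat.Coprime.pow_left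
      ((orderOf z').factorization p) (Nat.coprime_ordCompl hp (orderOf_pos z').ne'))).mp ⟨h1, h2⟩
    rwa [Nat.ordProj_mul_ordCompl_eq_self] at h5
  have hgj : g * z' * g⁻¹ = z' ^ j := by
    rw [← hi]; exact (pow_eq_pow_iff_modEq.mpr hji).symm
  have hjc : Nat.Coprime j n := by
    rw [Nat.coprime_iff_gcd_eq_one]
    by_contra hne
    obtain ⟨r, hr, hrd⟩ := Nat.exists_prime_and_dvd hne
    have hrj := hrd.trans (Nat.gcd_dvd_left _ _)
    have hrn := hrd.trans (Nat.gcd_dvd_right _ _)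
    have hrr : r ∣ ordProj[r] n := by
      apply dvd_pow_self
      exact (hr.factorization_pos_of_dvd D.npos.ne' hrn).ne'
    by_cases hrp : r = p
    · subst hrp
      exact hpi ((hj1.dvd_iff hrr).mp hrj)
    · have h1 : r ∣ ordCompl[p] n := by
        have h2 : r ∣ ordProj[p] n * ordCompl[p] n := by
          rw [Nat.ordProj_mul_ordCompl_eq_self]; exact hrn
        refine Nat.Coprime.dvd_of_dvd_mul_left ?_ h2
        exact Nat.Coprime.pow_right _ ((Nat.coprime_primes hr hp).mpr hrp)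
      exact hr.one_lt.ne' (Nat.dvd_one.mp ((hj2.dvd_iff h1).mp hrj))
  set u := ZMod.unitOfCoprime j hjc with hu
  have huj : (u : ZMod n).val ≡ j [MOD n] := by
    rw [hu, ZMod.coe_unitOfCoprime, ZMod.val_natCast]
    exact Nat.mod_modEq _ _
  have huJ' : u ∈ expGroup n M' z' (D.expK z' hz'M) := by
    rw [mem_expGroup, pow_of_modEq (D.expK z' hz'M) huj]
    exact ⟨g, hH'.1 hg, hgj⟩
  have huJ := huJ'
  rw [← hJ, mem_expGroup, pow_of_modEq (D.expG z hzM) huj] at huJ
  obtain ⟨m, hm, hmj⟩ := huJ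
  -- `p`-power order
  have hpow : ∀ t : ℕ, g ^ t * z' * (g ^ t)⁻¹ = z' ^ (j ^ t) := by
    intro t
    induction t with
    | zero => simp
    | succ t ih =>
      have e : g ^ (t + 1) * z' * (g ^ (t + 1))⁻¹ = g ^ t * (g * z' * g⁻¹) * (g ^ t)⁻¹ := by
        rw [pow_succ]; simp only [mul_assoc, mul_inv_rev]
      rw [e, hgj, ← conj_pow, ih, ← pow_mul, ← pow_succ]
  obtain ⟨k, hk⟩ : ∃ k, orderOf g = p ^ k := by
    have := Fact.mk hp
    have h1 : IsPGroup p (zpowers g) := by
      apply isPGroup_of_card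
      intro r hr hrd
      rw [Nat.card_zpowers] at hrd
      exact hgp r hr hrd
    obtain ⟨k, hk⟩ := IsPGroup.iff_card.mp h1
    rw [Nat.card_zpowers] at hk
    exact ⟨k, hk⟩
  have hjk : j ^ p ^ k ≡ 1 [MOD orderOf z'] := by
    apply pow_eq_pow_iff_modEq.mp
    rw [← hpow, ← hk, pow_orderOf_eq_one]; simp
  have hzn : orderOf z ∣ n := orderOf_dvd_of_pow_eq_one (D.expG z hzM)
  have hjz := hZ.key hH hp hpπ hm hmj (hj2.of_dvd (Nat.ordCompl_dvd_ordCompl_of_dvd hzn p))
    (hjk.of_dvd hdvd)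
  -- comparison of the kernels
  set J := expGroup n M' z' (D.expK z' hz'M) with hJd
  set S := expGroup n (⊥ : Subgroup G) z (D.expG z hzM) with hSd
  set S' := expGroup n (⊥ : Subgroup K) z' (D.expK z' hz'M) with hS'd
  have huS : u ∈ S := by
    rw [hSd, mem_expGroup_bot, pow_of_modEq (D.expG z hzM) huj]
    have := pow_eq_pow_iff_modEq.mpr hjz
    rwa [pow_one] at this
  have i1 : C.relIndex N = S.relIndex J := by
    rw [hCd, hNd, relIndex_expGroup (D.expG z hzM), hJ]
  have i2 : C'.relIndex N' = S'.relIndex J := by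
    rw [hC'd, hN'd, relIndex_expGroup (D.expK z' hz'M)]
  have i3 : (S' ⊓ J).relIndex (S ⊓ J) * (S ⊓ J).relIndex J = (S' ⊓ J).relIndex J :=
    relIndex_mul_relIndex _ _ _ (inf_le_inf_right J hSS) inf_le_right
  rw [inf_relIndex_right, inf_relIndex_right, ← i1, ← i2] at i3
  have hnd : ¬ p ∣ (S' ⊓ J).relIndex (S ⊓ J) := by
    intro hd
    have e1 := card_mul_relIndex hCN
    have e2 := card_mul_relIndex hC'N'
    have f1 : (Nat.card N).factorization p = (Nat.card C).factorization p +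
        (C.relIndex N).factorization p := by
      rw [← e1, Nat.factorization_mul Nat.card_pos.ne' (relIndex_pos' _ _).ne', Finsupp.add_apply]
    have f2 : (Nat.card N').factorization p = (Nat.card C').factorization p +
        (C'.relIndex N').factorization p := by
      rw [← e2, Nat.factorization_mul Nat.card_pos.ne' (relIndex_pos' _ _).ne', Finsupp.add_apply]
    have f3 : (Nat.card N').factorization p ≤ (Nat.card M').factorization p := by
      have := card_dvd_of_le (inf_le_left : N' ≤ M')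
      exact (Nat.factorization_le_iff_dvd Nat.card_pos.ne' Nat.card_pos.ne').mpr this p
    have f5 := hcentr p hpπ hp
    have f6 := hNfact p hpπ hp
    have hpos : 0 < (S' ⊓ J).relIndex (S ⊓ J) := relIndex_pos' _ _
    have f7 : (C'.relIndex N').factorization p =
        ((S' ⊓ J).relIndex (S ⊓ J)).factorization p + (C.relIndex N).factorization p := by
      rw [← i3, Nat.factorization_mul hpos.ne' (relIndex_pos' _ _).ne', Finsupp.add_apply]
    have f8 := hp.factorization_pos_of_dvd hpos.ne' hd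
    omega
  set t := (S' ⊓ J).relIndex (S ⊓ J) with htd
  have hut : u ^ t ∈ S' := by
    have h1 := Subgroup.pow_index_mem ((S' ⊓ J).subgroupOf (S ⊓ J)) ⟨u, huS, huJ'⟩
    have h2 : (((⟨u, huS, huJ'⟩ : ↥(S ⊓ J)) ^ t : ↥(S ⊓ J)) : (ZMod n)ˣ) ∈ S' ⊓ J := by
      exact h1
    exact h2.1
  have hjt : j ^ t ≡ 1 [MOD orderOf z'] := by
    rw [hS'd, mem_expGroup_bot] at hut
    have h1 : (((u ^ t : (ZMod n)ˣ) : ZMod n)).val ≡ j ^ t [MOD n] := by
      rw [← ZMod.natCast_eq_natCast_iff, ZMod.natCast_zmod_val, Units.val_pow_eq_pow_val, hu,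
        ZMod.coe_unitOfCoprime, Nat.cast_pow]
    rw [pow_of_modEq (D.expK z' hz'M) h1] at hut
    apply pow_eq_pow_iff_modEq.mp
    rw [hut, pow_one]
  have h8 : ((j : ZMod (orderOf z'))) ^ t = 1 := by
    have := (ZMod.natCast_eq_natCast_iff _ _ _).mpr hjt
    push_cast at this
    exact this
  have h9 : ((j : ZMod (orderOf z'))) ^ (p ^ k) = 1 := by
    have := (ZMod.natCast_eq_natCast_iff _ _ _).mpr hjk
    push_cast at this
    exact this
  have h10 : orderOf (j : ZMod (orderOf z')) ∣ Nat.gcd t (p ^ k) :=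
    Nat.dvd_gcd (orderOf_dvd_of_pow_eq_one h8) (orderOf_dvd_of_pow_eq_one h9)
  have h11 : Nat.gcd t (p ^ k) = 1 := by
    rw [Nat.gcd_comm]
    exact Nat.Coprime.pow_left _ ((Nat.Prime.coprime_iff_not_dvd hp).mpr hnd)
  rw [h11, Nat.dvd_one, orderOf_eq_one_iff] at h10
  have h12 : j ≡ 1 [MOD orderOf z'] := by
    rw [← ZMod.natCast_eq_natCast_iff, h10, Nat.cast_one]
  have h13 : z' ^ j = z' := by
    have := pow_eq_pow_iff_modEq.mpr h12
    rwa [pow_one] at this
  rw [h13] at hgj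
  exact mul_inv_eq_iff_eq_mul.mp hgj

end HData

end Main

end HallTab
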